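import Mathlib

/-!
Character degree sets and class size sets.
-/

set_option autoImplicit false

namespace Pool.Agent.Lib.MP_e0d3d5_al

/-- The set of the degrees of the irreducible complex characters of `G`. -/
def cdSet (G : Type) [Group G] : Set ℕ :=
  {d | ∃ (V : Type) (_ : AddCommGroup V) (_ : Module ℂ V) (_ : FiniteDimensional ℂ V)
    (ρ : Representation ℂ G V), ρ.IsIrreducible ∧ Module.finrank ℂ V = d}

/-- The set of the conjugacy class sizes of `G`. -/
def csSet (G : Type) [Group G] : Set ℕ :=
  {c | ∃ x : G, (Subgroup.centralizer {x}).index = c}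

/-- The pair `(A, B)` is realizable: some finite `p`-group has set of character degrees `A` and set
of class sizes `B`. -/
def Realizable (p : ℕ) (A B : Set ℕ) : Prop :=
  ∃ (P : Type) (_ : Group P) (_ : Finite P), IsPGroup p P ∧ cdSet P = A ∧ csSet P = B

end Pool.Agent.Lib.MP_e0d3d5_al
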