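import Mathlib
import Pool.Agent.Lib.MP_3c3661_al.Char
import Pool.Agent.Lib.MP_e0d3d5_al.Defs

section

/-!
Irreducible characters of a finite group: completeness, the number of irreducible characters and
the sum of the squares of the degrees.
-/

set_option autoImplicit false

namespace Pool.Agent.Lib.MP_e0d3d5_al

open Representation
open scoped MonoidAlgebra
open Pool.Agent.Lib.MP_3c3661_al (sum_smul_eq_zero isIrreducible_ofModule')

variable {G : Type} [Group G] [Fintype G]

/-- A class function orthogonal to all irreducible characters vanishes. -/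
theorem classFun_eq_zero {z : G → ℂ} (hz : ∀ g x, z (g * x * g⁻¹) = z x)
    (h : ∀ (V : Type) [AddCommGroup V] [Module ℂ V] [FiniteDimensional ℂ V]
      (ρ : Representation ℂ G V), ρ.IsIrreducible → ∑ x, z x * ρ.character x = 0) :
    z = 0 := by
  classical
  let Z : ℂ[G] := ∑ x, z x • MonoidAlgebra.of ℂ G x
  have hZc : ∀ a : ℂ[G], Z * a = a * Z := by
    intro a
    induction a using MonoidAlgebra.induction_linear with
    | zero => simp
    | add x y hx hy => rw [mul_add, add_mul, hx, hy]
    | single u c =>
      have h1 : MonoidAlgebra.single u c = c • MonoidAlgebra.of ℂ G u := by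
        rw [MonoidAlgebra.of_apply, MonoidAlgebra.smul_single, smul_eq_mul, mul_one]
      rw [h1, mul_smul_comm, smul_mul_assoc]
      congr 1
      simp only [Z]
      rw [Finset.sum_mul, Finset.mul_sum]
      refine Fintype.sum_equiv (MulAut.conj u⁻¹).toEquiv _ _ (fun x => ?_)
      have h1 : (MulAut.conj u⁻¹).toEquiv x = u⁻¹ * x * u := by simp
      have h2 : z (u⁻¹ * x * u) = z x := by
        have := hz u⁻¹ x
        rwa [inv_inv] at this
      rw [h1, h2, smul_mul_assoc, mul_smul_comm, ← map_mul, ← map_mul]
      congr 2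
      group
  have hNZ : NeZero (Nat.card G : ℂ) := ⟨by exact_mod_cast Nat.card_pos.ne'⟩
  have hkill : ∀ S : Submodule ℂ[G] ℂ[G], IsSimpleModule ℂ[G] S → ∀ s ∈ S, Z * s = 0 := by
    intro S hS s hs
    have hirr := isIrreducible_ofModule' (G := G) (M := S)
    have h1 := sum_smul_eq_zero (ofModule' (k := ℂ) (G := G) S) z hz (h S _ hirr)
    have h2 := LinearMap.congr_fun h1 ⟨s, hs⟩
    rw [LinearMap.sum_apply] at h2
    have h3 := congrArg (fun t : S => (t : ℂ[G])) h2
    simp only [LinearMap.smul_apply, LinearMap.zero_apply, ZeroMemClass.coe_zero] at h3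
    rw [← h3]
    simp only [Z, Finset.sum_mul, AddSubmonoidClass.coe_finsetSum]
    apply Finset.sum_congr rfl
    intro x _
    rw [smul_mul_assoc]
    simp [ofModule']
  have hZ0 : Z = 0 := by
    have htop : (⊤ : Submodule ℂ[G] ℂ[G]) ≤
        LinearMap.ker (LinearMap.toSpanSingleton ℂ[G] ℂ[G] Z) := by
      rw [← IsSemisimpleModule.sSup_simples_eq_top ℂ[G] ℂ[G]]
      apply sSup_le
      intro S hS s hs
      rw [LinearMap.mem_ker, LinearMap.toSpanSingleton_apply, smul_eq_mul, ← hZc]
      exact hkill S hS s hs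
    have := htop (Submodule.mem_top (x := (1 : ℂ[G])))
    rw [LinearMap.mem_ker, LinearMap.toSpanSingleton_apply, one_smul] at this
    exact this
  funext g
  have hcoef : Z.coeff g = z g := by
    simp only [Z]
    simp [Finsupp.single_apply]
  rw [hZ0] at hcoef
  exact hcoef.symm

omit [Fintype G] in
/-- The set of irreducible characters. -/
def IrrSet (G : Type) [Group G] : Set (G → ℂ) :=
  {χ | ∃ (V : Type) (_ : AddCommGroup V) (_ : Module ℂ V) (_ : FiniteDimensional ℂ V)
    (ρ : Representation ℂ G V), ρ.IsIrreducible ∧ χ = ρ.character}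

/-- The form. -/
noncomputable def form (f g : G → ℂ) : ℂ := (Nat.card G : ℂ)⁻¹ * ∑ x, f x * g x⁻¹

lemma form_eq {χ ψ : G → ℂ} (hχ : χ ∈ IrrSet G) (hψ : ψ ∈ IrrSet G) :
    form χ ψ = if χ = ψ then 1 else 0 := by
  classical
  obtain ⟨V, _, _, _, ρ, hρ, rfl⟩ := hχ
  obtain ⟨W, _, _, _, σ, hσ, rfl⟩ := hψ
  have hinv : Invertible (Nat.card G : ℂ) := invertibleOfNonzero (by exact_mod_cast Nat.card_pos.ne')
  have h1 := char_orthonormal ρ σ
  unfold form
  rw [h1]
  by_cases hne : Nonempty (Representation.Equiv σ ρ)
  · rw [if_pos hne]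
    obtain ⟨φ⟩ := hne
    rw [if_pos (char_iso φ).symm]
  · rw [if_neg hne]
    rw [if_neg]
    intro heq
    have h2 := char_orthonormal ρ ρ
    rw [if_pos ⟨Representation.Equiv.refl ρ⟩] at h2
    rw [if_neg hne, ← heq, h2] at h1
    exact one_ne_zero h1

lemma classFun_eq_zero_form {f : G → ℂ} (hf : ∀ g x, f (g * x * g⁻¹) = f x)
    (h : ∀ χ ∈ IrrSet G, form f χ = 0) : f = 0 := by
  have h1 : (fun x => f x⁻¹) = 0 := by
    apply classFun_eq_zero
    · intro g x
      have : (g * x * g⁻¹)⁻¹ = g * x⁻¹ * g⁻¹ := by group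
      rw [this, hf]
    · intro V _ _ _ ρ hρ
      have h2 := h ρ.character ⟨V, _, _, inferInstance, ρ, hρ, rfl⟩
      unfold form at h2
      have hne : (Nat.card G : ℂ)⁻¹ ≠ 0 := inv_ne_zero (by exact_mod_cast Nat.card_pos.ne')
      have h3 := (mul_eq_zero.1 h2).resolve_left hne
      rw [← h3]
      exact Fintype.sum_equiv (Equiv.inv G) _ _ (fun x => by simp)
  funext x
  have := congrFun h1 x⁻¹
  simpa using this

omit [Fintype G] in
lemma classFun_of_mem {χ : G → ℂ} (hχ : χ ∈ IrrSet G) (g x : G) : χ (g * x * g⁻¹) = χ x := by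
  obtain ⟨V, _, _, _, ρ, hρ, rfl⟩ := hχ
  exact char_conj ρ x g

/-- The space of class functions. -/
def ClassFun (G : Type) [Group G] : Submodule ℂ (G → ℂ) where
  carrier := {f | ∀ g x, f (g * x * g⁻¹) = f x}
  add_mem' := by
    intro a b ha hb g x
    rw [Pi.add_apply, Pi.add_apply, ha, hb]
  zero_mem' := by intro g x; rfl
  smul_mem' := by
    intro c f hf g x
    rw [Pi.smul_apply, Pi.smul_apply, hf]

lemma finrank_classFun : Module.finrank ℂ (ClassFun G) = Nat.card (ConjClasses G) := by
  classical
  let e : (ConjClasses G → ℂ) ≃ₗ[ℂ] ClassFun G :=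
    { toFun := fun f => ⟨fun x => f (ConjClasses.mk x), fun g x => by
        have : ConjClasses.mk (g * x * g⁻¹) = ConjClasses.mk x :=
          (ConjClasses.mk_eq_mk_iff_isConj.2 (isConj_iff.2 ⟨g, rfl⟩)).symm
        exact congrArg f this⟩
      map_add' := fun _ _ => rfl
      map_smul' := fun _ _ => rfl
      invFun := fun f => Quotient.lift (s := IsConj.setoid G) f.1 (fun a b hab => by
        obtain ⟨g, hg⟩ := isConj_iff.1 hab
        rw [← hg]; exact (f.2 g a).symm)
      left_inv := fun f => by
        funext c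
        induction c using Quotient.inductionOn with
        | h x => rfl
      right_inv := fun f => rfl }
  rw [← e.finrank_eq, Module.finrank_fintype_fun_eq_card, Nat.card_eq_fintype_card]

lemma form_add (f g h : G → ℂ) : form (f + g) h = form f h + form g h := by
  unfold form
  rw [← mul_add, ← Finset.sum_add_distrib]
  congr 1
  apply Finset.sum_congr rfl
  intro x _
  rw [Pi.add_apply, add_mul]

lemma form_smul (c : ℂ) (f h : G → ℂ) : form (c • f) h = c * form f h := by
  unfold form
  rw [Finset.mul_sum, Finset.mul_sum, Finset.mul_sum]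
  apply Finset.sum_congr rfl
  intro x _
  rw [Pi.smul_apply, smul_eq_mul]
  ring

/-- the form as a linear map in the first variable -/
noncomputable def formL (h : G → ℂ) : (G → ℂ) →ₗ[ℂ] ℂ where
  toFun f := form f h
  map_add' f g := form_add f g h
  map_smul' c f := form_smul c f h

lemma linearIndependent_irr :
    LinearIndependent ℂ (fun χ : IrrSet G => (⟨χ, classFun_of_mem χ.2⟩ : ClassFun G)) := by
  classical
  rw [linearIndependent_iff']
  intro s c hc χ hχ
  have h1 := congrArg (fun f : ClassFun G => formL (χ : G → ℂ) (f : G → ℂ)) hc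
  simp only [ZeroMemClass.coe_zero, map_zero] at h1
  rw [AddSubmonoidClass.coe_finsetSum, map_sum] at h1
  rw [Finset.sum_eq_single χ] at h1
  · have h2 : formL (χ : G → ℂ) ((c χ • (⟨χ, classFun_of_mem χ.2⟩ : ClassFun G) : ClassFun G) : G → ℂ)
        = c χ * form (χ : G → ℂ) χ := form_smul _ _ _
    rw [h2, form_eq χ.2 χ.2, if_pos rfl, mul_one] at h1
    exact h1
  · intro ψ _ hψ
    have h2 : formL (χ : G → ℂ) ((c ψ • (⟨ψ, classFun_of_mem ψ.2⟩ : ClassFun G) : ClassFun G) : G → ℂ)
        = c ψ * form (ψ : G → ℂ) χ := form_smul _ _ _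
    rw [h2, form_eq ψ.2 χ.2, if_neg (fun h => hψ (Subtype.ext h)), mul_zero]
  · intro h; exact absurd hχ h

instance finite_irr : Finite (IrrSet G) :=
  (linearIndependent_irr (G := G)).finite_of_isNoetherian

/-- The number of irreducible characters is the number of conjugacy classes. -/
theorem card_irr : Nat.card (IrrSet G) = Nat.card (ConjClasses G) := by
  classical
  have : Fintype (IrrSet G) := Fintype.ofFinite _
  apply le_antisymm
  · rw [← finrank_classFun, Nat.card_eq_fintype_card]
    exact (linearIndependent_irr (G := G)).fintype_card_le_finrank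
  · let L : ClassFun G →ₗ[ℂ] (IrrSet G → ℂ) :=
      LinearMap.pi (fun χ => (formL (χ : G → ℂ)) ∘ₗ (ClassFun G).subtype)
    have hL : Function.Injective L := by
      rw [injective_iff_map_eq_zero]
      intro f hf
      apply Subtype.ext
      apply classFun_eq_zero_form f.2
      intro χ hχ
      exact congrFun hf ⟨χ, hχ⟩
    have := LinearMap.finrank_le_finrank_of_injective hL
    rwa [finrank_classFun, Module.finrank_fintype_fun_eq_card, ← Nat.card_eq_fintype_card] at this

/-- The sum of the squares of the degrees. -/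
theorem sum_sq_irr [Fintype (IrrSet G)] :
    ∑ χ : IrrSet G, ((χ : G → ℂ) 1) ^ 2 = (Nat.card G : ℂ) := by
  classical
  have hne : (Nat.card G : ℂ) ≠ 0 := by exact_mod_cast Nat.card_pos.ne'
  let δ : G → ℂ := fun x => if x = 1 then 1 else 0
  let f : G → ℂ := δ - ∑ χ : IrrSet G, ((Nat.card G : ℂ)⁻¹ * (χ : G → ℂ) 1) • (χ : G → ℂ)
  have hδ : ∀ g x : G, δ (g * x * g⁻¹) = δ x := by
    intro g x
    simp only [δ]
    have : g * x * g⁻¹ = 1 ↔ x = 1 := by
      rw [mul_inv_eq_one, mul_eq_left]
    simp only [this]
  have hfc : ∀ g x : G, f (g * x * g⁻¹) = f x := by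
    intro g x
    simp only [f, Pi.sub_apply, Finset.sum_apply, Pi.smul_apply, hδ]
    congr 1
    apply Finset.sum_congr rfl
    intro χ _
    rw [classFun_of_mem χ.2]
  have hf0 : f = 0 := by
    apply classFun_eq_zero_form hfc
    intro ψ hψ
    have h1 : form f ψ = formL ψ f := rfl
    rw [h1]
    simp only [f]
    rw [map_sub, map_sum]
    have h2 : ∀ χ : IrrSet G, formL ψ (((Nat.card G : ℂ)⁻¹ * (χ : G → ℂ) 1) • (χ : G → ℂ)) =
        if χ = ⟨ψ, hψ⟩ then (Nat.card G : ℂ)⁻¹ * ψ 1 else 0 := by
      intro χ
      rw [map_smul]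
      show _ • form (χ : G → ℂ) ψ = _
      rw [form_eq χ.2 hψ]
      by_cases h : χ = ⟨ψ, hψ⟩
      · rw [if_pos h, if_pos (congrArg Subtype.val h), h]; simp
      · rw [if_neg h, if_neg (fun h' => h (Subtype.ext h')), smul_zero]
    rw [Finset.sum_congr rfl (fun χ _ => h2 χ), Finset.sum_ite_eq' Finset.univ (⟨ψ, hψ⟩ : IrrSet G),
      if_pos (Finset.mem_univ _)]
    have h3 : formL ψ δ = (Nat.card G : ℂ)⁻¹ * ψ 1 := by
      show (Nat.card G : ℂ)⁻¹ * ∑ x, δ x * ψ x⁻¹ = _
      congr 1
      simp only [δ, ite_mul, one_mul, zero_mul]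
      rw [Finset.sum_ite_eq' Finset.univ (1 : G), if_pos (Finset.mem_univ _), inv_one]
    rw [h3, sub_self]
  have h1 := congrFun hf0 1
  simp only [f, Pi.sub_apply, Finset.sum_apply, Pi.smul_apply, Pi.zero_apply, smul_eq_mul, δ,
    if_true] at h1
  have h2 : ∑ χ : IrrSet G, (Nat.card G : ℂ)⁻¹ * (χ : G → ℂ) 1 * (χ : G → ℂ) 1
      = (Nat.card G : ℂ)⁻¹ * ∑ χ : IrrSet G, ((χ : G → ℂ) 1) ^ 2 := by
    rw [Finset.mul_sum]
    apply Finset.sum_congr rfl
    intro χ _
    ring
  rw [h2] at h1
  have h3 := sub_eq_zero.1 h1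
  field_simp at h3
  exact h3.symm

/-! ### Linear characters -/

omit [Fintype G] in
/-- the one-dimensional representation attached to a linear character -/
noncomputable def linRep (l : G →* ℂˣ) : Representation ℂ G ℂ where
  toFun g := ((l g : ℂˣ) : ℂ) • LinearMap.id
  map_one' := by rw [map_one, Units.val_one, one_smul]; rfl
  map_mul' g h := by
    ext
    simp [mul_comm]

omit [Fintype G] in
lemma linRep_irreducible (l : G →* ℂˣ) : (linRep l).IsIrreducible := by
  have : IsSimpleOrder (Submodule ℂ ℂ) := inferInstance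
  refine { toNontrivial := ⟨⊥, ⊤, ?_⟩, eq_bot_or_eq_top := ?_ }
  · intro h
    have h1 : (⊥ : Submodule ℂ ℂ) = ⊤ := congrArg Subrepresentation.toSubmodule h
    exact bot_ne_top h1
  · intro σ
    rcases eq_bot_or_eq_top σ.toSubmodule with h | h
    · left
      exact Subrepresentation.toSubmodule_injective h
    · right
      exact Subrepresentation.toSubmodule_injective h

omit [Fintype G] in
lemma linRep_character (l : G →* ℂˣ) (g : G) : (linRep l).character g = (l g : ℂ) := by
  show LinearMap.trace ℂ ℂ (((l g : ℂˣ) : ℂ) • LinearMap.id) = _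
  rw [map_smul, ← Module.End.one_eq_id, LinearMap.trace_one]
  simp

omit [Fintype G] in
lemma character_one_dim {V : Type} [AddCommGroup V] [Module ℂ V] [FiniteDimensional ℂ V]
    (ρ : Representation ℂ G V) (h : Module.finrank ℂ V = 1) (g : G) (v : V) :
    ρ g v = ρ.character g • v := by
  obtain ⟨v₀, hv₀, hall⟩ := (finrank_eq_one_iff' (K := ℂ) (V := V)).1 h
  obtain ⟨c, hc⟩ := hall (ρ g v₀)
  have h1 : ρ g = c • (1 : Module.End ℂ V) := by
    ext w
    obtain ⟨d, rfl⟩ := hall w
    rw [map_smul, ← hc]
    simp [smul_smul, mul_comm]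
  have h2 : ρ.character g = c := by
    show LinearMap.trace ℂ V (ρ g) = c
    rw [h1, map_smul, LinearMap.trace_one, h]; simp
  rw [h2, h1]
  rfl

/-- The number of linear characters is the order of the abelianization. -/
theorem card_lin : Nat.card {χ : IrrSet G // (χ : G → ℂ) 1 = 1} = Nat.card (Abelianization G) := by
  classical
  have h1 : Nat.card (Abelianization G →* ℂˣ) = Nat.card (Abelianization G) := by
    have : Finite (Abelianization G) := inferInstance
    have hn : NeZero (Monoid.exponent (Abelianization G)) :=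
      ⟨Monoid.exponent_ne_zero_of_finite⟩
    exact CommGroup.card_monoidHom_of_hasEnoughRootsOfUnity _ _
  have h2 : Nat.card (G →* ℂˣ) = Nat.card (Abelianization G →* ℂˣ) :=
    Nat.card_congr Abelianization.lift
  rw [← h1, ← h2]
  symm
  refine Nat.card_congr (Equiv.ofBijective (fun l : G →* ℂˣ =>
    (⟨⟨(linRep l).character, ⟨ℂ, _, _, inferInstance, linRep l, linRep_irreducible l, rfl⟩⟩, by
      show (linRep l).character 1 = 1
      rw [linRep_character, map_one, Units.val_one]⟩ :
      {χ : IrrSet G // (χ : G → ℂ) 1 = 1})) ⟨?_, ?_⟩)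
  · intro l l' h
    have h3 : (linRep l).character = (linRep l').character := congrArg (fun x => (x.1 : G → ℂ)) h
    ext g
    have := congrFun h3 g
    rw [linRep_character, linRep_character] at this
    exact this
  · rintro ⟨⟨χ, V, _, _, _, ρ, hρ, rfl⟩, hχ⟩
    have hχ' : ρ.character 1 = 1 := hχ
    have hdim : Module.finrank ℂ V = 1 := by
      rw [Representation.char_one] at hχ'
      exact_mod_cast hχ'
    have hmul : ∀ g h, ρ.character (g * h) = ρ.character g * ρ.character h := by
      intro g h
      obtain ⟨v₀, hv₀, hall⟩ := (finrank_eq_one_iff' (K := ℂ) (V := V)).1 hdim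
      have e1 := character_one_dim ρ hdim (g * h) v₀
      rw [map_mul, Module.End.mul_apply, character_one_dim ρ hdim h, map_smul,
        character_one_dim ρ hdim g, smul_smul] at e1
      have e2 : (ρ.character h * ρ.character g - ρ.character (g * h)) • v₀ = 0 := by
        rw [sub_smul, e1, sub_self]
      have e3 := (smul_eq_zero.1 e2).resolve_right hv₀
      rw [mul_comm]
      exact (sub_eq_zero.1 e3).symm
    let l₀ : G →* ℂ := ⟨⟨ρ.character, hχ'⟩, hmul⟩
    refine ⟨l₀.toHomUnits, ?_⟩
    apply Subtype.ext
    apply Subtype.ext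
    funext g
    show (linRep l₀.toHomUnits).character g = ρ.character g
    rw [linRep_character]
    rfl

end Pool.Agent.Lib.MP_e0d3d5_al
end

section

/-!
The group of class at most two on `V × W` given by a biadditive map `f : V × V → W`: its class
sizes and character degrees.
-/

set_option autoImplicit false

namespace Pool.Agent.Lib.MP_e0d3d5_al

open Representation

/-- The group on `V × W` with multiplication `(v, w) (v', w') = (v + v', w + w' + f v v')`. -/
structure Tw {V W : Type} [AddCommGroup V] [AddCommGroup W] (f : V →+ V →+ W) where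
  /-- first component -/
  fst : V
  /-- second component -/
  snd : W

namespace Tw

variable {V W : Type} [AddCommGroup V] [AddCommGroup W] {f : V →+ V →+ W}

@[ext] lemma ext' {x y : Tw f} (h1 : x.fst = y.fst) (h2 : x.snd = y.snd) : x = y := by
  cases x; cases y; simp_all

instance : Mul (Tw f) := ⟨fun x y => ⟨x.fst + y.fst, x.snd + y.snd + f x.fst y.fst⟩⟩
instance : One (Tw f) := ⟨⟨0, 0⟩⟩
instance : Inv (Tw f) := ⟨fun x => ⟨-x.fst, -x.snd + f x.fst x.fst⟩⟩

@[simp] lemma mul_fst (x y : Tw f) : (x * y).fst = x.fst + y.fst := rfl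
@[simp] lemma mul_snd (x y : Tw f) : (x * y).snd = x.snd + y.snd + f x.fst y.fst := rfl
@[simp] lemma one_fst : (1 : Tw f).fst = 0 := rfl
@[simp] lemma one_snd : (1 : Tw f).snd = 0 := rfl
@[simp] lemma inv_fst (x : Tw f) : (x⁻¹).fst = -x.fst := rfl
@[simp] lemma inv_snd (x : Tw f) : (x⁻¹).snd = -x.snd + f x.fst x.fst := rfl

instance : Group (Tw f) := Group.ofLeftAxioms
  (by
    intro x y z
    ext
    · simp [add_assoc]
    · simp only [mul_snd, mul_fst, map_add, AddMonoidHom.add_apply]
      abel)
  (by intro x; ext <;> simp)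
  (by intro x; ext <;> simp)

/-- The underlying set is `V × W`. -/
def equivProd : Tw f ≃ V × W where
  toFun x := (x.fst, x.snd)
  invFun x := ⟨x.1, x.2⟩
  left_inv _ := rfl
  right_inv _ := rfl

instance [Finite V] [Finite W] : Finite (Tw f) := Finite.of_equiv _ (equivProd (f := f)).symm

lemma card_eq : Nat.card (Tw f) = Nat.card V * Nat.card W := by
  rw [Nat.card_congr (equivProd (f := f)), Nat.card_prod]

/-- The commutator pairing. -/
def pair (f : V →+ V →+ W) : V →+ V →+ W := f - f.flip

lemma pair_apply (v v' : V) : pair f v v' = f v v' - f v' v := rfl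

/-- The embedding of `W`. -/
def incl (f : V →+ V →+ W) (w : W) : Tw f := ⟨0, w⟩

lemma incl_mul (w w' : W) : incl f (w + w') = incl f w * incl f w' := by
  ext <;> simp [incl]

lemma incl_zero : incl f 0 = 1 := rfl

lemma incl_comm (w : W) (x : Tw f) : incl f w * x = x * incl f w := by
  ext <;> simp [incl, add_comm]

lemma comm_eq (x y : Tw f) : x * y = incl f (pair f x.fst y.fst) * (y * x) := by
  ext
  · simp [incl, add_comm]
  · simp only [incl, pair_apply, mul_snd, mul_fst, map_zero, AddMonoidHom.zero_apply]
    abel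

/-- The map `y ↦ pair x y` as a homomorphism to `W`. -/
def pairHom (x : Tw f) : Tw f →* Multiplicative W where
  toFun y := Multiplicative.ofAdd (pair f x.fst y.fst)
  map_one' := by simp
  map_mul' y z := by simp

lemma centralizer_eq (x : Tw f) : Subgroup.centralizer {x} = (pairHom x).ker := by
  ext y
  rw [Subgroup.mem_centralizer_singleton_iff, MonoidHom.mem_ker]
  constructor
  · intro h
    have h1 := comm_eq x y
    rw [h] at h1
    have h2 := congrArg Tw.snd h1
    simp only [incl, mul_snd, mul_fst, map_zero, AddMonoidHom.zero_apply, add_zero] at h2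
    show Multiplicative.ofAdd (pair f x.fst y.fst) = 1
    have h3 : pair f x.fst y.fst = 0 := by
      have h4 : pair f x.fst y.fst + (x.snd + y.snd + f x.fst y.fst) =
        0 + (x.snd + y.snd + f x.fst y.fst) := by rw [zero_add]; exact h2.symm
      exact add_right_cancel h4
    rw [h3]; rfl
  · intro h
    have h3 : pair f x.fst y.fst = 0 := h
    have h1 := comm_eq x y
    rw [h3, incl_zero, one_mul] at h1
    exact h1.symm

/-- Class sizes of `Tw f`. -/
theorem csSet_eq : csSet (Tw f) = {c | ∃ v : V, Nat.card (pair f v).range = c} := by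
  ext c
  constructor
  · rintro ⟨x, hx⟩
    refine ⟨x.fst, ?_⟩
    rw [← hx, centralizer_eq, Subgroup.index_ker]
    apply Nat.card_congr
    refine Equiv.subtypeEquiv (Multiplicative.ofAdd) (fun w => ?_)
    constructor
    · rintro ⟨v', rfl⟩
      exact ⟨⟨v', 0⟩, rfl⟩
    · rintro ⟨y, hy⟩
      exact ⟨y.fst, hy⟩
  · rintro ⟨v, hv⟩
    refine ⟨⟨v, 0⟩, ?_⟩
    rw [← hv, centralizer_eq, Subgroup.index_ker]
    symm
    apply Nat.card_congr
    refine Equiv.subtypeEquiv (Multiplicative.ofAdd) (fun w => ?_)
    constructor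
    · rintro ⟨v', rfl⟩
      exact ⟨⟨v', 0⟩, rfl⟩
    · rintro ⟨y, hy⟩
      exact ⟨y.fst, hy⟩

/-- The radical of the pairing composed with a character of `W`. -/
def rad (f : V →+ V →+ W) (l : AddChar W ℂ) : AddSubgroup V where
  carrier := {v | ∀ v', l (pair f v v') = 1}
  zero_mem' := by intro v'; simp
  add_mem' := by
    intro u v hu hv v'
    rw [map_add, AddMonoidHom.add_apply, AddChar.map_add_eq_mul, hu v', hv v', one_mul]
  neg_mem' := by
    intro v hv v'
    rw [map_neg, AddMonoidHom.neg_apply, AddChar.map_neg_eq_inv, hv v', inv_one]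

lemma mem_rad {l : AddChar W ℂ} {v : V} : v ∈ rad f l ↔ ∀ v', l (pair f v v') = 1 := Iff.rfl

end Tw

/-- Schur's lemma: an endomorphism commuting with an irreducible representation is a scalar. -/
lemma schur {G : Type} [Group G] {U : Type} [AddCommGroup U] [Module ℂ U] [FiniteDimensional ℂ U]
    (ρ : Representation ℂ G U) (hρ : ρ.IsIrreducible) (T : U →ₗ[ℂ] U)
    (hT : ∀ g, T ∘ₗ ρ g = ρ g ∘ₗ T) : ∃ c : ℂ, T = c • LinearMap.id := by
  have hnt : Nontrivial U := by
    by_contra hcon
    rw [not_nontrivial_iff_subsingleton] at hcon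
    obtain ⟨σ, τ, hne⟩ := hρ.toNontrivial
    apply hne
    apply Subrepresentation.toSubmodule_injective
    exact Subsingleton.elim _ _
  obtain ⟨c, hc⟩ := Module.End.exists_eigenvalue T
  refine ⟨c, ?_⟩
  let σ : Subrepresentation ρ :=
    { toSubmodule := Module.End.eigenspace T c
      apply_mem_toSubmodule := by
        intro g v hv
        rw [Module.End.mem_eigenspace_iff] at hv ⊢
        have := LinearMap.congr_fun (hT g) v
        simp only [LinearMap.comp_apply] at this
        rw [this, hv, map_smul] }
  have hσ : σ = ⊤ := by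
    rcases hρ.eq_bot_or_eq_top σ with h | h
    · exfalso
      apply hc
      exact congrArg Subrepresentation.toSubmodule h
    · exact h
  ext v
  have h1 : v ∈ σ.toSubmodule := by rw [hσ]; trivial
  have h2 : v ∈ Module.End.eigenspace T c := h1
  rw [Module.End.mem_eigenspace_iff] at h2
  simpa using h2

end Pool.Agent.Lib.MP_e0d3d5_al
end

section

section

/-!
Alternating bilinear maps over finite fields: if `β : V × V → W` is alternating and `β (v, ·)` is
onto for all nonzero `v`, then `2 dim W ≤ dim V`.
-/

set_option autoImplicit false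

namespace Pool.Agent.Lib.MP_e0d3d5_al

open Matrix

/-- The determinant of an alternating matrix over a field is a square. -/
theorem det_alternating_sq {K : Type*} [Field K] : ∀ (m : ℕ) {n : Type} [Fintype n] [DecidableEq n]
    (A : Matrix n n K), Fintype.card n = m → (∀ i, A i i = 0) → (∀ i j, A i j = - A j i) →
    ∃ s, A.det = s ^ 2 := by
  intro m
  induction m using Nat.strong_induction_on with
  | _ m ih =>
  intro n _ _ A hm hdiag hanti
  by_cases hA : ∃ i j, A i j ≠ 0
  · obtain ⟨i, j, hij⟩ := hA
    have hne : i ≠ j := by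
      rintro rfl
      exact hij (hdiag i)
    let T := {k : n // k ≠ i ∧ k ≠ j}
    let e' : Fin 2 ⊕ T → n := Sum.elim ![i, j] Subtype.val
    have he' : Function.Bijective e' := by
      constructor
      · rintro (a | a) (b | b) hab
        · congr 1
          have hab' : (![i, j] : Fin 2 → n) a = ![i, j] b := hab
          fin_cases a <;> fin_cases b
          · rfl
          · exact absurd hab' hne
          · exact absurd hab'.symm hne
          · rfl
        · exfalso
          have hb := b.2
          fin_cases a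
          · exact hb.1 (by simpa [e'] using hab.symm)
          · exact hb.2 (by simpa [e'] using hab.symm)
        · exfalso
          have ha := a.2
          fin_cases b
          · exact ha.1 (by simpa [e'] using hab)
          · exact ha.2 (by simpa [e'] using hab)
        · have : (a : n) = b := by simpa [e'] using hab
          rw [Subtype.ext this]
      · intro k
        by_cases h1 : k = i
        · exact ⟨Sum.inl 0, by simp [e', h1]⟩
        · by_cases h2 : k = j
          · exact ⟨Sum.inl 1, by simp [e', h2]⟩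
          · exact ⟨Sum.inr ⟨k, h1, h2⟩, by simp [e']⟩
    let e : Fin 2 ⊕ T ≃ n := Equiv.ofBijective e' he'
    let x := A i j
    have hji : A j i = - x := hanti j i
    have hx : x ≠ 0 := hij
    let M := A.submatrix e e
    have hM11 : M.toBlocks₁₁ = !![0, x; -x, 0] := by
      ext a b
      fin_cases a <;> fin_cases b
      · exact hdiag i
      · rfl
      · exact hji
      · exact hdiag j
    let N : Matrix (Fin 2) (Fin 2) K := !![0, -x⁻¹; x⁻¹, 0]
    have hN1 : N * M.toBlocks₁₁ = 1 := by
      rw [hM11]
      ext a b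
      fin_cases a <;> fin_cases b <;> simp [N, Matrix.mul_apply, Fin.sum_univ_two, hx]
    have hN2 : M.toBlocks₁₁ * N = 1 := by
      rw [hM11]
      ext a b
      fin_cases a <;> fin_cases b <;> simp [N, Matrix.mul_apply, Fin.sum_univ_two, hx]
    let hinv : Invertible M.toBlocks₁₁ := ⟨N, hN1, hN2⟩
    have hdet : A.det = M.toBlocks₁₁.det *
        (M.toBlocks₂₂ - M.toBlocks₂₁ * N * M.toBlocks₁₂).det := by
      rw [← Matrix.det_submatrix_equiv_self e A]
      conv_lhs => rw [← Matrix.fromBlocks_toBlocks (A.submatrix e e)]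
      exact Matrix.det_fromBlocks₁₁ _ _ _ _
    have hcard : Fintype.card T < m := by
      have h1 : Fintype.card (Fin 2 ⊕ T) = Fintype.card n := Fintype.card_congr e
      rw [Fintype.card_sum, Fintype.card_fin] at h1
      omega
    have hS : ∀ k l : T, (M.toBlocks₂₂ - M.toBlocks₂₁ * N * M.toBlocks₁₂) k l =
        A k l - (A k j * x⁻¹ * A i l - A k i * x⁻¹ * A j l) := by
      intro k l
      rw [Matrix.sub_apply, Matrix.mul_apply, Fin.sum_univ_two, Matrix.mul_apply,
        Matrix.mul_apply, Fin.sum_univ_two, Fin.sum_univ_two]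
      have e1 : M.toBlocks₂₂ k l = A k l := rfl
      have e2 : M.toBlocks₂₁ k 0 = A k i := rfl
      have e3 : M.toBlocks₂₁ k 1 = A k j := rfl
      have e4 : M.toBlocks₁₂ 0 l = A i l := rfl
      have e5 : M.toBlocks₁₂ 1 l = A j l := rfl
      rw [e1, e2, e3, e4, e5]
      simp only [N, Matrix.of_apply, Matrix.cons_val', Matrix.cons_val_zero, Matrix.cons_val_one,
        Matrix.cons_val_fin_one]
      ring
    obtain ⟨s, hs⟩ := ih _ hcard (M.toBlocks₂₂ - M.toBlocks₂₁ * N * M.toBlocks₁₂) rfl
      (by
        intro k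
        rw [hS, hdiag, hanti i k, hanti j k]
        ring)
      (by
        intro k l
        rw [hS, hS, hanti k l, hanti i l, hanti j l, hanti i k, hanti j k]
        ring)
    refine ⟨x * s, ?_⟩
    rw [hdet, hs, hM11]
    simp [Matrix.det_fin_two]
    ring
  · push Not at hA
    have hA0 : A = 0 := by
      ext i j
      exact hA i j
    by_cases hn : IsEmpty n
    · exact ⟨1, by rw [Matrix.det_isEmpty]; ring⟩
    · rw [not_isEmpty_iff] at hn
      exact ⟨0, by rw [hA0, Matrix.det_zero]; ring⟩

/-- The determinant of an alternating matrix over an integrally closed domain is a square. -/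
theorem det_alternating_sq' {R : Type*} [CommRing R] [IsDomain R] [IsIntegrallyClosed R]
    {n : Type} [Fintype n] [DecidableEq n]
    (A : Matrix n n R) (hdiag : ∀ i, A i i = 0) (hanti : ∀ i j, A i j = - A j i) :
    ∃ s, A.det = s ^ 2 := by
  let F := FractionRing R
  obtain ⟨s, hs⟩ := det_alternating_sq (K := F) _ (A.map (algebraMap R F)) rfl
    (by intro i; simp [hdiag])
    (by intro i j; rw [Matrix.map_apply, Matrix.map_apply, hanti i j, map_neg])
  have h1 : (A.map (algebraMap R F)).det = algebraMap R F A.det :=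
    ((algebraMap R F).map_det A).symm
  rw [h1] at hs
  obtain ⟨t, ht⟩ := IsIntegrallyClosed.exists_algebraMap_eq_of_isIntegral_pow (R := R) (K := F)
    (n := 2) (by norm_num) (x := s) (by rw [← hs]; exact isIntegral_algebraMap)
  refine ⟨t, ?_⟩
  apply IsFractionRing.injective R F
  rw [map_pow, ht, hs]

/-- The degree of the determinant of a matrix of polynomials of degree at most one. -/
lemma totalDegree_det_le {K : Type*} [Field K] {σ : Type*} {n : Type*} [Fintype n] [DecidableEq n]
    (A : Matrix n n (MvPolynomial σ K)) (hA : ∀ i j, (A i j).totalDegree ≤ 1) :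
    A.det.totalDegree ≤ Fintype.card n := by
  rw [Matrix.det_apply]
  apply MvPolynomial.totalDegree_finsetSum_le
  intro τ _
  refine le_trans (MvPolynomial.totalDegree_smul_le _ _) ?_
  refine le_trans (MvPolynomial.totalDegree_finsetProd _ _) ?_
  refine le_trans (Finset.sum_le_sum (fun i _ => hA _ _)) ?_
  simp

/-- If `β` is alternating and `β v` is onto for all `v ≠ 0` then `2 dim W ≤ dim V`. -/
theorem two_mul_finrank_le {K : Type*} [Field K] [Fintype K] {V W : Type*}
    [AddCommGroup V] [Module K V] [FiniteDimensional K V]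
    [AddCommGroup W] [Module K W] [FiniteDimensional K W]
    (β : V →ₗ[K] V →ₗ[K] W) (halt : ∀ v, β v v = 0) (hsurj : ∀ v, v ≠ 0 → Function.Surjective (β v))
    (hV : 0 < Module.finrank K V) :
    2 * Module.finrank K W ≤ Module.finrank K V := by
  classical
  set n := Module.finrank K V with hn
  set b := Module.finrank K W with hb
  let bV := Module.finBasis K V
  let bW := Module.finBasis K W
  let A : Matrix (Fin n) (Fin n) (MvPolynomial (Fin b) K) := fun i j =>
    ∑ l, MvPolynomial.C (bW.repr (β (bV i) (bV j)) l) * MvPolynomial.X l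
  have hanti0 : ∀ u v, β u v = - β v u := by
    intro u v
    have h1 := halt (u + v)
    simp only [map_add, LinearMap.add_apply, halt, zero_add, add_zero] at h1
    exact eq_neg_of_add_eq_zero_right h1
  obtain ⟨g, hg⟩ := det_alternating_sq' A
    (by intro i; simp [A, halt])
    (by
      intro i j
      simp only [A]
      rw [hanti0, ← Finset.sum_neg_distrib]
      apply Finset.sum_congr rfl
      intro l _
      simp)
  have hdegA : ∀ i j, (A i j).totalDegree ≤ 1 := by
    intro i j
    apply MvPolynomial.totalDegree_finsetSum_le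
    intro l _
    refine le_trans (MvPolynomial.totalDegree_mul _ _) ?_
    rw [MvPolynomial.totalDegree_C, MvPolynomial.totalDegree_X]
  have hdeg := totalDegree_det_le A hdegA
  rw [Fintype.card_fin] at hdeg
  have hdegg : 2 * g.totalDegree ≤ n := by
    by_cases hg0 : g = 0
    · rw [hg0]; simp
    · rw [hg, sq, MvPolynomial.totalDegree_mul_of_isDomain hg0 hg0] at hdeg
      omega
  by_contra hcon
  have hlt : g.totalDegree < Fintype.card (Fin b) := by
    rw [Fintype.card_fin]
    omega
  obtain ⟨p, hp⟩ := CharP.exists K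
  have hpp : Fact p.Prime := ⟨CharP.char_is_prime K p⟩
  have hCW := char_dvd_card_solutions p hlt
  have heval : ∀ x : Fin b → K, MvPolynomial.eval x g = 0 ↔ x = 0 := by
    intro x
    have h1 : (MvPolynomial.eval x g) ^ 2 = ((A.map (MvPolynomial.eval x)).det) := by
      rw [← map_pow, ← hg]
      exact (MvPolynomial.eval x).map_det A
    have hAx : ∀ i j, A.map (MvPolynomial.eval x) i j =
        ∑ l, bW.repr (β (bV i) (bV j)) l * x l := by
      intro i j
      rw [Matrix.map_apply]
      simp [A]
    constructor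
    · intro h0
      have hdet0 : (A.map (MvPolynomial.eval x)).det = 0 := by
        rw [← h1, h0]; ring
      obtain ⟨u, hu, hu0⟩ := Matrix.exists_mulVec_eq_zero_iff.2 hdet0
      let L : W →ₗ[K] K := Fintype.linearCombination K x ∘ₗ (bW.equivFun : W →ₗ[K] (Fin b → K))
      have hL : ∀ w, L w = ∑ l, bW.repr w l * x l := by
        intro w
        simp only [L, LinearMap.comp_apply, Fintype.linearCombination_apply, smul_eq_mul]
        rfl
      let y : V := ∑ j, u j • bV j
      have hy : y ≠ 0 := by
        intro hy0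
        apply hu
        funext j
        exact Fintype.linearIndependent_iff.1 bV.linearIndependent u hy0 j
      have h2 : ∀ i, L (β (bV i) y) = 0 := by
        intro i
        have h3 := congrFun hu0 i
        rw [Matrix.mulVec, dotProduct] at h3
        simp only [hAx] at h3
        simp only [y, map_sum, map_smul, smul_eq_mul]
        rw [Pi.zero_apply] at h3
        rw [← h3]
        apply Finset.sum_congr rfl
        intro j _
        rw [hL, mul_comm]
      have h4 : ∀ v, L (β v y) = 0 := by
        intro v
        rw [← bV.sum_repr v]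
        simp only [map_sum, map_smul, LinearMap.sum_apply, LinearMap.smul_apply, h2, smul_zero,
          Finset.sum_const_zero]
      have h5 : ∀ w, L w = 0 := by
        intro w
        obtain ⟨v, hv⟩ := hsurj y hy w
        rw [← hv, hanti0, map_neg, h4, neg_zero]
      funext l
      have h6 := h5 (bW l)
      rw [hL] at h6
      simpa [Finsupp.single_apply] using h6
    · rintro rfl
      have h2 : A.map (MvPolynomial.eval (0 : Fin b → K)) = 0 := by
        ext i j
        rw [hAx]
        simp
      rw [h2] at h1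
      have : Nonempty (Fin n) := ⟨⟨0, hV⟩⟩
      rw [Matrix.det_zero] at h1
      exact pow_eq_zero_iff (n := 2) (by norm_num) |>.1 h1
  have hcard1 : Fintype.card {x : Fin b → K // MvPolynomial.eval x g = 0} = 1 := by
    rw [Fintype.card_eq_one_iff]
    exact ⟨⟨0, (heval 0).2 rfl⟩, fun x => Subtype.ext ((heval x).1 x.2)⟩
  rw [hcard1] at hCW
  exact hpp.out.one_lt.ne' (Nat.dvd_one.1 hCW)

end Pool.Agent.Lib.MP_e0d3d5_al
end

section

/-!
Counting formulas for groups with two character degrees or two class sizes.
-/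

set_option autoImplicit false

namespace Pool.Agent.Lib.MP_e0d3d5_al

open Representation

section Cd

variable {G : Type} [Group G] [Finite G]

/-- The order of a group with two character degrees. -/
theorem card_of_cd {d : ℕ} (h : cdSet G = {1, d}) :
    Nat.card (Abelianization G) ≤ Nat.card (ConjClasses G) ∧
    Nat.card G = Nat.card (Abelianization G) +
      (Nat.card (ConjClasses G) - Nat.card (Abelianization G)) * d ^ 2 := by
  classical
  have : Fintype G := Fintype.ofFinite G
  have hF : Fintype (IrrSet G) := Fintype.ofFinite _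
  have hle : Nat.card (Abelianization G) ≤ Nat.card (ConjClasses G) := by
    rw [← card_lin, ← card_irr]
    exact Nat.card_le_card_of_injective _ Subtype.val_injective
  refine ⟨hle, ?_⟩
  have hval : ∀ χ : IrrSet G, (χ : G → ℂ) 1 = 1 ∨ (χ : G → ℂ) 1 = d := by
    rintro ⟨_, V, _, _, _, ρ, hρ, rfl⟩
    have h1 : Module.finrank ℂ V ∈ cdSet G := ⟨V, _, _, inferInstance, ρ, hρ, rfl⟩
    rw [h] at h1
    show ρ.character 1 = 1 ∨ ρ.character 1 = d
    rw [Representation.char_one]
    rcases h1 with h1 | h1
    · left; rw [h1]; norm_num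
    · right; rw [h1]
  have hsum := sum_sq_irr (G := G)
  have hcard1 : (Finset.univ.filter (fun χ : IrrSet G => (χ : G → ℂ) 1 = 1)).card =
      Nat.card (Abelianization G) := by
    rw [← card_lin, Nat.card_eq_fintype_card, Fintype.card_subtype]
  have hcard2 : (Finset.univ.filter (fun χ : IrrSet G => ¬ (χ : G → ℂ) 1 = 1)).card =
      Nat.card (ConjClasses G) - Nat.card (Abelianization G) := by
    have h2 := Finset.card_filter_add_card_filter_not (s := (Finset.univ : Finset (IrrSet G)))
      (fun χ : IrrSet G => (χ : G → ℂ) 1 = 1)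
    rw [hcard1, Finset.card_univ, ← Nat.card_eq_fintype_card, card_irr] at h2
    omega
  rw [← Finset.sum_filter_add_sum_filter_not Finset.univ (fun χ : IrrSet G => (χ : G → ℂ) 1 = 1)]
    at hsum
  have e1 : ∑ χ ∈ Finset.univ.filter (fun χ : IrrSet G => (χ : G → ℂ) 1 = 1),
      ((χ : G → ℂ) 1) ^ 2 = (Nat.card (Abelianization G) : ℂ) := by
    rw [Finset.sum_congr rfl (g := fun _ => (1 : ℂ)) (fun χ hχ => by
      rw [(Finset.mem_filter.1 hχ).2, one_pow])]
    rw [Finset.sum_const, hcard1]; simp
  have e2 : ∑ χ ∈ Finset.univ.filter (fun χ : IrrSet G => ¬ (χ : G → ℂ) 1 = 1),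
      ((χ : G → ℂ) 1) ^ 2 =
      ((Nat.card (ConjClasses G) - Nat.card (Abelianization G) : ℕ) : ℂ) * (d : ℂ) ^ 2 := by
    rw [Finset.sum_congr rfl (g := fun _ => (d : ℂ) ^ 2) (fun χ hχ => by
      rw [(hval χ).resolve_left (Finset.mem_filter.1 hχ).2])]
    rw [Finset.sum_const, hcard2, nsmul_eq_mul]
  rw [e1, e2] at hsum
  exact_mod_cast hsum.symm

end Cd

section Cs

/-- The size of the class of `x` is the index of the centraliser. -/
lemma ncard_class {G : Type*} [Group G] (x : G) :
    (ConjClasses.mk x).carrier.ncard = (Subgroup.centralizer {x}).index := by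
  have h1 : (Subgroup.comap (ConjAct.toConjAct (G := G)).toMonoidHom
      (MulAction.stabilizer (ConjAct G) x)).index = (MulAction.stabilizer (ConjAct G) x).index :=
    Subgroup.index_comap_of_surjective _ (ConjAct.toConjAct (G := G)).surjective
  have h2 := MulAction.index_stabilizer (ConjAct G) x
  rw [Subgroup.centralizer_eq_comap_stabilizer]
  refine Eq.trans ?_ h1.symm
  rw [h2, ConjAct.orbit_eq_carrier_conjClasses]

variable {G : Type} [Group G] [Finite G]

/-- The order of a group with two class sizes. -/
theorem card_of_cs {c : ℕ} (h : csSet G = {1, c}) :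
    Nat.card (Subgroup.center G) ≤ Nat.card (ConjClasses G) ∧
    Nat.card G = Nat.card (Subgroup.center G) +
      (Nat.card (ConjClasses G) - Nat.card (Subgroup.center G)) * c := by
  classical
  have : Fintype G := Fintype.ofFinite G
  have hbij := ConjClasses.mk_bijOn G
  have h1 : Nat.card (Subgroup.center G) = Nat.card ((ConjClasses.noncenter G)ᶜ : Set _) :=
    Nat.card_congr (hbij.equiv _)
  have h2 : Nat.card ((ConjClasses.noncenter G)ᶜ : Set _) + Nat.card (ConjClasses.noncenter G) =
      Nat.card (ConjClasses G) := by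
    rw [add_comm]
    exact Set.ncard_add_ncard_compl (ConjClasses.noncenter G)
  have hceq := Group.nat_card_center_add_sum_card_noncenter_eq_card G
  have h3 : ∑ᶠ x ∈ ConjClasses.noncenter G, Nat.card x.carrier =
      Nat.card (ConjClasses.noncenter G) * c := by
    have h4 : ∀ x ∈ ConjClasses.noncenter G, Nat.card x.carrier = c := by
      intro x hx
      induction x using Quotient.inductionOn with
      | h g =>
      have h5 : Nat.card (ConjClasses.mk g).carrier ∈ csSet G :=
        ⟨g, (ncard_class g).symm⟩
      rw [h] at h5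
      rcases h5 with h5 | h5
      · exfalso
        have h6 : (ConjClasses.mk g).carrier.Nontrivial := hx
        have h7 : (ConjClasses.mk g).carrier.ncard = 1 := h5
        obtain ⟨y, hy⟩ := Set.ncard_eq_one.1 h7
        rw [hy] at h6
        exact Set.not_nontrivial_singleton h6
      · exact h5
    rw [finsum_mem_congr rfl h4, ← finsum_set_coe_eq_finsum_mem, finsum_eq_sum_of_fintype,
      Finset.sum_const, Finset.card_univ, ← Nat.card_eq_fintype_card, smul_eq_mul]
  refine ⟨by omega, ?_⟩
  rw [← hceq, h3]
  congr 2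
  omega

end Cs

end Pool.Agent.Lib.MP_e0d3d5_al
end

section

/-!
Finite `p`-groups in which every noncentral class is a coset of the derived subgroup.
-/

set_option autoImplicit false

namespace Pool.Agent.Lib.MP_e0d3d5_al

open Subgroup
open scoped commutatorElement

section

variable {G : Type} [Group G] [Finite G]

/-- If the class of `x` has the size of the derived subgroup then every element of the derived
subgroup is a commutator `⁅x, y⁆`. -/
lemma exists_commutator_eq {x : G}
    (hx : (centralizer {x}).index = Nat.card (commutator G)) {c : G} (hc : c ∈ commutator G) :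
    ∃ y, ⁅x, y⁆ = c := by
  have hsub : (fun u => x * u⁻¹) '' (ConjClasses.mk x).carrier ⊆ (commutator G : Set G) := by
    rintro _ ⟨u, hu, rfl⟩
    rw [ConjClasses.mem_carrier_iff_mk_eq, ConjClasses.mk_eq_mk_iff_isConj, isConj_comm,
      isConj_iff] at hu
    obtain ⟨y, rfl⟩ := hu
    have : x * (y * x * y⁻¹)⁻¹ = ⁅x, y⁆ := by
      rw [commutatorElement_def]; group
    show x * (y * x * y⁻¹)⁻¹ ∈ commutator G
    rw [this]
    exact commutator_mem_commutator (mem_top _) (mem_top _)
  have hinj : Function.Injective (fun u : G => x * u⁻¹) := fun u v h => by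
    simpa using h
  have hcard : (commutator G : Set G).ncard ≤
      ((fun u => x * u⁻¹) '' (ConjClasses.mk x).carrier).ncard := by
    rw [Set.ncard_image_of_injective _ hinj, ncard_class, hx]
    exact le_of_eq rfl
  have heq := Set.eq_of_subset_of_ncard_le hsub hcard (Set.toFinite _)
  have hc' : c ∈ (commutator G : Set G) := hc
  rw [← heq] at hc'
  obtain ⟨u, hu, rfl⟩ := hc'
  rw [ConjClasses.mem_carrier_iff_mk_eq, ConjClasses.mk_eq_mk_iff_isConj, isConj_comm,
    isConj_iff] at hu
  obtain ⟨y, rfl⟩ := hu
  refine ⟨y, ?_⟩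
  rw [commutatorElement_def]; group

/-- The derived subgroup is central. -/
lemma commutator_le_center_of
    (h : ∀ x ∉ center G, (centralizer {x}).index = Nat.card (commutator G)) :
    commutator G ≤ center G := by
  intro c hc
  by_contra hcz
  obtain ⟨y, hy⟩ := exists_commutator_eq (h c hcz) hc
  rw [commutatorElement_def] at hy
  have h1 : y * c⁻¹ * y⁻¹ = 1 := by
    have : c * (y * c⁻¹ * y⁻¹) = c * 1 := by rw [mul_one]; simpa [mul_assoc] using hy
    exact mul_left_cancel this
  have h2 : c = 1 := by
    have := conj_eq_one_iff.1 h1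
    exact inv_eq_one.1 this
  exact hcz (h2 ▸ one_mem _)

end

section

variable {G : Type} [Group G]

lemma comm_mul_left (hG : commutator G ≤ center G) (x x' y : G) :
    ⁅x * x', y⁆ = ⁅x, y⁆ * ⁅x', y⁆ := by
  have h1 : ⁅x', y⁆ ∈ center G := hG (commutator_mem_commutator (mem_top _) (mem_top _))
  have h2 : ⁅x * x', y⁆ = x * ⁅x', y⁆ * x⁻¹ * ⁅x, y⁆ := by
    simp only [commutatorElement_def]; group
  rw [h2, mem_center_iff.1 h1 x]
  rw [mul_assoc ⁅x', y⁆ x x⁻¹, mul_inv_cancel, mul_one]
  exact (mem_center_iff.1 h1 _).symm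

lemma comm_mul_right (hG : commutator G ≤ center G) (x y y' : G) :
    ⁅x, y * y'⁆ = ⁅x, y⁆ * ⁅x, y'⁆ := by
  have h1 : ⁅x, y'⁆ ∈ center G := hG (commutator_mem_commutator (mem_top _) (mem_top _))
  have h2 : ⁅x, y * y'⁆ = ⁅x, y⁆ * (y * ⁅x, y'⁆ * y⁻¹) := by
    simp only [commutatorElement_def]; group
  rw [h2, mem_center_iff.1 h1 y, mul_assoc ⁅x, y'⁆ y y⁻¹, mul_inv_cancel, mul_one]

lemma comm_pow_left (hG : commutator G ≤ center G) (x y : G) (n : ℕ) :
    ⁅x ^ n, y⁆ = ⁅x, y⁆ ^ n := by
  induction n with
  | zero => simp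
  | succ n ih => rw [pow_succ, comm_mul_left hG, ih, pow_succ]

lemma comm_eq_one_of_left {z : G} (hz : z ∈ center G) (y : G) : ⁅z, y⁆ = 1 := by
  rw [commutatorElement_eq_one_iff_mul_comm]
  exact (mem_center_iff.1 hz y).symm

lemma comm_eq_one_of_right {z : G} (hz : z ∈ center G) (y : G) : ⁅y, z⁆ = 1 := by
  rw [commutatorElement_eq_one_iff_mul_comm]
  exact mem_center_iff.1 hz y

end

/-- Additive version of the dimension bound. -/
lemma two_mul_le_of_pairing {p : ℕ} [hp : Fact p.Prime] {V W : Type} [AddCommGroup V]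
    [AddCommGroup W] [Finite V] [Finite W] (hV : ∀ v : V, p • v = 0) (hW : ∀ w : W, p • w = 0)
    (f : V → V → W) (hfl : ∀ u u' v, f (u + u') v = f u v + f u' v)
    (hfr : ∀ u v v', f u (v + v') = f u v + f u v') (halt : ∀ v, f v v = 0)
    (hsurj : ∀ v, v ≠ 0 → Function.Surjective (f v)) {n b : ℕ} (hn : 0 < n)
    (hcV : Nat.card V = p ^ n) (hcW : Nat.card W = p ^ b) : 2 * b ≤ n := by
  let mV : Module (ZMod p) V := AddCommGroup.zmodModule (n := p) hV
  let mW : Module (ZMod p) W := AddCommGroup.zmodModule (n := p) hW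
  let β : V →ₗ[ZMod p] V →ₗ[ZMod p] W := LinearMap.mk₂ (ZMod p) f hfl
    (fun r u v => ZMod.map_smul (AddMonoidHom.mk' (fun u => f u v) (fun u u' => hfl u u' v)) r u)
    hfr
    (fun r u v => ZMod.map_smul (AddMonoidHom.mk' (fun v => f u v) (fun v v' => hfr u v v')) r v)
  have hrV : Module.finrank (ZMod p) V = n := by
    have h1 := Module.natCard_eq_pow_finrank (K := ZMod p) (V := V)
    rw [Nat.card_zmod, hcV] at h1
    exact (Nat.pow_right_injective hp.out.two_le h1).symm
  have hrW : Module.finrank (ZMod p) W = b := by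
    have h1 := Module.natCard_eq_pow_finrank (K := ZMod p) (V := W)
    rw [Nat.card_zmod, hcW] at h1
    exact (Nat.pow_right_injective hp.out.two_le h1).symm
  have hmain := two_mul_finrank_le β halt hsurj (by rw [hrV]; exact hn)
  rwa [hrV, hrW] at hmain

/-- A finite `p`-group in which all noncentral classes have the size `p ^ b` of the derived
subgroup, and the centre has index `p ^ (2 a)`, satisfies `b ≤ a`. -/
theorem le_of_camina {p : ℕ} [hp : Fact p.Prime] {G : Type} [Group G] [Finite G] (hG : IsPGroup p G)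
    {a b : ℕ} (ha : 1 ≤ a) (hZ : (center G).index = p ^ (2 * a))
    (hG' : Nat.card (commutator G) = p ^ b)
    (hcs : ∀ x ∉ center G, (centralizer {x}).index = p ^ b) : b ≤ a := by
  classical
  rw [← hG'] at hcs
  have hle : commutator G ≤ center G := commutator_le_center_of hcs
  have hsur : ∀ x ∉ center G, ∀ c ∈ commutator G, ∃ y, ⁅x, y⁆ = c :=
    fun x hx c hc => exists_commutator_eq (hcs x hx) hc
  -- an element of order `p` modulo the centre
  have hQ : IsPGroup p (G ⧸ center G) := hG.to_quotient _
  have hQcard : Nat.card (G ⧸ center G) = p ^ (2 * a) := hZ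
  obtain ⟨x₀, hx₀⟩ : ∃ x₀ : G, x₀ ∉ center G ∧ x₀ ^ p ∈ center G := by
    have hdvd : p ∣ Nat.card (G ⧸ center G) := by
      rw [hQcard]
      exact dvd_pow_self p (by omega)
    obtain ⟨q, hq⟩ := exists_prime_orderOf_dvd_card' p hdvd
    obtain ⟨x, rfl⟩ := QuotientGroup.mk_surjective q
    refine ⟨x, ?_, ?_⟩
    · intro hx
      rw [(QuotientGroup.eq_one_iff x).2 hx, orderOf_one] at hq
      exact hp.out.one_lt.ne hq
    · rw [← QuotientGroup.eq_one_iff, QuotientGroup.mk_pow, ← hq]
      exact pow_orderOf_eq_one _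
  have hexp : ∀ c ∈ commutator G, c ^ p = 1 := by
    intro c hc
    obtain ⟨y, rfl⟩ := hsur x₀ hx₀.1 c hc
    rw [← comm_pow_left hle]
    exact comm_eq_one_of_left hx₀.2 y
  have hexpV : ∀ x : G, x ^ p ∈ center G := by
    intro x
    rw [mem_center_iff]
    intro y
    have : ⁅x ^ p, y⁆ = 1 := by
      rw [comm_pow_left hle]
      exact hexp _ (commutator_mem_commutator (mem_top _) (mem_top _))
    exact ((commutatorElement_eq_one_iff_mul_comm).1 this).symm
  -- the two vector spaces
  let cgV : CommGroup (G ⧸ center G) :=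
    { (inferInstance : Group (G ⧸ center G)) with
      mul_comm := by
        intro u v
        obtain ⟨x, rfl⟩ := QuotientGroup.mk_surjective u
        obtain ⟨y, rfl⟩ := QuotientGroup.mk_surjective v
        rw [← QuotientGroup.mk_mul, ← QuotientGroup.mk_mul, QuotientGroup.eq]
        have : (x * y)⁻¹ * (y * x) = ⁅y⁻¹, x⁻¹⁆ := by
          simp only [commutatorElement_def]; group
        rw [this]
        exact hle (commutator_mem_commutator (mem_top _) (mem_top _)) }
  let cgW : CommGroup (commutator G) :=
    { (inferInstance : Group (commutator G)) with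
      mul_comm := by
        intro u v
        apply Subtype.ext
        exact (mem_center_iff.1 (hle u.2) v).symm }
  -- the commutator map
  let c : G → G → Additive (commutator G) := fun x y => Additive.ofMul
    (⟨⁅x, y⁆, commutator_mem_commutator (mem_top _) (mem_top _)⟩ : commutator G)
  have hc : ∀ x y x' y' : G, (x : G ⧸ center G) = x' → (y : G ⧸ center G) = y' → c x y = c x' y' := by
    intro x y x' y' hx hy
    rw [QuotientGroup.eq] at hx hy
    have e1 : x' = x * (x⁻¹ * x') := by group
    have e2 : y' = y * (y⁻¹ * y') := by group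
    have : ⁅x', y'⁆ = ⁅x, y⁆ := by
      rw [e1, comm_mul_left hle, comm_eq_one_of_left hx, mul_one, e2, comm_mul_right hle,
        comm_eq_one_of_right hy, mul_one]
    exact congrArg Additive.ofMul (Subtype.ext this.symm)
  let f : Additive (G ⧸ center G) → Additive (G ⧸ center G) → Additive (commutator G) :=
    fun u v => c (Quotient.out (Additive.toMul u)) (Quotient.out (Additive.toMul v))
  have hf : ∀ x y : G, f (Additive.ofMul (x : G ⧸ center G)) (Additive.ofMul (y : G ⧸ center G))
      = c x y := by
    intro x y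
    exact hc _ _ _ _ (QuotientGroup.out_eq' _) (QuotientGroup.out_eq' _)
  have hsurV : ∀ v : Additive (G ⧸ center G), ∃ x : G, v = Additive.ofMul (x : G ⧸ center G) := by
    intro v
    obtain ⟨x, hx⟩ := QuotientGroup.mk_surjective (Additive.toMul v)
    exact ⟨x, by rw [hx]; rfl⟩
  have finV : Finite (Additive (G ⧸ center G)) := inferInstanceAs (Finite (G ⧸ center G))
  have finW : Finite (Additive (commutator G)) := inferInstanceAs (Finite (commutator G))
  have hmain : 2 * b ≤ 2 * a := by
    refine two_mul_le_of_pairing (p := p) (V := Additive (G ⧸ center G))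
      (W := Additive (commutator G)) ?_ ?_ f ?_ ?_ ?_ ?_ (by omega) hQcard hG'
    · intro v
      obtain ⟨x, hx⟩ := QuotientGroup.mk_surjective (Additive.toMul v)
      show Additive.ofMul ((Additive.toMul v) ^ p) = Additive.ofMul 1
      rw [← hx, ← QuotientGroup.mk_pow, (QuotientGroup.eq_one_iff _).2 (hexpV x)]
    · intro w
      show Additive.ofMul ((Additive.toMul w) ^ p) = Additive.ofMul 1
      congr 1
      apply Subtype.ext
      exact hexp _ (Additive.toMul w).2
    · intro u u' v
      obtain ⟨x, rfl⟩ := hsurV u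
      obtain ⟨x', rfl⟩ := hsurV u'
      obtain ⟨y, rfl⟩ := hsurV v
      have e1 : (Additive.ofMul (x : G ⧸ center G) + Additive.ofMul (x' : G ⧸ center G)) =
        Additive.ofMul ((x * x' : G) : G ⧸ center G) := rfl
      rw [e1, hf, hf, hf]
      exact congrArg Additive.ofMul (Subtype.ext (comm_mul_left hle x x' y))
    · intro u v v'
      obtain ⟨x, rfl⟩ := hsurV u
      obtain ⟨y, rfl⟩ := hsurV v
      obtain ⟨y', rfl⟩ := hsurV v'
      have e1 : (Additive.ofMul (y : G ⧸ center G) + Additive.ofMul (y' : G ⧸ center G)) =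
        Additive.ofMul ((y * y' : G) : G ⧸ center G) := rfl
      rw [e1, hf, hf, hf]
      exact congrArg Additive.ofMul (Subtype.ext (comm_mul_right hle x y y'))
    · intro v
      obtain ⟨x, rfl⟩ := hsurV v
      rw [hf]
      exact congrArg Additive.ofMul (Subtype.ext (commutatorElement_self x))
    · intro v hv w
      obtain ⟨x, rfl⟩ := hsurV v
      have hx : x ∉ center G := by
        intro hx
        apply hv
        rw [(QuotientGroup.eq_one_iff x).2 hx]
        rfl
      obtain ⟨y, hy⟩ := hsur x hx _ (Additive.toMul w).2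
      refine ⟨Additive.ofMul (y : G ⧸ center G), ?_⟩
      rw [hf]
      exact congrArg Additive.ofMul (Subtype.ext hy)
  omega

end Pool.Agent.Lib.MP_e0d3d5_al
end
end
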