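import Mathlib
import Pool.Agent.Lib.MP_e0d3d5_al.Camina

section

/-!
The character degrees of the group `Tw f`.
-/

set_option autoImplicit false

namespace Pool.Agent.Lib.MP_e0d3d5_al

open Representation

namespace Tw

variable {V W : Type} [AddCommGroup V] [AddCommGroup W] [Finite V] [Finite W] {f : V →+ V →+ W}

section irr

variable {U : Type} [AddCommGroup U] [Module ℂ U] [FiniteDimensional ℂ U]
  (ρ : Representation ℂ (Tw f) U)

/-- The centre acts by scalars. -/
lemma exists_central_char (hρ : ρ.IsIrreducible) [Nontrivial U] :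
    ∃ l : AddChar W ℂ, ∀ w, ρ (incl f w) = l w • LinearMap.id := by
  have h1 : ∀ w, ∃ c : ℂ, ρ (incl f w) = c • LinearMap.id := by
    intro w
    apply schur ρ hρ
    intro g
    rw [← Module.End.mul_eq_comp, ← Module.End.mul_eq_comp, ← map_mul, ← map_mul, incl_comm]
  choose c hc using h1
  have hinj : ∀ a b : ℂ, a • (LinearMap.id : U →ₗ[ℂ] U) = b • LinearMap.id → a = b := by
    intro a b hab
    obtain ⟨u, hu⟩ := exists_ne (0 : U)
    have := LinearMap.congr_fun hab u
    simp only [LinearMap.smul_apply, LinearMap.id_apply] at this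
    exact smul_left_injective ℂ hu this
  refine ⟨⟨c, ?_, ?_⟩, hc⟩
  · apply hinj
    rw [← hc, incl_zero, map_one, one_smul]
    rfl
  · intro a b
    apply hinj
    rw [← hc, incl_mul, map_mul, hc, hc]
    ext u
    simp [mul_smul, smul_comm (c b) (c a) u]

omit [Finite V] [Finite W] [FiniteDimensional ℂ U] in
lemma character_eq_zero {l : AddChar W ℂ} (hl : ∀ w, ρ (incl f w) = l w • LinearMap.id)
    {x : Tw f} (hx : x.fst ∉ rad f l) : ρ.character x = 0 := by
  rw [mem_rad] at hx
  push Not at hx
  obtain ⟨v', hv'⟩ := hx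
  let y : Tw f := ⟨v', 0⟩
  have h1 : y⁻¹ * x * y = incl f (pair f x.fst v') * x := by
    have := comm_eq x y
    rw [mul_assoc, this, ← mul_assoc, ← incl_comm, mul_assoc, ← mul_assoc y⁻¹ y x,
      inv_mul_cancel, one_mul]
  have h2 : ρ.character (y⁻¹ * x * y) = ρ.character x := by
    have := char_conj ρ x y⁻¹
    rwa [inv_inv] at this
  rw [h1] at h2
  have h3 : ρ.character (incl f (pair f x.fst v') * x) = l (pair f x.fst v') * ρ.character x := by
    show LinearMap.trace ℂ U (ρ _) = _
    rw [map_mul, hl, smul_mul_assoc, map_smul, smul_eq_mul]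
    rfl
  rw [h3] at h2
  have h4 : (l (pair f x.fst v') - 1) * ρ.character x = 0 := by
    rw [sub_mul, h2]; ring
  exact (mul_eq_zero.1 h4).resolve_left (sub_ne_zero.2 hv')

omit [Finite V] [Finite W] in
lemma character_mul_inv (hρ : ρ.IsIrreducible) {l : AddChar W ℂ}
    (hl : ∀ w, ρ (incl f w) = l w • LinearMap.id)
    {x : Tw f} (hx : x.fst ∈ rad f l) :
    ρ.character x * ρ.character x⁻¹ = (Module.finrank ℂ U : ℂ) ^ 2 := by
  have h1 : ∃ c : ℂ, ρ x = c • LinearMap.id := by
    apply schur ρ hρ
    intro g
    rw [← Module.End.mul_eq_comp, ← Module.End.mul_eq_comp, ← map_mul, ← map_mul, comm_eq x g,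
      map_mul, hl, hx g.fst, one_smul]
    rfl
  obtain ⟨c, hc⟩ := h1
  by_cases hnt : Nontrivial U
  · have h2 : ρ x * ρ x⁻¹ = 1 := by rw [← map_mul, mul_inv_cancel, map_one]
    have hc0 : c ≠ 0 := by
      rintro rfl
      rw [hc, zero_smul, zero_mul] at h2
      exact zero_ne_one h2
    have h3 : ρ x⁻¹ = c⁻¹ • LinearMap.id := by
      have h4 : (c⁻¹ • LinearMap.id : U →ₗ[ℂ] U) * ρ x = 1 := by
        rw [hc]
        ext u
        simp [hc0]
      calc ρ x⁻¹ = ((c⁻¹ • LinearMap.id : U →ₗ[ℂ] U) * ρ x) * ρ x⁻¹ := by rw [h4, one_mul]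
        _ = c⁻¹ • LinearMap.id := by rw [mul_assoc, h2, mul_one]
    show LinearMap.trace ℂ U (ρ x) * LinearMap.trace ℂ U (ρ x⁻¹) = _
    rw [hc, h3, map_smul, map_smul, LinearMap.trace_id, smul_eq_mul, smul_eq_mul]
    field_simp
  · rw [not_nontrivial_iff_subsingleton] at hnt
    have h5 : Module.finrank ℂ U = 0 := Module.finrank_zero_of_subsingleton
    have h6 : ∀ T : U →ₗ[ℂ] U, LinearMap.trace ℂ U T = 0 := by
      intro T
      have : T = 0 := Subsingleton.elim _ _
      rw [this, map_zero]
    show LinearMap.trace ℂ U (ρ x) * LinearMap.trace ℂ U (ρ x⁻¹) = _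
    rw [h6, h6, h5]
    simp

/-- The degree of an irreducible representation with central character `l`. -/
lemma dim_sq (hρ : ρ.IsIrreducible) {l : AddChar W ℂ}
    (hl : ∀ w, ρ (incl f w) = l w • LinearMap.id) :
    (Module.finrank ℂ U) ^ 2 = (rad f l).index := by
  classical
  have : Fintype (Tw f) := Fintype.ofFinite _
  have hχ : ρ.character ∈ IrrSet (Tw f) := ⟨U, _, _, inferInstance, ρ, hρ, rfl⟩
  have h1 := form_eq hχ hχ
  rw [if_pos rfl] at h1
  unfold form at h1
  have hcard : (Nat.card (Tw f) : ℂ) ≠ 0 := by exact_mod_cast Nat.card_pos.ne'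
  have h2 : ∑ x, ρ.character x * ρ.character x⁻¹ = (Nat.card (Tw f) : ℂ) := by
    field_simp at h1
    exact h1
  have h3 : ∑ x : Tw f, ρ.character x * ρ.character x⁻¹ =
      ∑ x : Tw f, if x.fst ∈ rad f l then (Module.finrank ℂ U : ℂ) ^ 2 else 0 := by
    apply Finset.sum_congr rfl
    intro x _
    by_cases hx : x.fst ∈ rad f l
    · rw [if_pos hx, character_mul_inv ρ hρ hl hx]
    · rw [if_neg hx, character_eq_zero ρ hl hx, zero_mul]
  have h4 : (Finset.univ.filter (fun x : Tw f => x.fst ∈ rad f l)).card =
      Nat.card (rad f l) * Nat.card W := by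
    rw [← Fintype.card_subtype, ← Nat.card_eq_fintype_card, ← Nat.card_prod]
    apply Nat.card_congr
    exact { toFun := fun x => (⟨x.1.fst, x.2⟩, x.1.snd)
            invFun := fun y => ⟨⟨y.1.1, y.2⟩, y.1.2⟩
            left_inv := fun _ => rfl
            right_inv := fun _ => rfl }
  rw [h3, ← Finset.sum_filter, Finset.sum_const, h4, nsmul_eq_mul] at h2
  have h5 : Nat.card (rad f l) * Nat.card W * (Module.finrank ℂ U) ^ 2 =
      Nat.card V * Nat.card W := by
    rw [← card_eq (f := f)]
    exact_mod_cast h2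
  have h6 := (rad f l).card_mul_index
  have h7 : Nat.card (rad f l) * Nat.card W * (Module.finrank ℂ U) ^ 2 =
      Nat.card (rad f l) * Nat.card W * (rad f l).index := by
    rw [h5, ← h6]; ring
  exact Nat.eq_of_mul_eq_mul_left (Nat.mul_pos Nat.card_pos Nat.card_pos) h7

end irr

/-- Every character of `W` is the central character of some irreducible representation. -/
lemma exists_irr (l : AddChar W ℂ) : ∃ (U : Type) (_ : AddCommGroup U) (_ : Module ℂ U)
    (_ : FiniteDimensional ℂ U) (ρ : Representation ℂ (Tw f) U), ρ.IsIrreducible ∧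
    ∀ w, ρ (incl f w) = l w • LinearMap.id := by
  classical
  have : Fintype (Tw f) := Fintype.ofFinite _
  have : Fintype W := Fintype.ofFinite _
  by_contra hcon
  push Not at hcon
  let z : Tw f → ℂ := fun x => if x.fst = 0 then l (-x.snd) else 0
  have hz : z = 0 := by
    apply classFun_eq_zero
    · intro g x
      by_cases hx : x.fst = 0
      · have hxx : x = incl f x.snd := by
          ext
          · exact hx
          · rfl
        have : g * x * g⁻¹ = x := by
          rw [hxx, ← incl_comm, mul_assoc, mul_inv_cancel, mul_one]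
        rw [this]
      · have h1 : (g * x * g⁻¹).fst = x.fst := by simp
        simp only [z]
        rw [if_neg hx, if_neg (by rw [h1]; exact hx)]
    · intro U _ _ _ ρ hρ
      obtain ⟨w₀, hw₀⟩ := hcon U _ _ inferInstance ρ hρ
      have hnt : Nontrivial U := by
        by_contra hn
        rw [not_nontrivial_iff_subsingleton] at hn
        exact hw₀ (Subsingleton.elim _ _)
      obtain ⟨m, hm⟩ := exists_central_char ρ hρ
      have h1 : ∑ x, z x * ρ.character x = ∑ w : W, z (incl f w) * ρ.character (incl f w) := by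
        symm
        apply Finset.sum_of_injOn (incl f)
        · intro a _ b _ hab
          exact congrArg Tw.snd hab
        · intro _ _; exact Finset.mem_coe.2 (Finset.mem_univ _)
        · intro x _ hx
          have : x.fst ≠ 0 := by
            intro h0
            apply hx
            refine ⟨x.snd, Finset.mem_coe.2 (Finset.mem_univ _), ?_⟩
            ext
            · exact h0.symm
            · rfl
          simp only [z]
          rw [if_neg this, zero_mul]
        · intro _ _; rfl
      rw [h1]
      have h2 : ∀ w : W, z (incl f w) * ρ.character (incl f w) =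
          ((m - l) w) * Module.finrank ℂ U := by
        intro w
        have e1 : ρ.character (incl f w) = m w * Module.finrank ℂ U := by
          show LinearMap.trace ℂ U (ρ _) = _
          rw [hm, map_smul, LinearMap.trace_id, smul_eq_mul]
        have e2 : z (incl f w) = l (-w) := by
          show (if (0 : V) = 0 then l (-w) else 0) = _
          rw [if_pos rfl]
        rw [e1, e2, AddChar.sub_apply]
        ring
      rw [Finset.sum_congr rfl (fun w _ => h2 w), ← Finset.sum_mul]
      have h3 : m - l ≠ 0 := by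
        intro h
        have : m = l := sub_eq_zero.1 h
        rw [this] at hm
        exact hw₀ (hm w₀)
      rw [AddChar.sum_eq_zero_of_ne_one]
      · rw [zero_mul]
      · exact h3
  have h1 := congrFun hz 1
  simp only [z, one_fst, one_snd, neg_zero, if_true, AddChar.map_zero_eq_one, Pi.zero_apply] at h1
  exact one_ne_zero h1

/-- Character degrees of `Tw f`. -/
theorem cdSet_eq : cdSet (Tw f) = {d | ∃ l : AddChar W ℂ, d ^ 2 = (rad f l).index} := by
  ext d
  constructor
  · rintro ⟨U, _, _, _, ρ, hρ, hd⟩
    have hnt : Nontrivial U := by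
      by_contra hcon
      rw [not_nontrivial_iff_subsingleton] at hcon
      obtain ⟨σ, τ, hne⟩ := hρ.toNontrivial
      apply hne
      apply Subrepresentation.toSubmodule_injective
      exact Subsingleton.elim _ _
    obtain ⟨l, hl⟩ := exists_central_char ρ hρ
    exact ⟨l, by rw [← hd]; exact dim_sq ρ hρ hl⟩
  · rintro ⟨l, hl⟩
    obtain ⟨U, _, _, _, ρ, hρ, h⟩ := exists_irr (f := f) l
    refine ⟨U, _, _, inferInstance, ρ, hρ, ?_⟩
    have h1 := dim_sq ρ hρ h
    rw [← hl] at h1
    exact Nat.pow_left_injective (n := 2) (by norm_num) h1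

end Tw

end Pool.Agent.Lib.MP_e0d3d5_al
end

section

/-!
Examples: the pairs `({1, p ^ a}, {1, p ^ b})` with `1 ≤ b ≤ a` and `({1, p ^ a}, {1, p ^ (2 a)})`.
-/

set_option autoImplicit false

namespace Pool.Agent.Lib.MP_e0d3d5_al

open Tw

/-- A `p`-group of the form `Tw f`. -/
lemma isPGroup_tw {p : ℕ} [Fact p.Prime] {V W : Type} [AddCommGroup V] [AddCommGroup W]
    (f : V →+ V →+ W) {m n : ℕ} (hV : Nat.card V = p ^ m) (hW : Nat.card W = p ^ n) :
    IsPGroup p (Tw f) := by
  apply IsPGroup.of_card (n := m + n)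
  rw [Tw.card_eq, hV, hW, pow_add]

/-- The biadditive map `((x, y), (x', y')) ↦ π (x y')`. -/
def heis {K W : Type} [Field K] [AddCommGroup W] (π : K →+ W) : K × K →+ K × K →+ W :=
  AddMonoidHom.mk' (fun v => AddMonoidHom.mk' (fun v' => π (v.1 * v'.2)) (by
    intro a b
    simp [mul_add])) (by
    intro a b
    ext c; simp [add_mul])

lemma heis_apply {K W : Type} [Field K] [AddCommGroup W] (π : K →+ W) (v v' : K × K) :
    heis π v v' = π (v.1 * v'.2) := rfl

lemma pair_heis {K W : Type} [Field K] [AddCommGroup W] (π : K →+ W) (v v' : K × K) :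
    pair (heis π) v v' = π (v.1 * v'.2 - v'.1 * v.2) := by
  rw [pair_apply, heis_apply, heis_apply, map_sub]

lemma pair_heis_surj {K W : Type} [Field K] [AddCommGroup W] {π : K →+ W}
    (hπ : Function.Surjective π) {v : K × K} (hv : v ≠ 0) (w : W) :
    ∃ v', pair (heis π) v v' = w := by
  obtain ⟨k, rfl⟩ := hπ w
  by_cases h : v.1 = 0
  · have h2 : v.2 ≠ 0 := fun h2 => hv (Prod.ext h h2)
    refine ⟨(-(k * v.2⁻¹), 0), ?_⟩
    rw [pair_heis]
    congr 1
    simp [h, h2]
  · refine ⟨(0, v.1⁻¹ * k), ?_⟩
    rw [pair_heis]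
    congr 1
    simp [h]

theorem realizable_heis {p : ℕ} [hp : Fact p.Prime] {a b : ℕ} (hb : 1 ≤ b) (hba : b ≤ a) :
    Realizable p {1, p ^ a} {1, p ^ b} := by
  classical
  let K := GaloisField p a
  have ha0 : a ≠ 0 := by omega
  have hK : Nat.card K = p ^ a := GaloisField.card p a ha0
  have hKfin : Finite K := inferInstance
  let W := Fin b → ZMod p
  have hW : Nat.card W = p ^ b := by
    show Nat.card (Fin b → ZMod p) = p ^ b
    rw [Nat.card_fun, Nat.card_zmod, Nat.card_fin]
  have hVfin : Finite (K × K) := inferInstance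
  obtain ⟨π, hπ⟩ : ∃ π : K →+ W, Function.Surjective π := by
    have hfr : Module.finrank (ZMod p) K = a := GaloisField.finrank p ha0
    let e : K ≃ₗ[ZMod p] (Fin a → ZMod p) :=
      LinearEquiv.ofFinrankEq K (Fin a → ZMod p) (by rw [hfr, Module.finrank_fin_fun])
    let r : (Fin a → ZMod p) →ₗ[ZMod p] (Fin b → ZMod p) :=
      LinearMap.funLeft (ZMod p) (ZMod p) (Fin.castLE hba)
    have hr : Function.Surjective r :=
      LinearMap.funLeft_surjective_of_injective _ _ _ (Fin.castLE_injective hba)
    exact ⟨(r ∘ₗ e.toLinearMap).toAddMonoidHom, fun w => by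
      obtain ⟨u, rfl⟩ := hr w
      exact ⟨e.symm u, by simp⟩⟩
  let f := heis π
  have hV : Nat.card (K × K) = p ^ (2 * a) := by
    rw [Nat.card_prod, hK, ← pow_add]; congr 1; omega
  have hne : ∃ v : K × K, v ≠ 0 := ⟨(1, 0), by simp⟩
  have hbW : ∃ w : W, w ≠ 0 := by
    have : Nontrivial W := by
      have : Nonempty (Fin b) := ⟨⟨0, hb⟩⟩
      exact inferInstanceAs (Nontrivial (Fin b → ZMod p))
    exact exists_ne 0
  refine ⟨Tw f, inferInstance, inferInstance, isPGroup_tw f hV hW, ?_, ?_⟩
  · rw [cdSet_eq]
    have hrad : ∀ l : AddChar W ℂ, l ≠ 1 → rad f l = ⊥ := by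
      intro l hl
      rw [eq_bot_iff]
      intro v hv
      by_contra hv0
      apply hl
      ext w
      obtain ⟨v', rfl⟩ := pair_heis_surj hπ hv0 w
      rw [hv v']
      rfl
    have hrad1 : rad f 1 = ⊤ := by
      rw [eq_top_iff]
      intro v _ v'
      rfl
    ext d
    constructor
    · rintro ⟨l, hl⟩
      by_cases h1 : l = 1
      · left
        rw [h1, hrad1, AddSubgroup.index_top] at hl
        exact Nat.pow_left_injective (n := 2) (by norm_num) (hl.trans (one_pow 2).symm)
      · right
        rw [hrad l h1, AddSubgroup.index_bot, hV, mul_comm, pow_mul] at hl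
        exact Nat.pow_left_injective (n := 2) (by norm_num) hl
    · rintro (rfl | rfl)
      · exact ⟨1, by rw [hrad1, AddSubgroup.index_top, one_pow]⟩
      · obtain ⟨w, hw⟩ := hbW
        obtain ⟨l, hl⟩ := AddChar.exists_apply_ne_zero.2 hw
        refine ⟨l, ?_⟩
        rw [hrad l, AddSubgroup.index_bot, hV, mul_comm, pow_mul]
        rintro rfl
        exact hl rfl
  · rw [csSet_eq]
    have hran : ∀ v : K × K, v ≠ 0 → Nat.card (pair f v).range = p ^ b := by
      intro v hv
      have : (pair f v).range = ⊤ := by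
        rw [eq_top_iff]
        intro w _
        exact pair_heis_surj hπ hv w
      rw [this, AddSubgroup.card_top, hW]
    have hran0 : Nat.card (pair f 0).range = 1 := by
      have : (pair f 0).range = ⊥ := by
        rw [map_zero, AddMonoidHom.range_zero]
      rw [this]
      exact AddSubgroup.card_bot
    ext c
    constructor
    · rintro ⟨v, rfl⟩
      by_cases hv : v = 0
      · left; rw [hv, hran0]
      · right; exact hran v hv
    · rintro (rfl | rfl)
      · exact ⟨0, hran0⟩
      · obtain ⟨v, hv⟩ := hne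
        exact ⟨v, hran v hv⟩


/-- A biadditive map whose commutator pairing is the cross product. -/
def cross {K : Type} [Field K] : (Fin 3 → K) →+ (Fin 3 → K) →+ (Fin 3 → K) :=
  AddMonoidHom.mk' (fun v => AddMonoidHom.mk' (fun v' => ![v 1 * v' 2, v 2 * v' 0, v 0 * v' 1]) (by
    intro a b
    ext i
    fin_cases i <;> simp [mul_add])) (by
    intro a b
    apply AddMonoidHom.ext
    intro c
    funext i
    fin_cases i <;> simp [add_mul])

lemma pair_cross {K : Type} [Field K] (v v' : Fin 3 → K) :
    pair (cross (K := K)) v v' = crossProduct v v' := by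
  rw [pair_apply, cross_apply]
  show ![v 1 * v' 2, v 2 * v' 0, v 0 * v' 1] - ![v' 1 * v 2, v' 2 * v 0, v' 0 * v 1] = _
  ext i
  fin_cases i <;> simp [mul_comm]

lemma card_smul_span {K : Type} [Field K] {v : Fin 3 → K} (hv : v ≠ 0) :
    Nat.card {w : Fin 3 → K | crossProduct v w = 0} = Nat.card K := by
  symm
  apply Nat.card_congr
  refine Equiv.ofBijective (fun k : K => (⟨k • v, ?_⟩ : {w : Fin 3 → K | crossProduct v w = 0}))
    ⟨?_, ?_⟩
  · show crossProduct v (k • v) = 0
    rw [map_smul, cross_self, smul_zero]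
  · intro k k' h
    have := congrArg Subtype.val h
    exact smul_left_injective K hv this
  · rintro ⟨w, hw⟩
    have hw' : ¬ LinearIndependent K ![v, w] := fun h =>
      crossProduct_ne_zero_iff_linearIndependent.2 h hw
    rw [LinearIndependent.pair_iff' hv] at hw'
    push Not at hw'
    obtain ⟨k, hk⟩ := hw'
    exact ⟨k, Subtype.ext hk⟩

theorem realizable_cross {p : ℕ} [hp : Fact p.Prime] {a : ℕ} (ha : 1 ≤ a) :
    Realizable p {1, p ^ a} {1, p ^ (2 * a)} := by
  classical
  let K := GaloisField p a
  have ha0 : a ≠ 0 := by omega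
  have hK : Nat.card K = p ^ a := GaloisField.card p a ha0
  have hKfin : Finite K := inferInstance
  have : Fintype K := Fintype.ofFinite K
  let V := Fin 3 → K
  have hV : Nat.card V = p ^ (3 * a) := by
    show Nat.card (Fin 3 → K) = _
    rw [Nat.card_fun, Nat.card_fin, hK, ← pow_mul, mul_comm]
  have hVfin : Finite V := inferInstanceAs (Finite (Fin 3 → K))
  have : Fintype V := Fintype.ofFinite V
  let f : V →+ V →+ V := cross (K := K)
  have hV0 : ∃ v : V, v ≠ 0 := ⟨fun _ => 1, fun h => one_ne_zero (congrFun h 0)⟩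
  have hsplit : p ^ (3 * a) = p ^ a * p ^ (2 * a) := by
    rw [← pow_add]; congr 1; ring
  -- the nontrivial additive character of `K`
  obtain ⟨ψ, hψ⟩ := AddChar.exists_apply_ne_zero.2 (one_ne_zero (α := K))
  let chi : V → AddChar V ℂ := fun c =>
    { toFun := fun w => ψ (c ⬝ᵥ w)
      map_zero_eq_one' := by simp
      map_add_eq_mul' := by intro u w; rw [dotProduct_add, AddChar.map_add_eq_mul] }
  have hchi : ∀ c w, chi c w = ψ (c ⬝ᵥ w) := fun c w => rfl
  have hψ' : ∀ k : K, (∀ x : K, ψ (k * x) = 1) → k = 0 := by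
    intro k hk
    by_contra h0
    apply hψ
    have := hk k⁻¹
    rwa [mul_inv_cancel₀ h0] at this
  have hdot : ∀ c : V, (∀ w : V, ψ (c ⬝ᵥ w) = 1) → c = 0 := by
    intro c hc
    funext i
    apply hψ'
    intro x
    have := hc (Pi.single i x)
    rwa [dotProduct_single] at this
  have hchi_inj : Function.Injective chi := by
    intro c c' h
    have h1 : c - c' = 0 := by
      apply hdot
      intro w
      rw [sub_dotProduct, AddChar.map_sub_eq_div, ← hchi, ← hchi, h]
      exact div_self (AddChar.val_isUnit _ _).ne_zero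
    exact sub_eq_zero.1 h1
  have hchi_bij : Function.Bijective chi := by
    rw [Fintype.bijective_iff_injective_and_card]
    exact ⟨hchi_inj, AddChar.card_eq.symm⟩
  have hmem : ∀ c v : V, v ∈ rad f (chi c) ↔ crossProduct c v = 0 := by
    intro c v
    rw [mem_rad]
    have h1 : ∀ v', chi c (pair f v v') = ψ (crossProduct c v ⬝ᵥ v') := by
      intro v'
      rw [hchi, pair_cross, triple_product_permutation c v v', triple_product_permutation v v' c,
        dotProduct_comm]
    constructor
    · intro h
      apply hdot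
      intro w
      rw [← h1, h]
    · intro h v'
      rw [h1, h, zero_dotProduct, AddChar.map_zero_eq_one]
  have hindex : ∀ c : V, c ≠ 0 → (rad f (chi c)).index = p ^ (2 * a) := by
    intro c hc
    have h1 : Nat.card (rad f (chi c)) = p ^ a := by
      rw [← hK, ← card_smul_span hc]
      apply Nat.card_congr
      exact Equiv.subtypeEquivRight (fun v => hmem c v)
    have h2 := (rad f (chi c)).card_mul_index
    rw [h1, hV, hsplit] at h2
    exact Nat.eq_of_mul_eq_mul_left (pow_pos hp.out.pos a) h2
  have hindex0 : (rad f (chi 0)).index = 1 := by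
    rw [AddSubgroup.index_eq_one, eq_top_iff]
    intro v _
    rw [hmem, map_zero, LinearMap.zero_apply]
  refine ⟨Tw f, inferInstance, inferInstance, isPGroup_tw f hV hV, ?_, ?_⟩
  · rw [cdSet_eq]
    ext d
    constructor
    · rintro ⟨l, hl⟩
      obtain ⟨c, rfl⟩ := hchi_bij.2 l
      by_cases hc : c = 0
      · left
        rw [hc, hindex0] at hl
        exact Nat.pow_left_injective (n := 2) (by norm_num) (hl.trans (one_pow 2).symm)
      · right
        rw [hindex c hc, mul_comm, pow_mul] at hl
        exact Nat.pow_left_injective (n := 2) (by norm_num) hl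
    · rintro (rfl | rfl)
      · exact ⟨chi 0, by rw [hindex0, one_pow]⟩
      · obtain ⟨v, hv⟩ := hV0
        exact ⟨chi v, by rw [hindex v hv, mul_comm, pow_mul]⟩
  · rw [csSet_eq]
    have hran : ∀ v : V, v ≠ 0 → Nat.card (pair f v).range = p ^ (2 * a) := by
      intro v hv
      have h1 : Nat.card (pair f v).ker = p ^ a := by
        rw [← hK, ← card_smul_span hv]
        apply Nat.card_congr
        refine Equiv.subtypeEquivRight (fun w => ?_)
        rw [AddMonoidHom.mem_ker, pair_cross]
        rfl
      have h2 := (pair f v).ker.card_mul_index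
      rw [h1, hV, hsplit, AddSubgroup.index_ker] at h2
      exact Nat.eq_of_mul_eq_mul_left (pow_pos hp.out.pos a) h2
    have hran0 : Nat.card (pair f 0).range = 1 := by
      have : (pair f 0).range = ⊥ := by
        rw [map_zero, AddMonoidHom.range_zero]
      rw [this]
      exact AddSubgroup.card_bot
    ext c
    constructor
    · rintro ⟨v, rfl⟩
      by_cases hv : v = 0
      · left; rw [hv, hran0]
      · right; exact hran v hv
    · rintro (rfl | rfl)
      · exact ⟨0, hran0⟩
      · obtain ⟨v, hv⟩ := hV0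
        exact ⟨v, hran v hv⟩

end Pool.Agent.Lib.MP_e0d3d5_al
end
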