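import Mathlib
import Pool.Agent.Lib.MP_e0d3d5_al.Camina

/-!
If a finite `p`-group has character degrees `{1, p ^ a}` and class sizes `{1, p ^ b}` then
`b ≤ a` or `b = 2 a`.
-/

set_option autoImplicit false

namespace Pool.Agent.Lib.MP_e0d3d5_al

open Subgroup

/-- The arithmetic step. -/
lemma arith_step {p a b n u z K : ℕ} (hp : 1 < p) (hb : 1 ≤ b) (ha : 1 ≤ a) (hun : u < n) (hzn : z < n)
    (hK1 : p ^ u ≤ K) (hK2 : p ^ z ≤ K)
    (h1 : p ^ n = p ^ u + (K - p ^ u) * (p ^ a) ^ 2)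
    (h2 : p ^ n = p ^ z + (K - p ^ z) * p ^ b) :
    b = 2 * a ∨ (n = z + 2 * a ∧ n = u + b) := by
  obtain ⟨k₁, rfl⟩ := Nat.exists_eq_add_of_le hK1
  have hk2 : ∃ k₂, p ^ u + k₁ = p ^ z + k₂ := Nat.exists_eq_add_of_le hK2
  obtain ⟨k₂, hk₂⟩ := hk2
  rw [Nat.add_sub_cancel_left] at h1
  rw [hk₂, Nat.add_sub_cancel_left] at h2
  have hE : p ^ (n + b) + p ^ (u + b + 2 * a) + p ^ (z + 2 * a) =
      p ^ (n + 2 * a) + p ^ (z + 2 * a + b) + p ^ (u + b) := by
    have e1 : p ^ (n + b) = (p ^ u + k₁ * (p ^ a) ^ 2) * p ^ b := by rw [← h1, pow_add]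
    have e2 : p ^ (n + 2 * a) = (p ^ z + k₂ * p ^ b) * p ^ (2 * a) := by rw [← h2, pow_add]
    have e3 : (p ^ a) ^ 2 = p ^ (2 * a) := by rw [← pow_mul, mul_comm]
    have e4 : (p : ℤ) ^ u + k₁ = p ^ z + k₂ := by exact_mod_cast hk₂
    rw [e1, e2, e3]
    have e5 : (((p ^ u + k₁ * p ^ (2 * a)) * p ^ b + p ^ (u + b + 2 * a) + p ^ (z + 2 * a) : ℕ) : ℤ) =
      (((p ^ z + k₂ * p ^ b) * p ^ (2 * a) + p ^ (z + 2 * a + b) + p ^ (u + b) : ℕ) : ℤ) := by
      push_cast
      rw [pow_add, pow_add, pow_add, pow_add, pow_add]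
      linear_combination ((p : ℤ) ^ (2 * a) * p ^ b) * e4
    exact_mod_cast e5
  have hp0 : 0 < p := by omega
  -- the divisibility step
  have key : z + 2 * a = u + b := by
    by_contra hne
    rcases Nat.lt_or_gt_of_ne hne with hlt | hlt
    · -- p ^ (z + 2a + 1) divides everything but one term
      have d1 : p ^ (z + 2 * a + 1) ∣ p ^ (n + b) := pow_dvd_pow _ (by omega)
      have d2 : p ^ (z + 2 * a + 1) ∣ p ^ (u + b + 2 * a) := pow_dvd_pow _ (by omega)
      have d3 : p ^ (z + 2 * a + 1) ∣ p ^ (n + 2 * a) := pow_dvd_pow _ (by omega)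
      have d4 : p ^ (z + 2 * a + 1) ∣ p ^ (z + 2 * a + b) := pow_dvd_pow _ (by omega)
      have d5 : p ^ (z + 2 * a + 1) ∣ p ^ (u + b) := pow_dvd_pow _ (by omega)
      have d6 : p ^ (z + 2 * a + 1) ∣ p ^ (z + 2 * a) := by
        have : p ^ (z + 2 * a + 1) ∣ p ^ (n + b) + p ^ (u + b + 2 * a) + p ^ (z + 2 * a) := by
          rw [hE]
          exact dvd_add (dvd_add d3 d4) d5
        exact (Nat.dvd_add_right (dvd_add d1 d2)).1 this
      exact absurd ((Nat.pow_dvd_pow_iff_le_right hp).1 d6) (by omega)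
    · have d1 : p ^ (u + b + 1) ∣ p ^ (n + b) := pow_dvd_pow _ (by omega)
      have d2 : p ^ (u + b + 1) ∣ p ^ (u + b + 2 * a) := pow_dvd_pow _ (by omega)
      have d3 : p ^ (u + b + 1) ∣ p ^ (n + 2 * a) := pow_dvd_pow _ (by omega)
      have d4 : p ^ (u + b + 1) ∣ p ^ (z + 2 * a + b) := pow_dvd_pow _ (by omega)
      have d5 : p ^ (u + b + 1) ∣ p ^ (z + 2 * a) := pow_dvd_pow _ (by omega)
      have d6 : p ^ (u + b + 1) ∣ p ^ (u + b) := by
        have : p ^ (u + b + 1) ∣ p ^ (n + 2 * a) + p ^ (z + 2 * a + b) + p ^ (u + b) := by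
          rw [← hE]
          exact dvd_add (dvd_add d1 d2) d5
        exact (Nat.dvd_add_right (dvd_add d3 d4)).1 this
      exact absurd ((Nat.pow_dvd_pow_iff_le_right hp).1 d6) (by omega)
  by_cases hb2 : b = 2 * a
  · left; exact hb2
  · right
    have h3 : ((p : ℤ) ^ n - p ^ (u + b)) * (p ^ b - p ^ (2 * a)) = 0 := by
      have hE' : ((p ^ (n + b) + p ^ (u + b + 2 * a) + p ^ (z + 2 * a) : ℕ) : ℤ) =
        ((p ^ (n + 2 * a) + p ^ (z + 2 * a + b) + p ^ (u + b) : ℕ) : ℤ) := by exact_mod_cast hE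
      rw [key] at hE'
      push_cast at hE'
      rw [pow_add _ n b, pow_add _ (u + b) (2 * a), pow_add _ n (2 * a), pow_add _ (u + b) b] at hE'
      linear_combination hE'
    have h4 : (p : ℤ) ^ b - p ^ (2 * a) ≠ 0 := by
      intro h
      have h5 : (p : ℤ) ^ b = p ^ (2 * a) := sub_eq_zero.1 h
      have h6 : p ^ b = p ^ (2 * a) := by exact_mod_cast h5
      exact hb2 (Nat.pow_right_injective hp h6)
    have h7 : (p : ℤ) ^ n = p ^ (u + b) := sub_eq_zero.1 ((mul_eq_zero.1 h3).resolve_right h4)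
    have h8 : p ^ n = p ^ (u + b) := by exact_mod_cast h7
    have h9 := Nat.pow_right_injective hp h8
    exact ⟨by omega, h9⟩

/-- The forward direction. -/
theorem forward {p : ℕ} [hp : Fact p.Prime] {G : Type} [Group G] [Finite G] (hG : IsPGroup p G)
    {a b : ℕ} (ha : 1 ≤ a) (hb : 1 ≤ b) (hcd : cdSet G = {1, p ^ a}) (hcs : csSet G = {1, p ^ b}) :
    b ≤ a ∨ b = 2 * a := by
  obtain ⟨n, hn⟩ := IsPGroup.iff_card.1 hG
  obtain ⟨z, hz⟩ := IsPGroup.iff_card.1 (hG.to_subgroup (center G))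
  obtain ⟨d, hd⟩ := IsPGroup.iff_card.1 (hG.to_subgroup (commutator G))
  obtain ⟨u, hu⟩ := IsPGroup.iff_card.1 (hG.to_quotient (commutator G))
  have hp1 := hp.out.one_lt
  have hnd : n = u + d := by
    have := Subgroup.card_eq_card_quotient_mul_card_subgroup (commutator G)
    rw [hn, hu, hd, ← pow_add] at this
    exact Nat.pow_right_injective hp1 this
  have hni : (center G).index = p ^ (n - z) := by
    have h1 := (center G).card_mul_index
    rw [hn, hz] at h1
    have hzn : z ≤ n := by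
      have : p ^ z ∣ p ^ n := ⟨_, h1.symm⟩
      exact (Nat.pow_dvd_pow_iff_le_right hp1).1 this
    have h2 : p ^ z * (center G).index = p ^ z * p ^ (n - z) := by
      rw [h1, ← pow_add]; congr 1; omega
    exact Nat.eq_of_mul_eq_mul_left (pow_pos hp.out.pos z) h2
  have hctop : center G ≠ ⊤ := by
    intro htop
    have h1 : p ^ b ∈ csSet G := by rw [hcs]; right; rfl
    obtain ⟨x, hx⟩ := h1
    have h2 : centralizer {x} = ⊤ := by
      rw [eq_top_iff]
      intro y _
      rw [mem_centralizer_singleton_iff]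
      have : x ∈ center G := by rw [htop]; trivial
      exact (mem_center_iff.1 this y)
    rw [h2, index_top] at hx
    have := Nat.one_lt_pow (n := b) (by omega) hp1
    omega
  have hzn : z < n := by
    by_contra hcon
    have h1 : (center G).index = 1 := by
      rw [hni, Nat.sub_eq_zero_of_le (by omega), pow_zero]
    exact hctop (index_eq_one.1 h1)
  have hd0 : d ≠ 0 := by
    intro h0
    rw [h0, pow_zero] at hd
    have h1 : commutator G = ⊥ := Subgroup.card_eq_one.1 hd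
    exact hctop ((commutator_eq_bot_iff_center_eq_top G).1 h1)
  have hcd' := card_of_cd hcd
  have hcs' := card_of_cs hcs
  have hab : Nat.card (Abelianization G) = p ^ u := hu
  rw [hab, hn] at hcd'
  rw [hz, hn] at hcs'
  rcases arith_step hp1 hb ha (by omega) hzn hcd'.1 hcs'.1 hcd'.2 hcs'.2 with h | ⟨h1, h2⟩
  · right; exact h
  · left
    refine le_of_camina hG ha (b := b) ?_ ?_ ?_
    · rw [hni]; congr 1; omega
    · rw [hd]; congr 1; omega
    · intro x hx
      have h3 : (centralizer {x}).index ∈ csSet G := ⟨x, rfl⟩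
      rw [hcs] at h3
      rcases h3 with h3 | h3
      · exfalso
        apply hx
        have h4 := index_eq_one.1 h3
        rw [mem_center_iff]
        intro y
        have : y ∈ centralizer {x} := by rw [h4]; trivial
        rw [mem_centralizer_singleton_iff] at this
        exact this
      · exact h3

end Pool.Agent.Lib.MP_e0d3d5_al
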