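import Mathlib
import Pool.Agent.Lib.MP_e0d3d5_al.Camina

section

section

/-!
The degree of an irreducible representation all of whose commutators act as scalars.
-/

set_option autoImplicit false

namespace Pool.Agent.Lib.MP_e0d3d5_al

open Representation Subgroup
open scoped commutatorElement

section

variable {G : Type} [Group G] {U : Type} [AddCommGroup U] [Module ℂ U] [FiniteDimensional ℂ U]
  (ρ : Representation ℂ G U)

lemma nontrivial_of_irr (hρ : ρ.IsIrreducible) : Nontrivial U := by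
  by_contra hcon
  rw [not_nontrivial_iff_subsingleton] at hcon
  obtain ⟨σ, τ, hne⟩ := hρ.toNontrivial
  apply hne
  apply Subrepresentation.toSubmodule_injective
  exact Subsingleton.elim _ _

omit [FiniteDimensional ℂ U] in
lemma scalar_inj [Nontrivial U] {a b : ℂ}
    (h : a • (LinearMap.id : U →ₗ[ℂ] U) = b • LinearMap.id) : a = b := by
  obtain ⟨u, hu⟩ := exists_ne (0 : U)
  have := LinearMap.congr_fun h u
  simp only [LinearMap.smul_apply, LinearMap.id_apply] at this
  exact smul_left_injective ℂ hu this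

omit [FiniteDimensional ℂ U] in
/-- If `ρ ⁅x, g⁆` is a scalar different from one then the character vanishes at `x`. -/
lemma char_eq_zero_of_comm {x g : G} {c : ℂ} (hc : c ≠ 1)
    (h : ρ ⁅x, g⁆ = c • LinearMap.id) : ρ.character x = 0 := by
  have h1 : ⁅x, g⁆ * (g * x * g⁻¹) = x := by
    rw [commutatorElement_def]; group
  have h2 : ρ.character x = c * ρ.character (g * x * g⁻¹) := by
    conv_lhs => rw [← h1]
    show LinearMap.trace ℂ U (ρ _) = _
    rw [map_mul, h, smul_mul_assoc, map_smul, smul_eq_mul]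
    rfl
  rw [char_conj] at h2
  have h4 : (c - 1) * ρ.character x = 0 := by
    rw [sub_mul, ← h2]; ring
  exact (mul_eq_zero.1 h4).resolve_left (sub_ne_zero.2 hc)

/-- The elements whose commutators act trivially. -/
def Rad {G : Type} [Group G] {U : Type} [AddCommGroup U] [Module ℂ U]
    (ρ : Representation ℂ G U) : Subgroup G where
  carrier := {x | ∀ g, ρ x * ρ g = ρ g * ρ x}
  one_mem' := by intro g; simp
  mul_mem' := by
    intro x y hx hy g
    rw [map_mul, mul_assoc, hy g, ← mul_assoc, hx g, mul_assoc]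
  inv_mem' := by
    intro x hx g
    have h1 : ρ x⁻¹ * ρ x = 1 := by rw [← map_mul, inv_mul_cancel, map_one]
    have h2 : ρ x * ρ x⁻¹ = 1 := by rw [← map_mul, mul_inv_cancel, map_one]
    calc ρ x⁻¹ * ρ g = ρ x⁻¹ * ρ g * (ρ x * ρ x⁻¹) := by rw [h2, mul_one]
      _ = ρ x⁻¹ * (ρ g * ρ x) * ρ x⁻¹ := by simp only [mul_assoc]
      _ = ρ x⁻¹ * (ρ x * ρ g) * ρ x⁻¹ := by rw [hx g]
      _ = (ρ x⁻¹ * ρ x) * ρ g * ρ x⁻¹ := by simp only [mul_assoc]
      _ = ρ g * ρ x⁻¹ := by rw [h1, one_mul]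

omit [FiniteDimensional ℂ U] in
lemma mem_Rad {x : G} : x ∈ Rad ρ ↔ ∀ g, ρ ⁅x, g⁆ = 1 := by
  constructor
  · intro h g
    rw [commutatorElement_def, map_mul, map_mul, map_mul, h g, mul_assoc, mul_assoc]
    have : ρ x * (ρ x⁻¹ * ρ g⁻¹) = ρ g⁻¹ := by
      rw [← mul_assoc, ← map_mul, mul_inv_cancel, map_one, one_mul]
    rw [this, ← map_mul, mul_inv_cancel, map_one]
  · intro h g
    have h1 : x * g = ⁅x, g⁆ * (g * x) := by rw [commutatorElement_def]; group
    rw [← map_mul, h1, map_mul, h g, one_mul, map_mul]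

lemma exists_scalar_of_mem_Rad (hρ : ρ.IsIrreducible) {x : G} (hx : x ∈ Rad ρ) :
    ∃ c : ℂ, ρ x = c • LinearMap.id :=
  schur ρ hρ _ (fun g => hx g)

lemma char_mul_inv_of_scalar [Nontrivial U] {x : G} {c : ℂ} (hc : ρ x = c • LinearMap.id) :
    ρ.character x * ρ.character x⁻¹ = (Module.finrank ℂ U : ℂ) ^ 2 := by
  have h2 : ρ x * ρ x⁻¹ = 1 := by rw [← map_mul, mul_inv_cancel, map_one]
  have hc0 : c ≠ 0 := by
    rintro rfl
    rw [hc, zero_smul, zero_mul] at h2
    exact zero_ne_one h2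
  have h3 : ρ x⁻¹ = c⁻¹ • LinearMap.id := by
    have h4 : (c⁻¹ • LinearMap.id : U →ₗ[ℂ] U) * ρ x = 1 := by
      rw [hc]
      ext u
      simp [hc0]
    calc ρ x⁻¹ = ((c⁻¹ • LinearMap.id : U →ₗ[ℂ] U) * ρ x) * ρ x⁻¹ := by rw [h4, one_mul]
      _ = c⁻¹ • LinearMap.id := by rw [mul_assoc, h2, mul_one]
  show LinearMap.trace ℂ U (ρ x) * LinearMap.trace ℂ U (ρ x⁻¹) = _
  rw [hc, h3, map_smul, map_smul, LinearMap.trace_id, smul_eq_mul, smul_eq_mul]
  field_simp

/-- If all commutators act as scalars then the square of the degree is the index of the radical. -/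
theorem sq_finrank_eq_index [Finite G] (hρ : ρ.IsIrreducible)
    (h : ∀ x g : G, ∃ c : ℂ, ρ ⁅x, g⁆ = c • LinearMap.id) :
    (Module.finrank ℂ U) ^ 2 = (Rad ρ).index := by
  classical
  have hnt := nontrivial_of_irr ρ hρ
  have : Fintype G := Fintype.ofFinite _
  have hχ : ρ.character ∈ IrrSet G := ⟨U, _, _, inferInstance, ρ, hρ, rfl⟩
  have h1 := form_eq hχ hχ
  rw [if_pos rfl] at h1
  unfold form at h1
  have hcard : (Nat.card G : ℂ) ≠ 0 := by exact_mod_cast Nat.card_pos.ne'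
  have h2 : ∑ x, ρ.character x * ρ.character x⁻¹ = (Nat.card G : ℂ) := by
    field_simp at h1
    exact h1
  have h3 : ∑ x : G, ρ.character x * ρ.character x⁻¹ =
      ∑ x : G, if x ∈ Rad ρ then (Module.finrank ℂ U : ℂ) ^ 2 else 0 := by
    apply Finset.sum_congr rfl
    intro x _
    by_cases hx : x ∈ Rad ρ
    · obtain ⟨c, hc⟩ := exists_scalar_of_mem_Rad ρ hρ hx
      rw [if_pos hx, char_mul_inv_of_scalar ρ hc]
    · rw [if_neg hx]
      have hx' := hx
      rw [mem_Rad] at hx'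
      push Not at hx'
      obtain ⟨g, hg⟩ := hx'
      obtain ⟨c, hc⟩ := h x g
      rw [char_eq_zero_of_comm ρ (c := c) (by
        rintro rfl
        apply hg
        rw [hc, one_smul]; rfl) hc, zero_mul]
  have h4 : (Finset.univ.filter (fun x : G => x ∈ Rad ρ)).card = Nat.card (Rad ρ) := by
    rw [← Fintype.card_subtype, ← Nat.card_eq_fintype_card]
  rw [h3, ← Finset.sum_filter, Finset.sum_const, h4, nsmul_eq_mul] at h2
  have h5 : Nat.card (Rad ρ) * (Module.finrank ℂ U) ^ 2 = Nat.card G := by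
    exact_mod_cast h2
  have h6 := (Rad ρ).card_mul_index
  rw [← h6] at h5
  exact Nat.eq_of_mul_eq_mul_left Nat.card_pos h5

end

end Pool.Agent.Lib.MP_e0d3d5_al
end

section

/-!
An irreducible representation and the eigenspaces of an element whose commutators act as scalars.
-/

set_option autoImplicit false

namespace Pool.Agent.Lib.MP_e0d3d5_al

open Representation Subgroup
open scoped commutatorElement

section

variable {G : Type} [Group G] {U : Type} [AddCommGroup U] [Module ℂ U]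
  (ρ : Representation ℂ G U)

/-- The elements which commute with `ρ c`. -/
def Stab (c : G) : Subgroup G where
  carrier := {g | ρ g * ρ c = ρ c * ρ g}
  one_mem' := by simp
  mul_mem' := by
    intro x y hx hy
    have hx' : ρ x * ρ c = ρ c * ρ x := hx
    have hy' : ρ y * ρ c = ρ c * ρ y := hy
    show ρ (x * y) * ρ c = ρ c * ρ (x * y)
    rw [map_mul, mul_assoc, hy', ← mul_assoc, hx', mul_assoc]
  inv_mem' := by
    intro x hx
    have hx' : ρ x * ρ c = ρ c * ρ x := hx
    show ρ x⁻¹ * ρ c = ρ c * ρ x⁻¹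
    have h1 : ρ x⁻¹ * ρ x = 1 := by rw [← map_mul, inv_mul_cancel, map_one]
    have h2 : ρ x * ρ x⁻¹ = 1 := by rw [← map_mul, mul_inv_cancel, map_one]
    calc ρ x⁻¹ * ρ c = ρ x⁻¹ * ρ c * (ρ x * ρ x⁻¹) := by rw [h2, mul_one]
      _ = ρ x⁻¹ * (ρ c * ρ x) * ρ x⁻¹ := by simp only [mul_assoc]
      _ = ρ x⁻¹ * (ρ x * ρ c) * ρ x⁻¹ := by rw [hx']
      _ = (ρ x⁻¹ * ρ x) * ρ c * ρ x⁻¹ := by simp only [mul_assoc]
      _ = ρ c * ρ x⁻¹ := by rw [h1, one_mul]

lemma mem_Stab {c g : G} : g ∈ Stab ρ c ↔ ρ g * ρ c = ρ c * ρ g := Iff.rfl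

lemma mem_Stab' {c g : G} : g ∈ Stab ρ c ↔ ρ ⁅g, c⁆ = 1 := by
  rw [mem_Stab]
  constructor
  · intro h
    rw [commutatorElement_def, map_mul, map_mul, map_mul, h, mul_assoc, mul_assoc]
    have : ρ g * (ρ g⁻¹ * ρ c⁻¹) = ρ c⁻¹ := by
      rw [← mul_assoc, ← map_mul, mul_inv_cancel, map_one, one_mul]
    rw [this, ← map_mul, mul_inv_cancel, map_one]
  · intro h
    have h1 : g * c = ⁅g, c⁆ * (c * g) := by rw [commutatorElement_def]; group
    rw [← map_mul, h1, map_mul, h, one_mul, map_mul]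

/-- The restriction of a representation to a subgroup and a subspace stable under it. -/
def restr (T : Subgroup G) (W : Submodule ℂ U) (h : ∀ t ∈ T, ∀ w ∈ W, ρ t w ∈ W) :
    Representation ℂ T W where
  toFun t := (ρ t).restrict (h t t.2)
  map_one' := by ext; simp
  map_mul' x y := by ext; simp

lemma restr_apply (T : Subgroup G) (W : Submodule ℂ U) (h : ∀ t ∈ T, ∀ w ∈ W, ρ t w ∈ W)
    (t : T) (w : W) : (restr ρ T W h t w : U) = ρ t w := rfl

lemma rho_mul_apply (g h : G) (u : U) : ρ (g * h) u = ρ g (ρ h u) := by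
  rw [map_mul]; rfl

/-- The map which assembles `U` from translates of a subspace. -/
noncomputable def assemble (T : Subgroup G) [Finite (G ⧸ T)] (W : Submodule ℂ U) :
    ((G ⧸ T) → W) →ₗ[ℂ] U :=
  haveI := Fintype.ofFinite (G ⧸ T)
  ∑ q : G ⧸ T, (ρ (Quotient.out q)) ∘ₗ W.subtype ∘ₗ LinearMap.proj q

lemma assemble_apply (T : Subgroup G) [Fintype (G ⧸ T)] (W : Submodule ℂ U) (w : (G ⧸ T) → W) :
    assemble ρ T W w = ∑ q : G ⧸ T, ρ (Quotient.out q) (w q) := by
  unfold assemble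
  rw [LinearMap.sum_apply]
  apply Finset.sum_congr
  · ext; simp
  · intros; rfl

lemma mem_range_assemble (T : Subgroup G) [Finite (G ⧸ T)] (W : Submodule ℂ U)
    (h : ∀ t ∈ T, ∀ w ∈ W, ρ t w ∈ W) (g : G) {w : U} (hw : w ∈ W) :
    ρ g w ∈ LinearMap.range (assemble ρ T W) := by
  classical
  have := Fintype.ofFinite (G ⧸ T)
  let q : G ⧸ T := (g : G ⧸ T)
  have ht : (Quotient.out q)⁻¹ * g ∈ T := by
    rw [← QuotientGroup.eq]
    exact QuotientGroup.out_eq' q
  refine ⟨Pi.single q ⟨ρ ((Quotient.out q)⁻¹ * g) w, h _ ht w hw⟩, ?_⟩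
  rw [assemble_apply, Finset.sum_eq_single q]
  · rw [Pi.single_eq_same]
    show ρ (Quotient.out q) (ρ ((Quotient.out q)⁻¹ * g) w) = ρ g w
    rw [← rho_mul_apply, mul_inv_cancel_left]
  · intro b _ hb
    rw [Pi.single_eq_of_ne hb]
    simp
  · intro hq
    exact absurd (Finset.mem_univ _) hq

lemma assemble_surjective (hρ : ρ.IsIrreducible) (T : Subgroup G) [Finite (G ⧸ T)]
    (W : Submodule ℂ U) (h : ∀ t ∈ T, ∀ w ∈ W, ρ t w ∈ W) (hW : W ≠ ⊥) :
    Function.Surjective (assemble ρ T W) := by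
  classical
  have := Fintype.ofFinite (G ⧸ T)
  let σ : Subrepresentation ρ :=
    { toSubmodule := LinearMap.range (assemble ρ T W)
      apply_mem_toSubmodule := by
        rintro g _ ⟨w, rfl⟩
        rw [assemble_apply, map_sum]
        apply Submodule.sum_mem
        intro q _
        rw [← rho_mul_apply]
        exact mem_range_assemble ρ T W h _ (w q).2 }
  have hσ : σ = ⊤ := by
    rcases hρ.eq_bot_or_eq_top σ with h1 | h1
    · exfalso
      apply hW
      rw [eq_bot_iff]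
      intro w hw
      have h2 : ρ 1 w ∈ σ.toSubmodule := mem_range_assemble ρ T W h 1 hw
      rw [h1, map_one] at h2
      exact h2
    · exact h1
  rw [← LinearMap.range_eq_top]
  exact congrArg Subrepresentation.toSubmodule hσ

lemma finrank_assemble (T : Subgroup G) [Finite (G ⧸ T)] (W : Submodule ℂ U)
    [FiniteDimensional ℂ U] :
    Module.finrank ℂ ((G ⧸ T) → W) = T.index * Module.finrank ℂ W := by
  have := Fintype.ofFinite (G ⧸ T)
  rw [Module.finrank_pi_fintype, Finset.sum_const, Finset.card_univ, smul_eq_mul,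
    Subgroup.index, Nat.card_eq_fintype_card]

/-- The degree of an irreducible representation is at most the index of a subgroup times the
dimension of any nonzero subspace stable under it. -/
lemma finrank_le_index_mul [FiniteDimensional ℂ U] (hρ : ρ.IsIrreducible) (T : Subgroup G)
    [Finite (G ⧸ T)] (W : Submodule ℂ U) (h : ∀ t ∈ T, ∀ w ∈ W, ρ t w ∈ W) (hW : W ≠ ⊥) :
    Module.finrank ℂ U ≤ T.index * Module.finrank ℂ W := by
  rw [← finrank_assemble T W]
  exact LinearMap.finrank_le_finrank_of_surjective (assemble_surjective ρ hρ T W h hW)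

lemma assemble_injective (c : G) (s : G → ℂ) (hs : ∀ g : G, ρ ⁅g, c⁆ = s g • LinearMap.id)
    [Finite (G ⧸ Stab ρ c)] {μ : ℂ} (W : Submodule ℂ U)
    (hW : W ≤ Module.End.eigenspace (ρ c) μ) :
    Function.Injective (assemble ρ (Stab ρ c) W) := by
  classical
  have := Fintype.ofFinite (G ⧸ Stab ρ c)
  by_cases hW0 : W = ⊥
  · intro a b _
    funext q
    have : Subsingleton W := by rw [hW0]; infer_instance
    exact Subsingleton.elim _ _
  obtain ⟨u, huW, hu0⟩ := Submodule.exists_mem_ne_zero_of_ne_bot hW0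
  have hμ : μ ≠ 0 := by
    rintro rfl
    have h1 := Module.End.mem_eigenspace_iff.1 (hW huW)
    rw [zero_smul] at h1
    apply hu0
    have h2 : ρ c⁻¹ (ρ c u) = u := by
      rw [← rho_mul_apply, inv_mul_cancel, map_one]; rfl
    rw [← h2, h1, map_zero]
  have hcomm : ∀ g (w : U), ρ g (ρ c w) = s g • ρ c (ρ g w) := by
    intro g w
    have h1 : g * c = ⁅g, c⁆ * (c * g) := by rw [commutatorElement_def]; group
    rw [← rho_mul_apply, h1, rho_mul_apply, hs, rho_mul_apply]
    rfl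
  have hs0 : ∀ g, s g ≠ 0 := by
    intro g h0
    have h1 := hcomm g u
    rw [h0, zero_smul, Module.End.mem_eigenspace_iff.1 (hW huW), map_smul] at h1
    have h2 : ρ g u = 0 := (smul_eq_zero.1 h1).resolve_left hμ
    apply hu0
    have h3 : ρ g⁻¹ (ρ g u) = u := by
      rw [← rho_mul_apply, inv_mul_cancel, map_one]; rfl
    rw [← h3, h2, map_zero]
  let ν : G ⧸ Stab ρ c → ℂ := fun q => (s (Quotient.out q))⁻¹ * μ
  have hν : Function.Injective ν := by
    intro q q' h
    have h1 : s (Quotient.out q) = s (Quotient.out q') :=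
      inv_injective (mul_right_cancel₀ hμ h)
    have h2 : (Quotient.out q)⁻¹ * Quotient.out q' ∈ Stab ρ c := by
      rw [mem_Stab]
      have e1 : ∀ g, ρ g * ρ c = s g • (ρ c * ρ g) := fun g => LinearMap.ext (fun w => hcomm g w)
      set a := Quotient.out q
      set b := Quotient.out q'
      have e2 : ρ a * (ρ (a⁻¹ * b) * ρ c) = ρ a * (ρ c * ρ (a⁻¹ * b)) := by
        calc ρ a * (ρ (a⁻¹ * b) * ρ c) = ρ b * ρ c := by
              rw [← mul_assoc, ← map_mul, mul_inv_cancel_left]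
          _ = s b • (ρ c * ρ b) := e1 b
          _ = s a • (ρ c * ρ b) := by rw [h1]
          _ = s a • (ρ c * (ρ a * ρ (a⁻¹ * b))) := by rw [← map_mul ρ a, mul_inv_cancel_left]
          _ = (s a • (ρ c * ρ a)) * ρ (a⁻¹ * b) := by rw [smul_mul_assoc, mul_assoc]
          _ = ρ a * (ρ c * ρ (a⁻¹ * b)) := by rw [← e1, mul_assoc]
      have e3 : ρ a⁻¹ * ρ a = 1 := by rw [← map_mul, inv_mul_cancel, map_one]
      calc ρ (a⁻¹ * b) * ρ c = ρ a⁻¹ * ρ a * (ρ (a⁻¹ * b) * ρ c) := by rw [e3, one_mul]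
        _ = ρ a⁻¹ * (ρ a * (ρ c * ρ (a⁻¹ * b))) := by rw [mul_assoc, e2]
        _ = ρ c * ρ (a⁻¹ * b) := by rw [← mul_assoc, e3, one_mul]
    rw [← QuotientGroup.eq] at h2
    rw [← QuotientGroup.out_eq' q, ← QuotientGroup.out_eq' q']
    exact h2
  have hind : iSupIndep (fun q => Module.End.eigenspace (ρ c) (ν q)) :=
    (Module.End.eigenspaces_iSupIndep (ρ c)).comp hν
  rw [iSupIndep_iff_finsetSum_eq_zero_imp_eq_zero] at hind
  have hmem : ∀ q, ∀ w ∈ W, ρ (Quotient.out q) w ∈ Module.End.eigenspace (ρ c) (ν q) := by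
    intro q w hw
    rw [Module.End.mem_eigenspace_iff]
    have h1 := hcomm (Quotient.out q) w
    rw [Module.End.mem_eigenspace_iff.1 (hW hw), map_smul] at h1
    show ρ c (ρ (Quotient.out q) w) = ((s (Quotient.out q))⁻¹ * μ) • ρ (Quotient.out q) w
    rw [mul_smul, h1, smul_smul, inv_mul_cancel₀ (hs0 _), one_smul]
  rw [← LinearMap.ker_eq_bot, LinearMap.ker_eq_bot']
  intro w hw
  rw [assemble_apply] at hw
  funext q
  have h1 := hind Finset.univ (fun q => ρ (Quotient.out q) (w q)) (fun q _ => hmem q _ (w q).2)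
    hw q (Finset.mem_univ _)
  apply Subtype.ext
  have h2 : ρ (Quotient.out q)⁻¹ (ρ (Quotient.out q) (w q)) = w q := by
    rw [← rho_mul_apply, inv_mul_cancel, map_one]; rfl
  rw [← h2]
  show ρ (Quotient.out q)⁻¹ (ρ (Quotient.out q) (w q)) = 0
  rw [show ρ (Quotient.out q) (w q) = 0 from h1, map_zero]

lemma stab_stable (c : G) (μ : ℂ) : ∀ t ∈ Stab ρ c, ∀ w ∈ Module.End.eigenspace (ρ c) μ,
    ρ t w ∈ Module.End.eigenspace (ρ c) μ := by
  intro t ht w hw
  rw [Module.End.mem_eigenspace_iff] at hw ⊢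
  have h1 := LinearMap.congr_fun ht w
  have h2 : ρ t (ρ c w) = ρ c (ρ t w) := h1
  rw [← h2, hw, map_smul]

/-- The degree of an irreducible representation in terms of the dimension of an eigenspace. -/
theorem clif_finrank [FiniteDimensional ℂ U] (hρ : ρ.IsIrreducible) (c : G) (s : G → ℂ)
    (hs : ∀ g : G, ρ ⁅g, c⁆ = s g • LinearMap.id)
    [Finite (G ⧸ Stab ρ c)] {μ : ℂ} (W : Submodule ℂ U)
    (hW : W ≤ Module.End.eigenspace (ρ c) μ) (h : ∀ t ∈ Stab ρ c, ∀ w ∈ W, ρ t w ∈ W)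
    (hW0 : W ≠ ⊥) :
    Module.finrank ℂ U = (Stab ρ c).index * Module.finrank ℂ W := by
  rw [← finrank_assemble (Stab ρ c) W]
  exact (LinearEquiv.finrank_eq (LinearEquiv.ofBijective (assemble ρ (Stab ρ c) W)
    ⟨assemble_injective ρ c s hs W hW, assemble_surjective ρ hρ _ W h hW0⟩)).symm

/-- The eigenspaces are irreducible for the stabiliser. -/
theorem clif_irr [FiniteDimensional ℂ U] (hρ : ρ.IsIrreducible) (c : G) (s : G → ℂ)
    (hs : ∀ g : G, ρ ⁅g, c⁆ = s g • LinearMap.id)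
    [Finite (G ⧸ Stab ρ c)] {μ : ℂ} (hμ : Module.End.eigenspace (ρ c) μ ≠ ⊥) :
    (restr ρ (Stab ρ c) (Module.End.eigenspace (ρ c) μ) (stab_stable ρ c μ)).IsIrreducible := by
  set W := Module.End.eigenspace (ρ c) μ with hWdef
  have hd1 := clif_finrank ρ hρ c s hs W le_rfl (stab_stable ρ c μ) hμ
  have hnt : Nontrivial (Subrepresentation (restr ρ (Stab ρ c) W (stab_stable ρ c μ))) := by
    refine ⟨⊥, ⊤, fun h => hμ ?_⟩
    rw [eq_bot_iff]
    intro w hw
    have h1 : (⟨w, hw⟩ : W) ∈ (⊤ : Subrepresentation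
      (restr ρ (Stab ρ c) W (stab_stable ρ c μ))).toSubmodule := trivial
    rw [← h] at h1
    exact congrArg Subtype.val (show (⟨w, hw⟩ : W) = 0 from h1)
  refine { toNontrivial := hnt, eq_bot_or_eq_top := fun σ => ?_ }
  by_cases h0 : σ.toSubmodule = ⊥
  · left
    exact Subrepresentation.toSubmodule_injective h0
  · right
    apply Subrepresentation.toSubmodule_injective
    show σ.toSubmodule = ⊤
    let W' : Submodule ℂ U := σ.toSubmodule.map W.subtype
    have hW'W : W' ≤ W := by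
      rintro _ ⟨w, _, rfl⟩
      exact w.2
    have hW'0 : W' ≠ ⊥ := by
      intro h
      apply h0
      rw [eq_bot_iff]
      intro w hw
      have h1 : (w : U) ∈ W' := ⟨w, hw, rfl⟩
      rw [h] at h1
      exact Subtype.ext h1
    have hst : ∀ t ∈ Stab ρ c, ∀ w ∈ W', ρ t w ∈ W' := by
      rintro t ht _ ⟨w, hw, rfl⟩
      exact ⟨restr ρ (Stab ρ c) W (stab_stable ρ c μ) ⟨t, ht⟩ w,
        σ.apply_mem_toSubmodule ⟨t, ht⟩ hw, rfl⟩
    have hd2 := clif_finrank ρ hρ c s hs W' hW'W hst hW'0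
    have hpos : 0 < (Stab ρ c).index := Nat.pos_of_ne_zero Subgroup.index_ne_zero_of_finite
    have hd3 : Module.finrank ℂ W' = Module.finrank ℂ W := by
      apply Nat.eq_of_mul_eq_mul_left hpos
      rw [← hd1, ← hd2]
    have hd4 : Module.finrank ℂ σ.toSubmodule = Module.finrank ℂ W := by
      rw [← hd3]
      exact (LinearEquiv.finrank_eq (Submodule.equivMapOfInjective W.subtype
        (Submodule.injective_subtype W) σ.toSubmodule))
    exact Submodule.eq_top_of_finrank_eq hd4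

end

end Pool.Agent.Lib.MP_e0d3d5_al
end
end

section

section

/-!
Commutator maps with central values, and groups with small classes.
-/

set_option autoImplicit false

namespace Pool.Agent.Lib.MP_e0d3d5_al

open Subgroup
open scoped commutatorElement

section

variable {G : Type} [Group G]

/-- The map `g ↦ ⁅x, g⁆` on a subgroup on which it takes central values. -/
def cHom (x : G) (D : Subgroup G) (h : ∀ g ∈ D, ⁅x, g⁆ ∈ center G) : D →* center G where
  toFun g := ⟨⁅x, (g : G)⁆, h g g.2⟩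
  map_one' := by
    apply Subtype.ext
    simp
  map_mul' a b := by
    apply Subtype.ext
    show ⁅x, (a : G) * b⁆ = ⁅x, (a : G)⁆ * ⁅x, (b : G)⁆
    have h2 : ⁅x, (a : G) * b⁆ = ⁅x, (a : G)⁆ * (a * ⁅x, (b : G)⁆ * (a : G)⁻¹) := by
      simp only [commutatorElement_def]; group
    rw [h2, mem_center_iff.1 (h b b.2) a, mul_assoc ⁅x, (b : G)⁆ a (a : G)⁻¹, mul_inv_cancel,
      mul_one]

lemma cHom_apply (x : G) (D : Subgroup G) (h : ∀ g ∈ D, ⁅x, g⁆ ∈ center G) (g : D) :
    (cHom x D h g : G) = ⁅x, (g : G)⁆ := rfl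

lemma mem_cent {x g : G} : g ∈ centralizer {x} ↔ ⁅x, g⁆ = 1 := by
  rw [mem_centralizer_singleton_iff, commutatorElement_eq_one_iff_mul_comm]
  exact eq_comm

lemma mem_cent' {x g : G} : g ∈ centralizer {x} ↔ ⁅g, x⁆ = 1 := by
  rw [mem_centralizer_singleton_iff, commutatorElement_eq_one_iff_mul_comm]

lemma ker_cHom (x : G) (D : Subgroup G) (h : ∀ g ∈ D, ⁅x, g⁆ ∈ center G) :
    (cHom x D h).ker = (centralizer {x}).subgroupOf D := by
  ext g
  rw [MonoidHom.mem_ker, mem_subgroupOf, mem_cent, Subtype.ext_iff]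
  rfl

lemma card_range_cHom (x : G) (D : Subgroup G) (h : ∀ g ∈ D, ⁅x, g⁆ ∈ center G) :
    Nat.card (cHom x D h).range = (centralizer {x}).relIndex D := by
  rw [← Subgroup.index_ker, ker_cHom]
  rfl

/-- `⁅x, ·⁆` kills commutators of elements of a subgroup on which it has central values. -/
lemma comm_comm_eq_one (x : G) (D : Subgroup G) (h : ∀ g ∈ D, ⁅x, g⁆ ∈ center G) {a b : G}
    (ha : a ∈ D) (hb : b ∈ D) : ⁅x, ⁅a, b⁆⁆ = 1 := by
  have h1 : cHom x D h ⁅(⟨a, ha⟩ : D), (⟨b, hb⟩ : D)⁆ = 1 := by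
    rw [map_commutatorElement, commutatorElement_eq_one_iff_mul_comm]
    exact Subtype.ext (mem_center_iff.1 (cHom x D h (⟨b, hb⟩ : D)).2 _)
  exact congrArg Subtype.val h1

lemma comm_mul_right' {x : G} {D : Subgroup G} (h : ∀ g ∈ D, ⁅x, g⁆ ∈ center G) {a b : G}
    (ha : a ∈ D) (hb : b ∈ D) : ⁅x, a * b⁆ = ⁅x, a⁆ * ⁅x, b⁆ :=
  congrArg Subtype.val (map_mul (cHom x D h) (⟨a, ha⟩ : D) (⟨b, hb⟩ : D))

lemma comm_zpow_right' {x : G} {D : Subgroup G} (h : ∀ g ∈ D, ⁅x, g⁆ ∈ center G) {a : G}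
    (ha : a ∈ D) (n : ℤ) : ⁅x, a ^ n⁆ = ⁅x, a⁆ ^ n :=
  congrArg Subtype.val (map_zpow (cHom x D h) (⟨a, ha⟩ : D) n)

lemma comm_inv_right' {x : G} {D : Subgroup G} (h : ∀ g ∈ D, ⁅x, g⁆ ∈ center G) {a : G}
    (ha : a ∈ D) : ⁅x, a⁻¹⁆ = ⁅x, a⁆⁻¹ :=
  congrArg Subtype.val (map_inv (cHom x D h) (⟨a, ha⟩ : D))

/-- If the relative index divides a prime, the values `⁅x, g⁆` are powers of any nontrivial one. -/
lemma mem_zpowers_of_relIndex_dvd {p : ℕ} [hp : Fact p.Prime] (x : G) (D : Subgroup G)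
    (h : ∀ g ∈ D, ⁅x, g⁆ ∈ center G) (hi : (centralizer {x}).relIndex D ∣ p) {a b : G}
    (ha : a ∈ D) (hb : b ∈ D) (hne : ⁅x, a⁆ ≠ 1) : ⁅x, b⁆ ∈ zpowers ⁅x, a⁆ := by
  rw [← card_range_cHom x D h] at hi
  have hne' : (⟨cHom x D h ⟨a, ha⟩, ⟨a, ha⟩, rfl⟩ : (cHom x D h).range) ≠ 1 := by
    intro h1
    exact hne (congrArg (fun t : (cHom x D h).range => ((t : center G) : G)) h1)
  have hc : Nat.card (cHom x D h).range = p := by
    rcases (Nat.dvd_prime hp.out).1 hi with h1 | h1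
    · exfalso
      rw [Nat.card_eq_one_iff_unique] at h1
      have := h1.1
      exact hne' (Subsingleton.elim _ _)
    · exact h1
  have h2 := mem_zpowers_of_prime_card (h := hc) (g' := (⟨cHom x D h ⟨b, hb⟩, ⟨b, hb⟩, rfl⟩ :
    (cHom x D h).range)) hne'
  obtain ⟨k, hk⟩ := mem_zpowers_iff.1 h2
  rw [mem_zpowers_iff]
  refine ⟨k, ?_⟩
  have h3 := congrArg (fun t : (cHom x D h).range => ((t : center G) : G)) hk
  simpa [cHom_apply] using h3

lemma comm_pow_eq_one_of_relIndex_dvd {p : ℕ} (x : G) (D : Subgroup G)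
    (h : ∀ g ∈ D, ⁅x, g⁆ ∈ center G) (hi : (centralizer {x}).relIndex D ∣ p) {a : G}
    (ha : a ∈ D) : ⁅x, a⁆ ^ p = 1 := by
  rw [← card_range_cHom x D h] at hi
  have h1 : (⟨cHom x D h ⟨a, ha⟩, ⟨a, ha⟩, rfl⟩ : (cHom x D h).range) ^ p = 1 := by
    obtain ⟨k, hk⟩ := hi
    rw [hk, pow_mul, pow_card_eq_one', one_pow]
  have h3 := congrArg (fun t : (cHom x D h).range => ((t : center G) : G)) h1
  simpa [cHom_apply] using h3

/-- Class sizes go down in quotients. -/
lemma index_cent_quot_dvd (N : Subgroup G) [N.Normal] (x : G) :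
    (centralizer {(x : G ⧸ N)}).index ∣ (centralizer {x}).index := by
  rw [← Subgroup.index_comap_of_surjective _ (QuotientGroup.mk'_surjective N)]
  apply Subgroup.index_dvd_of_le
  intro g hg
  rw [mem_comap, mem_cent]
  rw [mem_cent] at hg
  show ⁅(x : G ⧸ N), (g : G ⧸ N)⁆ = 1
  rw [← QuotientGroup.mk'_apply, ← QuotientGroup.mk'_apply, ← map_commutatorElement, hg, map_one]

/-- The elements commuting with `x` modulo `N`. -/
def relC (N : Subgroup G) [N.Normal] (x : G) : Subgroup G :=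
  (centralizer {(x : G ⧸ N)}).comap (QuotientGroup.mk' N)

lemma mem_relC {N : Subgroup G} [N.Normal] {x g : G} : g ∈ relC N x ↔ ⁅x, g⁆ ∈ N := by
  unfold relC
  rw [mem_comap, mem_cent, ← QuotientGroup.eq_one_iff]
  rfl

lemma index_relC (N : Subgroup G) [N.Normal] (x : G) :
    (relC N x).index = (centralizer {(x : G ⧸ N)}).index :=
  Subgroup.index_comap_of_surjective _ (QuotientGroup.mk'_surjective N)

lemma cent_le_relC (N : Subgroup G) [N.Normal] (x : G) : centralizer {x} ≤ relC N x := by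
  intro g hg
  rw [mem_relC, mem_cent.1 hg]
  exact one_mem _

/-- A subgroup which contains the complement of a proper subgroup is everything. -/
lemma eq_top_of_compl_subset {H K : Subgroup G} (hH : H ≠ ⊤) (h : ∀ x ∉ H, x ∈ K) : K = ⊤ := by
  obtain ⟨y, -, hy⟩ : ∃ y ∈ (⊤ : Subgroup G), y ∉ H := by
    by_contra hcon
    push Not at hcon
    exact hH (eq_top_iff.2 hcon)
  rw [eq_top_iff]
  intro x _
  by_cases hx : x ∈ H
  · have h1 : x * y ∉ H := fun h1 => hy ((H.mul_mem_cancel_left hx).1 h1)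
    have h2 := K.mul_mem (h _ h1) (K.inv_mem (h _ hy))
    rwa [mul_inv_cancel_right] at h2
  · exact h x hx

end

end Pool.Agent.Lib.MP_e0d3d5_al
end

section

/-!
Finite `p`-groups all of whose class sizes divide `p ^ 2`: the derived subgroup modulo the third
term of the lower central series.
-/

set_option autoImplicit false

namespace Pool.Agent.Lib.MP_e0d3d5_al

open Subgroup
open scoped commutatorElement

section

variable {G : Type} [Group G]

lemma zpowers_le_of_mem {p : ℕ} [hp : Fact p.Prime] {c u : G} (hc : c ^ p = 1)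
    (hu : u ∈ zpowers c) (hu1 : u ≠ 1) : zpowers c ≤ zpowers u := by
  have hc1 : c ≠ 1 := by
    rintro rfl
    rw [zpowers_one_eq_bot, mem_bot] at hu
    exact hu1 hu
  have hoc : orderOf c = p := orderOf_eq_prime hc hc1
  have hou : orderOf u = p := by
    apply orderOf_eq_prime _ hu1
    obtain ⟨k, rfl⟩ := mem_zpowers_iff.1 hu
    rw [← zpow_natCast, ← zpow_mul, mul_comm, zpow_mul, zpow_natCast, hc, one_zpow]
  have h1 : zpowers u ≤ zpowers c := by rwa [zpowers_le]
  have hfin : Finite (zpowers c) := by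
    apply Nat.finite_of_card_ne_zero
    rw [Nat.card_zpowers, hoc]
    exact hp.out.ne_zero
  apply le_of_eq
  symm
  apply Subgroup.eq_of_le_of_card_ge h1
  rw [Nat.card_zpowers, Nat.card_zpowers, hoc, hou]

/-- Every value of `⁅x, ·⁆` is a power of any nontrivial one, and has order dividing `p`. -/
def EP (p : ℕ) (x : G) : Prop :=
  ∀ g k : G, ⁅x, g⁆ ≠ 1 → ⁅x, k⁆ ∈ zpowers ⁅x, g⁆ ∧ ⁅x, g⁆ ^ p = 1

lemma commutator_le_of {K : Subgroup G} (h : ∀ a b : G, ⁅a, b⁆ ∈ K) : commutator G ≤ K := by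
  rw [commutator_def, Subgroup.commutator_le]
  exact fun a _ b _ => h a b

lemma inv_comm (x y : G) : ⁅x, y⁆⁻¹ = ⁅y, x⁆ := by
  simp only [commutatorElement_def]; group

lemma comm_mem_zpowers_symm {x y c : G} (h : ⁅x, y⁆ ∈ zpowers c) : ⁅y, x⁆ ∈ zpowers c := by
  rw [← inv_comm]
  exact (zpowers c).inv_mem h

lemma comm_ne_one_symm {x y : G} (h : ⁅x, y⁆ ≠ 1) : ⁅y, x⁆ ≠ 1 := by
  rw [← inv_comm]
  exact inv_ne_one.2 h

lemma zpowers_comm_symm (x y : G) : zpowers ⁅x, y⁆ = zpowers ⁅y, x⁆ := by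
  rw [← inv_comm y x, zpowers_inv]

/-- Class at most two, classes of size dividing `p` outside of a proper subgroup: the derived
subgroup is cyclic of order dividing `p`. -/
theorem lemma_AB {p : ℕ} [hp : Fact p.Prime] (h2 : commutator G ≤ center G) {C : Subgroup G}
    (hC : C ≠ ⊤) (h : ∀ x ∉ C, (centralizer {x}).index ∣ p) :
    ∃ x y : G, (∀ u v : G, ⁅u, v⁆ ∈ zpowers ⁅x, y⁆) ∧ ⁅x, y⁆ ^ p = 1 := by
  have hcc : ∀ a b : G, ⁅a, b⁆ ∈ center G := fun a b =>
    h2 (commutator_mem_commutator (mem_top _) (mem_top _))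
  have hE1 : ∀ x : G, x ∉ C → EP p x := by
    intro x hx g k hg
    have hi : (centralizer {x}).relIndex ⊤ ∣ p := by
      rw [relIndex_top_right]
      exact h x hx
    exact ⟨mem_zpowers_of_relIndex_dvd x ⊤ (fun g _ => hcc x g) hi (mem_top _) (mem_top _) hg,
      comm_pow_eq_one_of_relIndex_dvd x ⊤ (fun g _ => hcc x g) hi (mem_top _)⟩
  have hE : ∀ x : G, EP p x := by
    intro x
    by_cases hx : x ∈ C
    · by_cases hy : ∃ y ∉ C, ⁅x, y⁆ ≠ 1
      · obtain ⟨y, hy, hc⟩ := hy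
        have hyx : y * x ∉ C := fun h1 => hy ((C.mul_mem_cancel_right hx).1 h1)
        have e1 : ⁅y * x, y⁆ = ⁅x, y⁆ := by
          rw [comm_mul_left h2, commutatorElement_self, one_mul]
        have hcp : ⁅x, y⁆ ^ p = 1 := by
          have := (hE1 _ hyx y y (by rw [e1]; exact hc)).2
          rwa [e1] at this
        have hall : ∀ k, ⁅x, k⁆ ∈ zpowers ⁅x, y⁆ := by
          intro k
          have h3 : ⁅y, k⁆ ∈ zpowers ⁅x, y⁆ := by
            rw [zpowers_comm_symm]
            exact (hE1 y hy x k (comm_ne_one_symm hc)).1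
          have h4 : ⁅y * x, k⁆ ∈ zpowers ⁅x, y⁆ := by
            have := (hE1 _ hyx y k (by rw [e1]; exact hc)).1
            rwa [e1] at this
          rw [comm_mul_left h2] at h4
          exact ((zpowers ⁅x, y⁆).mul_mem_cancel_left h3).1 h4
        intro g k hg
        refine ⟨zpowers_le_of_mem hcp (hall g) hg (hall k), ?_⟩
        obtain ⟨j, hj⟩ := mem_zpowers_iff.1 (hall g)
        rw [← hj, ← zpow_natCast, ← zpow_mul, mul_comm, zpow_mul, zpow_natCast, hcp, one_zpow]
      · push Not at hy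
        have h3 : centralizer {x} = ⊤ :=
          eq_top_of_compl_subset hC (fun y hy' => mem_cent.2 (hy y hy'))
        intro g k hg
        exfalso
        apply hg
        rw [← mem_cent, h3]
        trivial
    · exact hE1 x hx
  by_cases hab : ∀ x y : G, ⁅x, y⁆ = 1
  · refine ⟨1, 1, ?_, ?_⟩
    · intro u v
      rw [hab u v]
      exact one_mem _
    · rw [hab 1 1, one_pow]
  · push Not at hab
    obtain ⟨x, y, hc⟩ := hab
    have hcp := (hE x y y hc).2
    refine ⟨x, y, ?_, hcp⟩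
    have hx : ∀ k, ⁅x, k⁆ ∈ zpowers ⁅x, y⁆ := fun k => (hE x y k hc).1
    have hy : ∀ k, ⁅y, k⁆ ∈ zpowers ⁅x, y⁆ := fun k => by
      rw [zpowers_comm_symm]
      exact (hE y x k (comm_ne_one_symm hc)).1
    intro u v
    by_contra hd
    have hd1 : ⁅u, v⁆ ≠ 1 := by
      intro h1
      rw [h1] at hd
      exact hd (one_mem _)
    have hux : ⁅u, x⁆ = 1 := by
      by_contra h1
      have h3 := (hE u x v h1).1
      have h4 : zpowers ⁅u, x⁆ ≤ zpowers ⁅x, y⁆ := by
        rw [zpowers_le]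
        exact comm_mem_zpowers_symm (hx u)
      exact hd (h4 h3)
    have huy : ⁅u, y⁆ = 1 := by
      by_contra h1
      have h3 := (hE u y v h1).1
      have h4 : zpowers ⁅u, y⁆ ≤ zpowers ⁅x, y⁆ := by
        rw [zpowers_le]
        exact comm_mem_zpowers_symm (hy u)
      exact hd (h4 h3)
    have hvx : ⁅v, x⁆ = 1 := by
      by_contra h1
      have h3 := (hE v x u h1).1
      have h4 : zpowers ⁅v, x⁆ ≤ zpowers ⁅x, y⁆ := by
        rw [zpowers_le]
        exact comm_mem_zpowers_symm (hx v)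
      exact hd (comm_mem_zpowers_symm (h4 h3))
    have hxv : ⁅x, v⁆ = 1 := by rw [← inv_comm, hvx, inv_one]
    have e1 : ⁅x * u, y⁆ = ⁅x, y⁆ := by rw [comm_mul_left h2, huy, mul_one]
    have e2 : ⁅x * u, v⁆ = ⁅u, v⁆ := by rw [comm_mul_left h2, hxv, one_mul]
    have h3 := (hE (x * u) y v (by rw [e1]; exact hc)).1
    rw [e1, e2] at h3
    exact hd h3

lemma quot_comm_le_center (N : Subgroup G) [N.Normal] (h : ∀ a b g : G, ⁅⁅a, b⁆, g⁆ ∈ N) :
    commutator (G ⧸ N) ≤ center (G ⧸ N) := by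
  rw [commutator_def, Subgroup.commutator_le]
  intro a _ b _
  rw [mem_center_iff]
  intro g
  obtain ⟨a, rfl⟩ := QuotientGroup.mk_surjective a
  obtain ⟨b, rfl⟩ := QuotientGroup.mk_surjective b
  obtain ⟨g, rfl⟩ := QuotientGroup.mk_surjective g
  have h1 : ⁅⁅(a : G ⧸ N), (b : G ⧸ N)⁆, (g : G ⧸ N)⁆ = 1 := by
    have h2 := (QuotientGroup.eq_one_iff _).2 (h a b g)
    rw [← h2]
    rfl
  exact (commutatorElement_eq_one_iff_mul_comm.1 h1).symm

/-- The third term of the lower central series. -/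
abbrev G3 (G : Type) [Group G] : Subgroup G := ⁅commutator G, (⊤ : Subgroup G)⁆

lemma comm_mem_G3 {u g : G} (hu : u ∈ commutator G) : ⁅u, g⁆ ∈ G3 G :=
  commutator_mem_commutator hu (mem_top _)

lemma comm_mem_G3' {u g : G} (hu : u ∈ commutator G) : ⁅g, u⁆ ∈ G3 G := by
  rw [← inv_comm]
  exact (G3 G).inv_mem (comm_mem_G3 hu)

lemma comm_mem_comm (a b : G) : ⁅a, b⁆ ∈ commutator G :=
  commutator_mem_commutator (mem_top _) (mem_top _)

lemma G3_quot_class : commutator (G ⧸ G3 G) ≤ center (G ⧸ G3 G) :=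
  quot_comm_le_center _ (fun a b _ => comm_mem_G3 (comm_mem_comm a b))

/-- If all `⁅x, g⁆` are central then `x` centralises the derived subgroup. -/
lemma mem_centralizer_commutator {x : G} (h : ∀ g, ⁅x, g⁆ ∈ center G) :
    x ∈ centralizer (commutator G : Set G) := by
  have h1 : commutator G ≤ centralizer {x} := by
    rw [commutator_def, Subgroup.commutator_le]
    intro a _ b _
    rw [mem_cent]
    exact comm_comm_eq_one x ⊤ (fun g _ => h g) (mem_top a) (mem_top b)
  rw [mem_centralizer_iff]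
  intro u hu
  have h2 := h1 hu
  rw [mem_centralizer_singleton_iff] at h2
  exact h2

lemma exists_comm_ne_one {x : G} (hx : x ∉ centralizer (commutator G : Set G)) :
    ∃ c ∈ commutator G, ⁅x, c⁆ ≠ 1 := by
  by_contra hcon
  push Not at hcon
  apply hx
  rw [mem_centralizer_iff]
  intro u hu
  exact (commutatorElement_eq_one_iff_mul_comm.1 (hcon u hu)).symm

/-- An element not centralising the derived subgroup has a large relative centraliser. -/
lemma relC_index {p : ℕ} [hp : Fact p.Prime] (hG : ∀ x : G, (centralizer {x}).index ∣ p ^ 2)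
    {x : G} (hx : x ∉ centralizer (commutator G : Set G)) :
    (relC (G3 G) x).index ∣ p ∧ centralizer {x} ≠ relC (G3 G) x := by
  obtain ⟨c, hc, hxc⟩ := exists_comm_ne_one hx
  have hne : centralizer {x} ≠ relC (G3 G) x := by
    intro h
    apply hxc
    rw [← mem_cent, h, mem_relC]
    exact comm_mem_G3' hc
  refine ⟨?_, hne⟩
  have hle := cent_le_relC (G3 G) x
  have h1 := Subgroup.relIndex_mul_index hle
  have h2 : (centralizer {x}).relIndex (relC (G3 G) x) ≠ 1 := by
    intro h3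
    rw [Subgroup.relIndex_eq_one] at h3
    exact hne (le_antisymm hle h3)
  have h4 := hG x
  rw [← h1] at h4
  have h5 : (relC (G3 G) x).index ∣ p ^ 2 := (Dvd.intro_left _ rfl).trans h4
  obtain ⟨k, hk, hk2⟩ := (Nat.dvd_prime_pow hp.out).1 h5
  have h6 : (centralizer {x}).relIndex (relC (G3 G) x) ∣ p ^ 2 := (Dvd.intro _ rfl).trans h4
  obtain ⟨j, hj, hj2⟩ := (Nat.dvd_prime_pow hp.out).1 h6
  rw [hk2, hj2, ← pow_add] at h4
  have h7 : j + k ≤ 2 := (Nat.pow_dvd_pow_iff_le_right hp.out.one_lt).1 h4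
  have h8 : j ≠ 0 := by
    rintro rfl
    exact h2 (by rw [hj2, pow_zero])
  rw [hk2]
  calc p ^ k ∣ p ^ 1 := pow_dvd_pow _ (by omega)
    _ = p := pow_one p

/-- The structure of the derived subgroup in class three. -/
theorem class_three {p : ℕ} [hp : Fact p.Prime] (hG : ∀ x : G, (centralizer {x}).index ∣ p ^ 2)
    (hN : G3 G ≤ center G) (hne : ¬ commutator G ≤ center G) :
    ∃ x y : G, (∀ u ∈ commutator G, ∃ i : ℤ, ∃ n ∈ G3 G, u = ⁅x, y⁆ ^ i * n) ∧
      ⁅x, y⁆ ^ p ∈ G3 G := by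
  set C := centralizer (commutator G : Set G) with hCdef
  have hC : C ≠ ⊤ := by
    intro h
    apply hne
    intro u hu
    rw [mem_center_iff]
    intro g
    have : g ∈ C := by rw [h]; trivial
    rw [hCdef, mem_centralizer_iff] at this
    exact (this u hu).symm
  have hNC : G3 G ≤ C := by
    intro n hn
    rw [hCdef, mem_centralizer_iff]
    intro u _
    exact mem_center_iff.1 (hN hn) u
  have hC' : C.map (QuotientGroup.mk' (G3 G)) ≠ ⊤ := by
    intro h
    apply hC
    have h1 := congrArg (Subgroup.comap (QuotientGroup.mk' (G3 G))) h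
    rw [Subgroup.comap_map_eq, QuotientGroup.ker_mk', Subgroup.comap_top,
      sup_eq_left.2 hNC] at h1
    exact h1
  obtain ⟨x, y, h1, h2⟩ := lemma_AB (p := p) (G := G ⧸ G3 G) G3_quot_class hC' (by
    intro q hq
    obtain ⟨x, rfl⟩ := QuotientGroup.mk_surjective q
    rw [← index_relC]
    exact (relC_index hG (fun hx => hq ⟨x, hx, rfl⟩)).1)
  obtain ⟨x, rfl⟩ := QuotientGroup.mk_surjective x
  obtain ⟨y, rfl⟩ := QuotientGroup.mk_surjective y
  have e1 : ⁅(x : G ⧸ G3 G), (y : G ⧸ G3 G)⁆ = ((⁅x, y⁆ : G) : G ⧸ G3 G) := rfl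
  refine ⟨x, y, ?_, ?_⟩
  · have hmem : ∀ u ∈ commutator G, (u : G ⧸ G3 G) ∈ zpowers ((⁅x, y⁆ : G) : G ⧸ G3 G) := by
      intro u hu
      have h3 : commutator G ≤ (zpowers ((⁅x, y⁆ : G) : G ⧸ G3 G)).comap
          (QuotientGroup.mk' (G3 G)) := by
        apply commutator_le_of
        intro a b
        rw [mem_comap]
        have := h1 (a : G ⧸ G3 G) (b : G ⧸ G3 G)
        rw [e1] at this
        exact this
      exact h3 hu
    intro u hu
    obtain ⟨i, hi⟩ := mem_zpowers_iff.1 (hmem u hu)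
    refine ⟨i, ⁅x, y⁆ ^ (-i) * u, ?_, by rw [zpow_neg, mul_inv_cancel_left]⟩
    rw [← QuotientGroup.eq_one_iff, QuotientGroup.mk_mul, QuotientGroup.mk_zpow, zpow_neg, hi,
      inv_mul_cancel]
  · rw [← QuotientGroup.eq_one_iff, QuotientGroup.mk_pow, ← e1]
    exact h2

/-- In class three an element not centralising the derived subgroup has class size at least
`p ^ 2`. -/
lemma index_of_notMem {p : ℕ} [hp : Fact p.Prime] (hG : ∀ x : G, (centralizer {x}).index ∣ p ^ 2)
    (hN : G3 G ≤ center G) {x : G} (hx : x ∉ centralizer (commutator G : Set G)) :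
    (relC (G3 G) x).index = p ∧ (centralizer {x}).relIndex (relC (G3 G) x) = p ∧
    (centralizer {x}).index = p ^ 2 := by
  obtain ⟨h1, h2⟩ := relC_index hG hx
  have h3 : (relC (G3 G) x).index ≠ 1 := by
    intro h
    rw [index_eq_one] at h
    apply hx
    apply mem_centralizer_commutator
    intro g
    apply hN
    rw [← mem_relC, h]
    trivial
  have h4 : (relC (G3 G) x).index = p := ((Nat.dvd_prime hp.out).1 h1).resolve_left h3
  have hle := cent_le_relC (G3 G) x
  have h5 : (centralizer {x}).relIndex (relC (G3 G) x) ≠ 1 := by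
    intro h3
    rw [Subgroup.relIndex_eq_one] at h3
    exact h2 (le_antisymm hle h3)
  have h6 := Subgroup.relIndex_mul_index hle
  have h7 : (centralizer {x}).relIndex (relC (G3 G) x) = p := by
    have h8 := hG x
    rw [← h6, h4, sq] at h8
    exact ((Nat.dvd_prime hp.out).1 (Nat.dvd_of_mul_dvd_mul_right hp.out.pos h8)).resolve_left h5
  refine ⟨h4, h7, ?_⟩
  rw [← h6, h4, h7, sq]

/-- In a nilpotent group a normal subgroup equal to its commutator with the group is trivial. -/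
lemma eq_bot_of_commutator_eq [hnil : Group.IsNilpotent G] {N : Subgroup G}
    (h : N ≤ ⁅N, (⊤ : Subgroup G)⁆) : N = ⊥ := by
  obtain ⟨n, hn⟩ := Subgroup.nilpotent_iff_lowerCentralSeries.1 hnil
  have h1 : ∀ k, N ≤ (⊤ : Subgroup G).lowerCentralSeries k := by
    intro k
    induction k with
    | zero => exact le_top
    | succ k ih =>
      rw [Subgroup.lowerCentralSeries_succ]
      exact h.trans (Subgroup.commutator_mono ih le_rfl)
  rw [eq_bot_iff, ← hn]
  exact h1 n

lemma commutator_quot (L : Subgroup G) [L.Normal] :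
    commutator (G ⧸ L) = (commutator G).map (QuotientGroup.mk' L) := by
  rw [map_commutator_eq, MonoidHom.range_eq_top.2 (QuotientGroup.mk'_surjective L)]
  rfl

lemma G3_quot (L : Subgroup G) [L.Normal] :
    G3 (G ⧸ L) = (G3 G).map (QuotientGroup.mk' L) := by
  unfold G3
  rw [Subgroup.map_commutator, commutator_quot, ← MonoidHom.range_eq_map,
    MonoidHom.range_eq_top.2 (QuotientGroup.mk'_surjective L)]

/-- The third term of the lower central series is central. -/
theorem G3_le_center {p : ℕ} [hp : Fact p.Prime] [Finite G] (hGp : IsPGroup p G)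
    (hG : ∀ x : G, (centralizer {x}).index ∣ p ^ 2) : G3 G ≤ center G := by
  have hnil : Group.IsNilpotent G := hGp.isNilpotent
  by_cases hN : G3 G = ⊥
  · rw [hN]; exact bot_le
  let L : Subgroup G := ⁅G3 G, (⊤ : Subgroup G)⁆
  have hL : L.Normal := Subgroup.commutator_normal _ _
  have hmemL : ∀ n ∈ G3 G, ∀ g : G, ⁅g, n⁆ ∈ L := by
    intro n hn g
    rw [← inv_comm]
    exact L.inv_mem (commutator_mem_commutator hn (mem_top g))
  have hLN : ¬ G3 G ≤ L := fun h => hN (eq_bot_of_commutator_eq h)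
  have hcen : G3 (G ⧸ L) ≤ center (G ⧸ L) := by
    rw [G3_quot]
    rintro _ ⟨n, hn, rfl⟩
    rw [mem_center_iff]
    intro g
    obtain ⟨g, rfl⟩ := QuotientGroup.mk_surjective g
    have h1 := (QuotientGroup.eq_one_iff _).2 (hmemL n hn g)
    exact commutatorElement_eq_one_iff_mul_comm.1 h1
  have hne : ¬ commutator (G ⧸ L) ≤ center (G ⧸ L) := by
    intro h
    apply hLN
    unfold G3
    rw [Subgroup.commutator_le]
    intro u hu g _
    rw [← QuotientGroup.eq_one_iff]
    have h1 : (u : G ⧸ L) ∈ commutator (G ⧸ L) := by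
      rw [commutator_quot]
      exact ⟨u, hu, rfl⟩
    exact commutatorElement_eq_one_iff_mul_comm.2 (mem_center_iff.1 (h h1) g).symm
  have hB : ∀ x : G ⧸ L, (centralizer {x}).index ∣ p ^ 2 := by
    intro x
    obtain ⟨x, rfl⟩ := QuotientGroup.mk_surjective x
    exact (index_cent_quot_dvd L x).trans (hG x)
  set C := (centralizer (commutator (G ⧸ L) : Set (G ⧸ L))).comap (QuotientGroup.mk' L) with hCdef
  have hC : C ≠ ⊤ := by
    intro h
    apply hne
    intro u hu
    rw [mem_center_iff]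
    intro g
    obtain ⟨g, rfl⟩ := QuotientGroup.mk_surjective g
    have h1 : g ∈ C := by rw [h]; trivial
    rw [hCdef, mem_comap, mem_centralizer_iff] at h1
    exact (h1 u hu).symm
  intro n hn
  have h1 : centralizer {n} = ⊤ := by
    apply eq_top_of_compl_subset hC
    intro x hx
    have hx' : (x : G ⧸ L) ∉ centralizer (commutator (G ⧸ L) : Set (G ⧸ L)) := fun h => hx h
    have h2 := (index_of_notMem hB hcen hx').2.2
    rw [← index_relC] at h2
    have hle := cent_le_relC L x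
    have h3 := Subgroup.relIndex_mul_index hle
    have h4 := hG x
    rw [← h3, h2] at h4
    have hpos : 0 < p ^ 2 := pow_pos hp.out.pos 2
    have h5 : (centralizer {x}).relIndex (relC L x) ∣ 1 := by
      apply Nat.dvd_of_mul_dvd_mul_right hpos
      rwa [one_mul]
    rw [Nat.dvd_one, Subgroup.relIndex_eq_one] at h5
    have h6 : n ∈ relC L x := by
      rw [mem_relC]
      exact hmemL n hn x
    have h7 := h5 h6
    rw [mem_cent] at h7
    rw [mem_cent']
    exact h7
  rw [mem_center_iff]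
  intro g
  have h2 : g ∈ centralizer {n} := by rw [h1]; trivial
  rw [mem_centralizer_singleton_iff] at h2
  exact h2

end

end Pool.Agent.Lib.MP_e0d3d5_al
end

section

/-!
Groups with an element `x` whose centraliser has index `p ^ 2` and is generated by `x` and the
centre.
-/

set_option autoImplicit false

namespace Pool.Agent.Lib.MP_e0d3d5_al

open Subgroup
open scoped commutatorElement

section

variable {G : Type} [Group G]

/-- The map `g ↦ ⁅x, g⁆` when it takes central values. -/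
def cH (x : G) (h : ∀ g : G, ⁅x, g⁆ ∈ center G) : G →* center G :=
  (cHom x ⊤ (fun g _ => h g)).comp (Subgroup.topEquiv.symm.toMonoidHom)

lemma cH_apply (x : G) (h : ∀ g : G, ⁅x, g⁆ ∈ center G) (g : G) : (cH x h g : G) = ⁅x, g⁆ := rfl

lemma ker_cH (x : G) (h : ∀ g : G, ⁅x, g⁆ ∈ center G) : (cH x h).ker = centralizer {x} := by
  ext g
  rw [MonoidHom.mem_ker, mem_cent, Subtype.ext_iff]
  rfl

lemma card_range_cH (x : G) (h : ∀ g : G, ⁅x, g⁆ ∈ center G) :
    Nat.card (cH x h).range = (centralizer {x}).index := by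
  rw [← Subgroup.index_ker, ker_cH]

/-- Two generators of the values of `⁅x, ·⁆`. -/
lemma exists_basis {p : ℕ} [hp : Fact p.Prime] (x : G) (h : ∀ g : G, ⁅x, g⁆ ∈ center G)
    (hexp : ∀ g : G, ⁅x, g⁆ ^ p = 1) (hi : (centralizer {x}).index = p ^ 2) :
    ∃ a b : G, ⁅x, a⁆ ≠ 1 ∧ ⁅x, b⁆ ∉ zpowers ⁅x, a⁆ ∧
      ∀ g : G, ∃ k l : ℤ, ⁅x, g⁆ = ⁅x, a⁆ ^ k * ⁅x, b⁆ ^ l := by
  have hcard := card_range_cH x h
  rw [hi] at hcard
  have hp1 := hp.out.one_lt
  obtain ⟨a, ha⟩ : ∃ a : G, ⁅x, a⁆ ≠ 1 := by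
    by_contra hcon
    push Not at hcon
    have h1 : centralizer {x} = ⊤ := by
      rw [eq_top_iff]
      intro g _
      exact mem_cent.2 (hcon g)
    rw [h1, index_top] at hi
    have := Nat.one_lt_pow (n := 2) (by norm_num) hp1
    omega
  have hza : Nat.card (zpowers (cH x h a)) = p := by
    rw [Nat.card_zpowers]
    apply orderOf_eq_prime
    · apply Subtype.ext
      exact hexp a
    · intro h1
      exact ha (congrArg Subtype.val h1)
  have hfin : Finite (cH x h).range := by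
    apply Nat.finite_of_card_ne_zero
    rw [hcard]
    exact (pow_pos hp.out.pos 2).ne'
  have hle : zpowers (cH x h a) ≤ (cH x h).range := by
    rw [zpowers_le]
    exact ⟨a, rfl⟩
  obtain ⟨b, hb⟩ : ∃ b, cH x h b ∉ zpowers (cH x h a) := by
    by_contra hcon
    push Not at hcon
    have h1 : (cH x h).range ≤ zpowers (cH x h a) := by
      rintro _ ⟨g, rfl⟩
      exact hcon g
    have h2 := congrArg (fun S : Subgroup (center G) => Nat.card S) (le_antisymm h1 hle)
    simp only [hcard, hza] at h2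
    have h3 : p ^ 2 ≠ p := by
      rw [sq]
      intro h4
      have : p * p = p * 1 := by rw [h4, mul_one]
      have := Nat.eq_of_mul_eq_mul_left hp.out.pos this
      omega
    exact h3 h2
  refine ⟨a, b, ha, ?_, ?_⟩
  · intro h1
    apply hb
    obtain ⟨k, hk⟩ := mem_zpowers_iff.1 h1
    rw [mem_zpowers_iff]
    refine ⟨k, Subtype.ext ?_⟩
    simpa [cH_apply] using hk
  · have hS : zpowers (cH x h a) ⊔ zpowers (cH x h b) = (cH x h).range := by
      have hle2 : zpowers (cH x h a) ⊔ zpowers (cH x h b) ≤ (cH x h).range := by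
        apply sup_le hle
        rw [zpowers_le]
        exact ⟨b, rfl⟩
      apply Subgroup.eq_of_le_of_card_ge hle2
      have hfinS : Finite (zpowers (cH x h a) ⊔ zpowers (cH x h b) : Subgroup (center G)) :=
        Set.Finite.subset (Set.toFinite ((cH x h).range : Set (center G))) hle2
      have hd1 : Nat.card (zpowers (cH x h a)) ∣
          Nat.card (zpowers (cH x h a) ⊔ zpowers (cH x h b) : Subgroup (center G)) :=
        Subgroup.card_dvd_of_le le_sup_left
      have hd2 : Nat.card (zpowers (cH x h a) ⊔ zpowers (cH x h b) : Subgroup (center G)) ∣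
          Nat.card (cH x h).range := Subgroup.card_dvd_of_le hle2
      rw [hcard] at hd2 ⊢
      rw [hza] at hd1
      obtain ⟨k, hk, hk2⟩ := (Nat.dvd_prime_pow hp.out).1 hd2
      have hk1 : 1 < k := by
        by_contra hcon
        have hk3 : k = 0 ∨ k = 1 := by omega
        rcases hk3 with rfl | rfl
        · rw [hk2, pow_zero] at hd1
          exact hp1.ne' (Nat.dvd_one.1 hd1)
        · have h5 : zpowers (cH x h a) = zpowers (cH x h a) ⊔ zpowers (cH x h b) := by
            apply Subgroup.eq_of_le_of_card_ge le_sup_left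
            rw [hk2, hza, pow_one]
          apply hb
          rw [h5]
          exact (le_sup_right : zpowers (cH x h b) ≤ _) (mem_zpowers _)
      have hk4 : k = 2 := by omega
      rw [hk2, hk4]
    intro g
    have h1 : cH x h g ∈ zpowers (cH x h a) ⊔ zpowers (cH x h b) := by
      rw [hS]
      exact ⟨g, rfl⟩
    have hnorm : (zpowers (cH x h b)).Normal := by
      refine ⟨fun n hn g => ?_⟩
      have e : g * n * g⁻¹ = n := by
        apply Subtype.ext
        show (g : G) * n * (g : G)⁻¹ = n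
        rw [mem_center_iff.1 n.2 g, mul_inv_cancel_right]
      rwa [e]
    obtain ⟨u, hu, v, hv, huv⟩ := Subgroup.mem_sup_of_normal_right.1 h1
    obtain ⟨k, rfl⟩ := mem_zpowers_iff.1 hu
    obtain ⟨l, rfl⟩ := mem_zpowers_iff.1 hv
    refine ⟨k, l, ?_⟩
    have h2 := congrArg Subtype.val huv
    simp only [Subgroup.coe_mul, Subgroup.coe_zpow, cH_apply] at h2
    exact h2.symm

lemma zpow_eq_one_of_mem {p : ℕ} [hp : Fact p.Prime] {A B : G} (_hA : A ^ p = 1)
    (hB : B ^ p = 1) (_hA1 : A ≠ 1) (hBA : B ∉ zpowers A) {u : G} (h1 : u ∈ zpowers A)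
    (h2 : u ∈ zpowers B) : u = 1 := by
  by_contra hu
  have h3 := zpowers_le_of_mem hB h2 hu
  have h4 : zpowers u ≤ zpowers A := by rwa [zpowers_le]
  exact hBA (h4 (h3 (mem_zpowers B)))

/-- The centraliser of `x` is generated by `x` and the centre. -/
theorem cent_eq {p : ℕ} [hp : Fact p.Prime] (x : G)
    (h1 : ∀ m ∈ centralizer {x}, ∀ g : G, ⁅g, m⁆ ∈ center G)
    (h2 : ∀ m ∈ centralizer {x}, ∀ y : G, y ∉ centralizer {x} → ⁅y, m⁆ ∈ zpowers ⁅y, x⁆)
    (h3 : ∀ g : G, ⁅x, g⁆ ^ p = 1) (h4 : (centralizer {x}).index = p ^ 2) :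
    ∀ m ∈ centralizer {x}, ∃ i : ℤ, m * x ^ i ∈ center G := by
  have hxx : x ∈ centralizer {x} := by
    rw [mem_cent, commutatorElement_self]
  have hxc : ∀ g : G, ⁅x, g⁆ ∈ center G := by
    intro g
    rw [← inv_comm]
    exact (center G).inv_mem (h1 x hxx g)
  obtain ⟨a, b, ha, hb, hab⟩ := exists_basis x hxc h3 h4
  have h3' : ∀ g : G, ⁅g, x⁆ ^ p = 1 := by
    intro g
    rw [← inv_comm, inv_pow, h3, inv_one]
  set A := ⁅a, x⁆ with hA
  set B := ⁅b, x⁆ with hB
  have hA1 : A ≠ 1 := comm_ne_one_symm ha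
  have hBA : B ∉ zpowers A := by
    intro h
    apply hb
    rw [zpowers_comm_symm x a]
    exact comm_mem_zpowers_symm h
  have hB1 : B ≠ 1 := by
    intro h
    rw [h] at hBA
    exact hBA (one_mem _)
  -- commutators of products on the left
  have hmulL : ∀ g k m : G, m ∈ centralizer {x} → ⁅g * k, m⁆ = ⁅k, m⁆ * ⁅g, m⁆ := by
    intro g k m hm
    have e : ⁅g * k, m⁆ = g * ⁅k, m⁆ * g⁻¹ * ⁅g, m⁆ := by
      simp only [commutatorElement_def]; group
    rw [e, mem_center_iff.1 (h1 m hm k) g, mul_assoc ⁅k, m⁆ g g⁻¹, mul_inv_cancel, mul_one]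
  intro m hm
  have haC : a ∉ centralizer {x} := fun h => hA1 (mem_cent'.1 h)
  have hbC : b ∉ centralizer {x} := fun h => hB1 (mem_cent'.1 h)
  obtain ⟨i, hi⟩ := mem_zpowers_iff.1 (h2 m hm a haC)
  refine ⟨-i, ?_⟩
  set m₀ := m * x ^ (-i) with hm₀
  have hm₀C : m₀ ∈ centralizer {x} :=
    (centralizer {x}).mul_mem hm ((centralizer {x}).zpow_mem hxx _)
  have hval : ∀ g : G, ⁅g, m₀⁆ = ⁅g, m⁆ * ⁅g, x⁆ ^ (-i) := by
    intro g
    have hD : ∀ k ∈ centralizer {x}, ⁅g, k⁆ ∈ center G := fun k hk => h1 k hk g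
    rw [hm₀, comm_mul_right' hD hm ((centralizer {x}).zpow_mem hxx _), comm_zpow_right' hD hxx]
  have ham₀ : ⁅a, m₀⁆ = 1 := by
    rw [hval, ← hi, ← hA, ← zpow_add, add_neg_cancel, zpow_zero]
  have hbm₀ : ⁅b, m₀⁆ ∈ zpowers B := h2 m₀ hm₀C b hbC
  have hbm₁ : ⁅b, m₀⁆ = 1 := by
    have e1 : ⁅a * b, x⁆ = B * A := hmulL a b x hxx
    have e2 : ⁅a * b, m₀⁆ = ⁅b, m₀⁆ := by rw [hmulL a b m₀ hm₀C, ham₀, mul_one]
    have habC : a * b ∉ centralizer {x} := by
      intro h
      have h5 := mem_cent'.1 h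
      rw [e1] at h5
      apply hBA
      rw [eq_inv_of_mul_eq_one_left h5]
      exact (zpowers A).inv_mem (mem_zpowers A)
    have h5 := h2 m₀ hm₀C (a * b) habC
    rw [e1, e2] at h5
    obtain ⟨k, hk⟩ := mem_zpowers_iff.1 h5
    obtain ⟨j, hj⟩ := mem_zpowers_iff.1 hbm₀
    have hcomm : Commute B A := by
      have h6 : A ∈ center G := h1 x hxx a
      exact mem_center_iff.1 h6 B
    rw [hcomm.mul_zpow] at hk
    have h7 : A ^ k = 1 := by
      apply zpow_eq_one_of_mem (h3' a) (h3' b) hA1 hBA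
      · exact (zpowers A).zpow_mem (mem_zpowers A) k
      · have h8 : A ^ k = B ^ (-k) * ⁅b, m₀⁆ := by
          rw [← hk, zpow_neg, inv_mul_cancel_left]
        rw [h8]
        exact (zpowers B).mul_mem ((zpowers B).zpow_mem (mem_zpowers B) _) hbm₀
    have h8 : (p : ℤ) ∣ k := by
      rw [← orderOf_eq_prime (h3' a) hA1]
      exact orderOf_dvd_iff_zpow_eq_one.2 h7
    obtain ⟨q, rfl⟩ := h8
    rw [← hk, zpow_mul, zpow_natCast, h3' b, one_zpow, zpow_mul, zpow_natCast, h3' a, one_zpow,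
      mul_one]
  have hCm₀ : ∀ m' ∈ centralizer {x}, ⁅m', m₀⁆ = 1 := by
    intro m' hm'
    have e0 : ⁅m', x⁆ = 1 := mem_cent'.1 hm'
    have key : ∀ g : G, g ∉ centralizer {x} → ⁅g, m₀⁆ = 1 → ⁅m', m₀⁆ ∈ zpowers ⁅g, x⁆ := by
      intro g hg hgm
      have e1 : ⁅g * m', x⁆ = ⁅g, x⁆ := by rw [hmulL g m' x hxx, e0, one_mul]
      have e2 : ⁅g * m', m₀⁆ = ⁅m', m₀⁆ := by rw [hmulL g m' m₀ hm₀C, hgm, mul_one]
      have h5 := h2 m₀ hm₀C (g * m') (fun h => hg (by
        have h6 := mem_cent'.1 h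
        rw [e1] at h6
        exact mem_cent'.2 h6))
      rwa [e1, e2] at h5
    exact zpow_eq_one_of_mem (h3' a) (h3' b) hA1 hBA (key a haC ham₀) (key b hbC hbm₁)
  rw [mem_center_iff]
  intro g
  obtain ⟨k, l, hkl⟩ := hab g
  have hg : (a ^ k * b ^ l)⁻¹ * g ∈ centralizer {x} := by
    rw [mem_cent]
    have hD : ∀ g : G, g ∈ (⊤ : Subgroup G) → ⁅x, g⁆ ∈ center G := fun g _ => hxc g
    rw [comm_mul_right' hD (mem_top _) (mem_top _), comm_inv_right' hD (mem_top _),
      comm_mul_right' hD (mem_top _) (mem_top _), comm_zpow_right' hD (mem_top _),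
      comm_zpow_right' hD (mem_top _), ← hkl, inv_mul_cancel]
  have hcent : g ∈ centralizer {m₀} := by
    have e : g = a ^ k * b ^ l * ((a ^ k * b ^ l)⁻¹ * g) := by rw [mul_inv_cancel_left]
    rw [e]
    have ha' : a ∈ centralizer {m₀} := mem_cent'.2 ham₀
    have hb' : b ∈ centralizer {m₀} := mem_cent'.2 hbm₁
    have hc' := mem_cent'.2 (hCm₀ _ hg)
    exact (centralizer {m₀}).mul_mem ((centralizer {m₀}).mul_mem
      ((centralizer {m₀}).zpow_mem ha' _) ((centralizer {m₀}).zpow_mem hb' _)) hc'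
  rw [mem_centralizer_singleton_iff] at hcent
  exact hcent

/-- The elements which map a vector to a multiple of itself. -/
def lineStab {U : Type} [AddCommGroup U] [Module ℂ U] (ρ : Representation ℂ G U) (v : U)
    (hv : v ≠ 0) : Subgroup G where
  carrier := {g | ∃ c : ℂ, ρ g v = c • v}
  one_mem' := ⟨1, by simp⟩
  mul_mem' := by
    rintro g h ⟨c, hc⟩ ⟨d, hd⟩
    exact ⟨d * c, by rw [rho_mul_apply, hd, map_smul, hc, smul_smul]⟩
  inv_mem' := by
    rintro g ⟨c, hc⟩
    have h1 : ρ g⁻¹ (ρ g v) = v := by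
      rw [← rho_mul_apply, inv_mul_cancel, map_one]; rfl
    have hc0 : c ≠ 0 := by
      rintro rfl
      rw [hc, zero_smul, map_zero] at h1
      exact hv h1.symm
    refine ⟨c⁻¹, ?_⟩
    rw [hc, map_smul] at h1
    calc ρ g⁻¹ v = c⁻¹ • (c • ρ g⁻¹ v) := by rw [smul_smul, inv_mul_cancel₀ hc0, one_smul]
      _ = c⁻¹ • v := by rw [h1]

lemma mem_lineStab {U : Type} [AddCommGroup U] [Module ℂ U] (ρ : Representation ℂ G U) (v : U)
    (hv : v ≠ 0) {g : G} : g ∈ lineStab ρ v hv ↔ ∃ c : ℂ, ρ g v = c • v := Iff.rfl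

lemma finrank_le_index_lineStab {U : Type} [AddCommGroup U] [Module ℂ U] [FiniteDimensional ℂ U]
    (ρ : Representation ℂ G U) (hρ : ρ.IsIrreducible) (v : U) (hv : v ≠ 0)
    [Finite (G ⧸ lineStab ρ v hv)] : Module.finrank ℂ U ≤ (lineStab ρ v hv).index := by
  have h1 := finrank_le_index_mul ρ hρ (lineStab ρ v hv) (Submodule.span ℂ {v}) (by
    intro g hg w hw
    obtain ⟨c, hc⟩ := (mem_lineStab ρ v hv).1 hg
    rw [Submodule.mem_span_singleton] at hw ⊢
    obtain ⟨d, rfl⟩ := hw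
    exact ⟨d * c, by rw [map_smul, hc, smul_smul]⟩) (by
    intro h
    exact hv (Submodule.span_singleton_eq_bot.1 h))
  rwa [finrank_span_singleton hv, mul_one] at h1

/-- Common eigenvectors of two commuting endomorphisms. -/
lemma exists_common_eigenvector {U : Type} [AddCommGroup U] [Module ℂ U] [FiniteDimensional ℂ U]
    [Nontrivial U] (S T : Module.End ℂ U) (hST : S * T = T * S) :
    ∃ v : U, v ≠ 0 ∧ (∃ c : ℂ, S v = c • v) ∧ ∃ c : ℂ, T v = c • v := by
  obtain ⟨μ, hμ⟩ := Module.End.exists_eigenvalue S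
  have hst : ∀ w ∈ Module.End.eigenspace S μ, T w ∈ Module.End.eigenspace S μ := by
    intro w hw
    rw [Module.End.mem_eigenspace_iff] at hw ⊢
    have h1 : S (T w) = T (S w) := LinearMap.congr_fun hST w
    rw [h1, hw, map_smul]
  have hnt : Nontrivial (Module.End.eigenspace S μ) :=
    Submodule.nontrivial_iff_ne_bot.2 hμ
  obtain ⟨ν, hν⟩ := Module.End.exists_eigenvalue (T.restrict hst)
  obtain ⟨w, hw⟩ := hν.exists_hasEigenvector
  refine ⟨w, ?_, ⟨μ, Module.End.mem_eigenspace_iff.1 w.2⟩, ν, ?_⟩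
  · intro h
    exact hw.2 (Subtype.ext h)
  · have h1 := hw.apply_eq_smul
    exact congrArg Subtype.val h1

/-- The degrees are at most `p`. -/
theorem finrank_le_of_cent {p : ℕ} [hp : Fact p.Prime] [Finite G] (x : G)
    (hxc : ∀ g : G, ⁅x, g⁆ ∈ center G) (h3 : ∀ g : G, ⁅x, g⁆ ^ p = 1)
    (h4 : (centralizer {x}).index = p ^ 2)
    (h5 : ∀ m ∈ centralizer {x}, ∃ i : ℤ, m * x ^ i ∈ center G)
    {U : Type} [AddCommGroup U] [Module ℂ U] [FiniteDimensional ℂ U]
    (ρ : Representation ℂ G U) (hρ : ρ.IsIrreducible) : Module.finrank ℂ U ≤ p := by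
  have hnt := nontrivial_of_irr ρ hρ
  obtain ⟨a, b, ha, hb, -⟩ := exists_basis x hxc h3 h4
  have hsc : ∀ z ∈ center G, ∃ c : ℂ, ρ z = c • LinearMap.id := by
    intro z hz
    apply schur ρ hρ
    intro g
    rw [← Module.End.mul_eq_comp, ← Module.End.mul_eq_comp, ← map_mul, ← map_mul,
      mem_center_iff.1 hz g]
  have hD : ∀ g ∈ (⊤ : Subgroup G), ⁅x, g⁆ ∈ center G := fun g _ => hxc g
  obtain ⟨y, hy, hy1⟩ : ∃ y : G, y ∉ centralizer {x} ∧ ρ ⁅x, y⁆ = 1 := by
    obtain ⟨s, hs⟩ := hsc _ (hxc a)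
    obtain ⟨t, ht⟩ := hsc _ (hxc b)
    have hpow : ∀ (g : G) (c : ℂ), ρ ⁅x, g⁆ = c • LinearMap.id → c ^ p = 1 := by
      intro g c hc
      apply scalar_inj (U := U)
      have h6 : ρ (⁅x, g⁆ ^ p) = (c ^ p) • LinearMap.id := by
        rw [map_pow, hc, smul_pow]
        congr 1
        exact one_pow p
      rw [← h6, h3, map_one, one_smul]
      rfl
    by_cases hs1 : s = 1
    · refine ⟨a, fun h => ha (mem_cent.1 h), ?_⟩
      rw [hs, hs1, one_smul]; rfl
    · have hprim : IsPrimitiveRoot s p := by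
        have h6 : orderOf s = p := orderOf_eq_prime (hpow a s hs) hs1
        rw [← h6]
        exact IsPrimitiveRoot.orderOf s
      have : NeZero p := ⟨hp.out.ne_zero⟩
      obtain ⟨i, -, hi⟩ := hprim.eq_pow_of_pow_eq_one (hpow b t ht)
      refine ⟨b * a ^ (-(i : ℤ)), ?_, ?_⟩
      · intro h
        have h6 := mem_cent.1 h
        rw [comm_mul_right' hD (mem_top _) (mem_top _), comm_zpow_right' hD (mem_top _)] at h6
        apply hb
        rw [eq_inv_of_mul_eq_one_left h6]
        exact (zpowers _).inv_mem ((zpowers _).zpow_mem (mem_zpowers _) _)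
      · rw [comm_mul_right' hD (mem_top _) (mem_top _), comm_zpow_right' hD (mem_top _), map_mul]
        have h6 : ρ ⁅x, b⁆ = ρ (⁅x, a⁆ ^ i) := by
          rw [map_pow, hs, ht, ← hi, smul_pow]
          congr 1
          exact (one_pow i).symm
        rw [h6, ← map_mul, zpow_neg, zpow_natCast, mul_inv_cancel, map_one]
  have hcomm : ρ x * ρ y = ρ y * ρ x := by
    have e : x * y = ⁅x, y⁆ * (y * x) := by rw [commutatorElement_def]; group
    rw [← map_mul, e, map_mul, hy1, one_mul, map_mul]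
  obtain ⟨v, hv, hvx, hvy⟩ := exists_common_eigenvector (ρ x) (ρ y) hcomm
  have hfin : Finite (G ⧸ lineStab ρ v hv) := inferInstance
  refine (finrank_le_index_lineStab ρ hρ v hv).trans ?_
  have hxs : x ∈ lineStab ρ v hv := hvx
  have hys : y ∈ lineStab ρ v hv := hvy
  have hzs : ∀ z ∈ center G, z ∈ lineStab ρ v hv := by
    intro z hz
    obtain ⟨c, hc⟩ := hsc z hz
    exact ⟨c, by rw [hc]; rfl⟩
  have hle : centralizer {x} ≤ lineStab ρ v hv := by
    intro m hm
    obtain ⟨i, hi⟩ := h5 m hm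
    have e : m = (m * x ^ i) * x ^ (-i) := by rw [mul_assoc, ← zpow_add, add_neg_cancel,
      zpow_zero, mul_one]
    rw [e]
    exact (lineStab ρ v hv).mul_mem (hzs _ hi) ((lineStab ρ v hv).zpow_mem hxs _)
  have h6 := Subgroup.relIndex_mul_index hle
  rw [h4] at h6
  have h7 : (centralizer {x}).relIndex (lineStab ρ v hv) ≠ 1 := by
    intro h8
    rw [Subgroup.relIndex_eq_one] at h8
    exact hy (h8 hys)
  obtain ⟨k, hk, hk2⟩ := (Nat.dvd_prime_pow hp.out).1 (Dvd.intro _ h6)
  obtain ⟨j, hj, hj2⟩ := (Nat.dvd_prime_pow hp.out).1 (Dvd.intro_left _ h6)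
  rw [hk2, hj2, ← pow_add] at h6
  have h8 := Nat.pow_right_injective hp.out.two_le h6
  have h9 : k ≠ 0 := by
    rintro rfl
    exact h7 (by rw [hk2, pow_zero])
  rw [hj2]
  calc p ^ j ≤ p ^ 1 := Nat.pow_le_pow_right hp.out.pos (by
        have h10 : k + j = 2 := h8
        omega)
    _ = p := pow_one p

end

end Pool.Agent.Lib.MP_e0d3d5_al
end
end
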