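import Mathlib
import Pool.Agent.Lib.MP_e0d3d5_al.Examples
import Pool.Agent.Lib.MP_e0d3d5_al.Pcube

section

/-!
The groups with class sizes `{1, p, p ^ 2}` and many character degrees.
-/

set_option autoImplicit false

namespace Pool.Agent.Lib.MP_e0d3d5_al

open Tw

section

variable {F : Type} [Field F] {J Y : Type} [Fintype J] [AddCommGroup Y] [Module F Y]

/-- The biadditive map `((x, y), (x', y')) ↦ (x · P y', x · Q y')`. -/
def kron (P Q : Y →ₗ[F] (J → F)) : ((J → F) × Y) →+ ((J → F) × Y) →+ F × F :=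
  AddMonoidHom.mk' (fun v => AddMonoidHom.mk' (fun v' => (v.1 ⬝ᵥ P v'.2, v.1 ⬝ᵥ Q v'.2)) (by
    intro a b
    simp [dotProduct_add])) (by
    intro a b
    ext c <;> simp [add_dotProduct])

lemma pair_kron (P Q : Y →ₗ[F] (J → F)) (v v' : (J → F) × Y) :
    pair (kron P Q) v v' =
      (v.1 ⬝ᵥ P v'.2 - v'.1 ⬝ᵥ P v.2, v.1 ⬝ᵥ Q v'.2 - v'.1 ⬝ᵥ Q v.2) := rfl

/-- The additive characters of `F × F`. -/
def chi2 (ψ : AddChar F ℂ) (α β : F) : AddChar (F × F) ℂ where
  toFun w := ψ (α * w.1 + β * w.2)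
  map_zero_eq_one' := by simp
  map_add_eq_mul' := by
    intro u w
    rw [← AddChar.map_add_eq_mul]
    congr 1
    simp only [Prod.fst_add, Prod.snd_add]
    ring

lemma chi2_apply (ψ : AddChar F ℂ) (α β : F) (w : F × F) :
    chi2 ψ α β w = ψ (α * w.1 + β * w.2) := rfl

lemma psi_ne {ψ : AddChar F ℂ} (hψ : ψ 1 ≠ 1) {k : F} (hk : ∀ x : F, ψ (k * x) = 1) : k = 0 := by
  by_contra h0
  apply hψ
  have := hk k⁻¹
  rwa [mul_inv_cancel₀ h0] at this

lemma chi2_bij [Finite F] {ψ : AddChar F ℂ} (hψ : ψ 1 ≠ 1) :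
    Function.Bijective (fun c : F × F => chi2 ψ c.1 c.2) := by
  classical
  have : Fintype F := Fintype.ofFinite F
  rw [Fintype.bijective_iff_injective_and_card]
  refine ⟨?_, AddChar.card_eq.symm⟩
  rintro ⟨a, b⟩ ⟨a', b'⟩ h
  have h1 : ∀ w : F × F, ψ (a * w.1 + b * w.2) = ψ (a' * w.1 + b' * w.2) := fun w =>
    DFunLike.congr_fun h w
  have h2 : a - a' = 0 := by
    apply psi_ne hψ
    intro x
    have := h1 (x, 0)
    simp only [mul_zero, add_zero] at this
    rw [sub_mul, AddChar.map_sub_eq_div, this]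
    exact div_self (AddChar.val_isUnit _ _).ne_zero
  have h3 : b - b' = 0 := by
    apply psi_ne hψ
    intro x
    have := h1 (0, x)
    simp only [mul_zero, zero_add] at this
    rw [sub_mul, AddChar.map_sub_eq_div, this]
    exact div_self (AddChar.val_isUnit _ _).ne_zero
  rw [sub_eq_zero.1 h2, sub_eq_zero.1 h3]

/-- The index of the radical. -/
lemma index_rad_kron [Finite F] [Finite Y] {ψ : AddChar F ℂ} (hψ : ψ 1 ≠ 1)
    (P Q : Y →ₗ[F] (J → F)) (α β : F) (S : Finset J)
    (hS1 : ∀ j ∉ S, ∀ y, α * P y j + β * Q y j = 0)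
    (hS2 : ∀ w : J → F, ∃ y, ∀ j ∈ S, α * P y j + β * Q y j = w j) :
    (rad (kron P Q) (chi2 ψ α β)).index = (Nat.card F ^ S.card) ^ 2 := by
  classical
  let Θ : ((J → F) × Y) →+ (S → F) × (S → F) :=
    AddMonoidHom.mk' (fun v => (fun j => v.1 j, fun j => α * P v.2 j + β * Q v.2 j)) (by
      intro a b
      ext j
      · simp
      · simp only [Prod.snd_add, map_add, Pi.add_apply]
        ring)
  have hval : ∀ v v' : (J → F) × Y, chi2 ψ α β (pair (kron P Q) v v') =
      ψ (∑ j, v.1 j * (α * P v'.2 j + β * Q v'.2 j) -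
        ∑ j, v'.1 j * (α * P v.2 j + β * Q v.2 j)) := by
    intro v v'
    rw [pair_kron, chi2_apply]
    congr 1
    simp only [dotProduct, mul_sub, Finset.mul_sum, mul_add, Finset.sum_add_distrib]
    have e1 : ∀ (a : F) (x y : J → F), ∑ j, a * (x j * y j) = ∑ j, x j * (a * y j) := by
      intro a x y
      apply Finset.sum_congr rfl
      intro j _
      ring
    rw [e1, e1, e1, e1]
    ring
  have hker : Θ.ker = rad (kron P Q) (chi2 ψ α β) := by
    ext v
    rw [AddMonoidHom.mem_ker, mem_rad]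
    constructor
    · intro h v'
      have h1 : ∀ j ∈ S, v.1 j = 0 := fun j hj =>
        congrFun (congrArg Prod.fst h) ⟨j, hj⟩
      have h2 : ∀ j, α * P v.2 j + β * Q v.2 j = 0 := by
        intro j
        by_cases hj : j ∈ S
        · exact congrFun (congrArg Prod.snd h) ⟨j, hj⟩
        · exact hS1 j hj _
      rw [hval]
      have e1 : ∑ j, v.1 j * (α * P v'.2 j + β * Q v'.2 j) = 0 := by
        apply Finset.sum_eq_zero
        intro j _
        by_cases hj : j ∈ S
        · rw [h1 j hj, zero_mul]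
        · rw [hS1 j hj, mul_zero]
      have e2 : ∑ j, v'.1 j * (α * P v.2 j + β * Q v.2 j) = 0 := by
        apply Finset.sum_eq_zero
        intro j _
        rw [h2, mul_zero]
      rw [e1, e2, sub_zero, AddChar.map_zero_eq_one]
    · intro h
      simp only [hval] at h
      ext ⟨j, hj⟩
      · show v.1 j = 0
        apply psi_ne hψ
        intro x
        obtain ⟨y, hy⟩ := hS2 (Pi.single j x)
        have h1 := h (0, y)
        simp only [Pi.zero_apply, zero_mul, Finset.sum_const_zero, sub_zero] at h1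
        rw [Finset.sum_eq_single j] at h1
        · rw [hy j hj, Pi.single_eq_same] at h1
          exact h1
        · intro j' _ hj'
          by_cases hj'S : j' ∈ S
          · rw [hy j' hj'S, Pi.single_eq_of_ne hj', mul_zero]
          · rw [hS1 j' hj'S, mul_zero]
        · intro hj'
          exact absurd (Finset.mem_univ _) hj'
      · show α * P v.2 j + β * Q v.2 j = 0
        apply psi_ne hψ
        intro x
        have h1 := h (Pi.single j (-x), 0)
        simp only [map_zero, Pi.zero_apply, mul_zero, add_zero, Finset.sum_const_zero,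
          zero_sub] at h1
        rw [Finset.sum_eq_single j] at h1
        · rw [Pi.single_eq_same] at h1
          rw [← h1]
          congr 1
          ring
        · intro j' _ hj'
          rw [Pi.single_eq_of_ne hj', zero_mul]
        · intro hj'
          exact absurd (Finset.mem_univ _) hj'
  have hsurj : Function.Surjective Θ := by
    rintro ⟨a, b⟩
    obtain ⟨y, hy⟩ := hS2 (fun j => if h : j ∈ S then b ⟨j, h⟩ else 0)
    refine ⟨(fun j => if h : j ∈ S then a ⟨j, h⟩ else 0, y), ?_⟩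
    ext ⟨j, hj⟩
    · show (if h : j ∈ S then a ⟨j, h⟩ else 0) = a ⟨j, hj⟩
      rw [dif_pos hj]
    · show α * P y j + β * Q y j = b ⟨j, hj⟩
      rw [hy j hj, dif_pos hj]
  rw [← hker, AddSubgroup.index_ker, AddMonoidHom.range_eq_top.2 hsurj, AddSubgroup.card_top,
    Nat.card_prod, Nat.card_fun, sq]
  simp

lemma solve {F : Type} [Field F] {α β : F} (h : α ≠ 0 ∨ β ≠ 0) : ∀ (K : ℕ) (w : Fin K → F),
    ∃ u : Fin (K + 1) → F, ∀ k : Fin K, α * u k.castSucc + β * u k.succ = w k := by
  by_cases hα : α = 0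
  · have hβ : β ≠ 0 := h.resolve_left (fun h => h hα)
    intro K w
    refine ⟨Fin.cons 0 (fun k => w k / β), fun k => ?_⟩
    rw [Fin.cons_succ, hα, zero_mul, zero_add]
    field_simp
  · intro K
    induction K with
    | zero => exact fun w => ⟨fun _ => 0, fun k => k.elim0⟩
    | succ K ih =>
      intro w
      obtain ⟨u, hu⟩ := ih (Fin.tail w)
      refine ⟨Fin.cons ((w 0 - β * u 0) / α) u, fun k => ?_⟩
      refine Fin.cases ?_ (fun k => ?_) k
      · rw [Fin.castSucc_zero, Fin.cons_zero, Fin.cons_succ]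
        field_simp
        ring
      · rw [← Fin.succ_castSucc, Fin.cons_succ, Fin.cons_succ]
        exact hu k

section constr

variable {p : ℕ} [hp : Fact p.Prime] (g : ZMod p → ℕ) (K : ℕ)

/-- The index type. -/
abbrev JJ : Type := (Σ t : ZMod p, Fin (g t)) ⊕ Fin K

/-- The second factor. -/
abbrev YY : Type := ((Σ t : ZMod p, Fin (g t)) → ZMod p) × (Fin (K + 1) → ZMod p)

/-- The first map. -/
def PP : YY g K →ₗ[ZMod p] (JJ g K → ZMod p) where
  toFun y := Sum.elim y.1 (fun k => y.2 k.castSucc)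
  map_add' := by
    intro a b
    ext (i | k) <;> rfl
  map_smul' := by
    intro a b
    ext (i | k) <;> rfl

/-- The second map. -/
def QQ : YY g K →ₗ[ZMod p] (JJ g K → ZMod p) where
  toFun y := Sum.elim (fun i => i.1 * y.1 i) (fun k => y.2 k.succ)
  map_add' := by
    intro a b
    ext (i | k)
    · exact mul_add _ _ _
    · rfl
  map_smul' := by
    intro a b
    ext (i | k)
    · exact mul_left_comm _ _ _
    · rfl

/-- The group. -/
abbrev GG : Type := Tw (kron (PP g K) (QQ g K))

lemma card_JJ : Fintype.card (JJ g K) = (∑ t, g t) + K := by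
  rw [Fintype.card_sum, Fintype.card_sigma, Fintype.card_fin]
  congr 1
  apply Finset.sum_congr rfl
  intro t _
  exact Fintype.card_fin _

lemma index_GG {ψ : AddChar (ZMod p) ℂ} (hψ : ψ 1 ≠ 1) {α β : ZMod p} (h : α ≠ 0 ∨ β ≠ 0) :
    ∃ m : ℕ, (rad (kron (PP g K) (QQ g K)) (chi2 ψ α β)).index = (p ^ m) ^ 2 ∧
      ((β = 0 ∧ m = (∑ t, g t) + K) ∨ (β ≠ 0 ∧ m = (∑ t, g t) + K - g (-α / β))) := by
  classical
  let good : JJ g K → Prop := fun j => Sum.elim (fun i => α + β * i.1 ≠ 0) (fun _ => True) j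
  let S : Finset (JJ g K) := Finset.univ.filter good
  have hS : ∀ j, j ∈ S ↔ good j := by
    intro j
    simp [S]
  have h1 := index_rad_kron hψ (PP g K) (QQ g K) α β S (by
    rintro (i | k) hj y
    · rw [hS] at hj
      have h2 : α + β * i.1 = 0 := by
        by_contra h3
        exact hj h3
      show α * y.1 i + β * (i.1 * y.1 i) = 0
      rw [← mul_assoc, ← add_mul, h2, zero_mul]
    · exfalso
      exact hj ((hS _).2 trivial)) (by
    intro w
    obtain ⟨u, hu⟩ := solve h K (fun k => w (Sum.inr k))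
    refine ⟨(fun i => w (Sum.inl i) / (α + β * i.1), u), ?_⟩
    rintro (i | k) hj
    · have h2 : α + β * i.1 ≠ 0 := (hS _).1 hj
      show α * (w (Sum.inl i) / (α + β * i.1)) + β * (i.1 * (w (Sum.inl i) / (α + β * i.1))) = _
      rw [← mul_assoc, ← add_mul, mul_div_cancel₀ _ h2]
    · exact hu k)
  rw [Nat.card_zmod] at h1
  refine ⟨S.card, h1, ?_⟩
  have h2 := Finset.card_filter_add_card_filter_not (s := (Finset.univ : Finset (JJ g K))) good
  rw [Finset.card_univ, card_JJ] at h2
  have h2' : S.card + (Finset.univ.filter (fun j => ¬ good j)).card = (∑ t, g t) + K := h2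
  by_cases hβ : β = 0
  · left
    refine ⟨hβ, ?_⟩
    have h3 : Finset.univ.filter (fun j => ¬ good j) = ∅ := by
      rw [Finset.filter_eq_empty_iff]
      rintro (i | k) _
      · rw [not_not]
        show α + β * i.1 ≠ 0
        rw [hβ, zero_mul, add_zero]
        exact h.resolve_right (fun h => h hβ)
      · rw [not_not]
        trivial
    rw [h3, Finset.card_empty, add_zero] at h2'
    exact h2'
  · right
    refine ⟨hβ, ?_⟩
    have h3 : Finset.univ.filter (fun j => ¬ good j) =
        (Finset.univ : Finset (Fin (g (-α / β)))).map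
          ⟨fun k => (Sum.inl ⟨-α / β, k⟩ : JJ g K), by
            intro a b hab
            simpa using hab⟩ := by
      ext j
      rw [Finset.mem_filter, Finset.mem_map]
      constructor
      · rintro ⟨-, hj⟩
        rcases j with ⟨t, k⟩ | k
        · have h4 : α + β * t = 0 := by
            by_contra h5
            exact hj h5
          have h5 : t = -α / β := by
            rw [eq_div_iff hβ, mul_comm, eq_neg_iff_add_eq_zero, add_comm]
            exact h4
          subst h5
          exact ⟨k, Finset.mem_univ _, rfl⟩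
        · exact absurd trivial hj
      · rintro ⟨k, -, rfl⟩
        refine ⟨Finset.mem_univ _, ?_⟩
        show ¬ (α + β * (-α / β) ≠ 0)
        rw [not_not, mul_div_cancel₀ _ hβ, add_neg_cancel]
    rw [h3, Finset.card_map, Finset.card_univ, Fintype.card_fin] at h2'
    omega

/-- The degrees of the group. -/
theorem cdSet_GG : cdSet (GG g K) = {d | d = 1 ∨ d = p ^ ((∑ t, g t) + K) ∨
    ∃ t, d = p ^ ((∑ t, g t) + K - g t)} := by
  classical
  obtain ⟨ψ, hψ⟩ := AddChar.exists_apply_ne_zero.2 (one_ne_zero (α := ZMod p))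
  have hbij := chi2_bij hψ
  rw [cdSet_eq]
  have h0 : (rad (kron (PP g K) (QQ g K)) (chi2 ψ 0 0)).index = 1 := by
    have h1 := index_rad_kron hψ (PP g K) (QQ g K) 0 0 ∅ (by intro j _ y; simp)
      (by intro w; exact ⟨0, by simp⟩)
    rw [h1, Finset.card_empty, pow_zero, one_pow]
  ext d
  constructor
  · rintro ⟨l, hl⟩
    obtain ⟨⟨α, β⟩, rfl⟩ := hbij.2 l
    simp only at hl
    by_cases h : α ≠ 0 ∨ β ≠ 0
    · obtain ⟨m, hm, hm2⟩ := index_GG g K hψ h
      rw [hm] at hl
      have hd : d = p ^ m := Nat.pow_left_injective (n := 2) (by norm_num) hl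
      rcases hm2 with ⟨-, rfl⟩ | ⟨-, rfl⟩
      · right; left; exact hd
      · right; right; exact ⟨_, hd⟩
    · push Not at h
      rw [h.1, h.2, h0] at hl
      left
      exact Nat.pow_left_injective (n := 2) (by norm_num) (hl.trans (one_pow 2).symm)
  · rintro (rfl | rfl | ⟨t, rfl⟩)
    · exact ⟨chi2 ψ 0 0, by rw [h0, one_pow]⟩
    · obtain ⟨m, hm, hm2⟩ := index_GG g K hψ (α := 1) (β := 0) (Or.inl one_ne_zero)
      rcases hm2 with ⟨-, rfl⟩ | ⟨h, -⟩
      · exact ⟨chi2 ψ 1 0, hm.symm⟩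
      · exact absurd rfl h
    · obtain ⟨m, hm, hm2⟩ := index_GG g K hψ (α := -t) (β := 1) (Or.inr one_ne_zero)
      rcases hm2 with ⟨h, -⟩ | ⟨-, rfl⟩
      · exact absurd h one_ne_zero
      · rw [neg_neg, div_one] at hm
        exact ⟨chi2 ψ (-t) 1, hm.symm⟩

lemma card_range_dvd (v : (JJ g K → ZMod p) × YY g K) :
    Nat.card (pair (kron (PP g K) (QQ g K)) v).range ∣ p ^ 2 := by
  have h := AddSubgroup.card_addSubgroup_dvd_card (pair (kron (PP g K) (QQ g K)) v).range
  rwa [Nat.card_prod, Nat.card_zmod, ← sq] at h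

lemma card_eq_p {v : (JJ g K → ZMod p) × YY g K}
    (h1 : ∃ v', pair (kron (PP g K) (QQ g K)) v v' ≠ 0)
    (h2 : ∀ v', pair (kron (PP g K) (QQ g K)) v v' ≠ (0, 1)) :
    Nat.card (pair (kron (PP g K) (QQ g K)) v).range = p := by
  obtain ⟨k, hk, hk2⟩ := (Nat.dvd_prime_pow hp.out).1 (card_range_dvd g K v)
  have hk0 : k ≠ 0 := by
    rintro rfl
    rw [pow_zero] at hk2
    rw [AddSubgroup.card_eq_one] at hk2
    obtain ⟨v', hv'⟩ := h1
    have h3 : pair (kron (PP g K) (QQ g K)) v v' ∈
      (pair (kron (PP g K) (QQ g K)) v).range := ⟨v', rfl⟩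
    rw [hk2] at h3
    exact hv' h3
  have hk3 : k ≠ 2 := by
    rintro rfl
    have h4 : (pair (kron (PP g K) (QQ g K)) v).range = ⊤ := by
      apply AddSubgroup.eq_top_of_card_eq
      rw [hk2, Nat.card_prod, Nat.card_zmod, ← sq]
    have h5 : ((0, 1) : ZMod p × ZMod p) ∈ (pair (kron (PP g K) (QQ g K)) v).range := by
      rw [h4]; trivial
    obtain ⟨v', hv'⟩ := h5
    exact h2 v' hv'
  have hk1 : k = 1 := by omega
  rw [hk2, hk1, pow_one]

lemma card_eq_psq {v : (JJ g K → ZMod p) × YY g K}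
    (h : ∀ w, ∃ v', pair (kron (PP g K) (QQ g K)) v v' = w) :
    Nat.card (pair (kron (PP g K) (QQ g K)) v).range = p ^ 2 := by
  have h4 : (pair (kron (PP g K) (QQ g K)) v).range = ⊤ := by
    rw [eq_top_iff]
    intro w _
    exact h w
  rw [h4, AddSubgroup.card_top, Nat.card_prod, Nat.card_zmod, ← sq]

/-- The class sizes of the group. -/
theorem csSet_GG (hM : 1 ≤ (∑ t, g t) + K) (hg : ∀ t, g t < (∑ t, g t) + K) :
    csSet (GG g K) = {1, p, p ^ 2} := by
  classical
  rw [csSet_eq]
  apply Set.eq_of_subset_of_subset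
  · rintro c ⟨v, rfl⟩
    obtain ⟨k, hk, hk2⟩ := (Nat.dvd_prime_pow hp.out).1 (card_range_dvd g K v)
    rw [hk2]
    interval_cases k <;> simp
  · have h1 : ∃ v : (JJ g K → ZMod p) × YY g K,
        Nat.card (pair (kron (PP g K) (QQ g K)) v).range = 1 := by
      refine ⟨0, ?_⟩
      rw [map_zero, AddMonoidHom.range_zero]
      exact AddSubgroup.card_bot
    have hp' : ∃ v : (JJ g K → ZMod p) × YY g K,
        Nat.card (pair (kron (PP g K) (QQ g K)) v).range = p := by
      rcases K with _ | K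
      · -- some `g t` is positive
        obtain ⟨t, ht⟩ : ∃ t, g t ≠ 0 := by
          by_contra hcon
          push Not at hcon
          rw [Finset.sum_eq_zero (fun t _ => hcon t)] at hM
          omega
        let i : Σ t : ZMod p, Fin (g t) := ⟨t, ⟨0, Nat.pos_of_ne_zero ht⟩⟩
        refine ⟨(0, (Pi.single i 1, 0)), card_eq_p g 0 ⟨(Pi.single (Sum.inl i) 1, 0), ?_⟩ ?_⟩
        · rw [pair_kron]
          intro h
          have h3 := congrArg Prod.fst h
          simp only [zero_dotProduct, zero_sub, single_dotProduct, one_mul, Prod.fst_zero] at h3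
          have h4 : PP g 0 (Pi.single i 1, 0) (Sum.inl i) = 1 := Pi.single_eq_same i 1
          rw [h4] at h3
          exact one_ne_zero (neg_eq_zero.1 h3)
        · intro v' h
          rw [pair_kron] at h
          have h3 := congrArg Prod.fst h
          have h4 := congrArg Prod.snd h
          simp only [zero_dotProduct, zero_sub] at h3 h4
          have e1 : v'.1 ⬝ᵥ PP g 0 (Pi.single i 1, 0) = v'.1 (Sum.inl i) := by
            rw [dotProduct, Finset.sum_eq_single (Sum.inl i)]
            · have : PP g 0 (Pi.single i 1, 0) (Sum.inl i) = 1 := Pi.single_eq_same i 1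
              rw [this, mul_one]
            · rintro (j | k) _ hj
              · have : PP g 0 (Pi.single i 1, 0) (Sum.inl j) = 0 :=
                  Pi.single_eq_of_ne (fun h => hj (by rw [h])) 1
                rw [this, mul_zero]
              · exact k.elim0
            · intro h; exact absurd (Finset.mem_univ _) h
          have e2 : v'.1 ⬝ᵥ QQ g 0 (Pi.single i 1, 0) = v'.1 (Sum.inl i) * t := by
            rw [dotProduct, Finset.sum_eq_single (Sum.inl i)]
            · have : QQ g 0 (Pi.single i 1, 0) (Sum.inl i) = t := by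
                show t * (Pi.single i 1 : (Σ t : ZMod p, Fin (g t)) → ZMod p) i = t
                rw [Pi.single_eq_same, mul_one]
              rw [this]
            · rintro (j | k) _ hj
              · have : QQ g 0 (Pi.single i 1, 0) (Sum.inl j) = 0 := by
                  show j.1 * (Pi.single i 1 : (Σ t : ZMod p, Fin (g t)) → ZMod p) j = 0
                  rw [Pi.single_eq_of_ne (fun h => hj (by rw [h])) 1, mul_zero]
                rw [this, mul_zero]
              · exact k.elim0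
            · intro h; exact absurd (Finset.mem_univ _) h
          rw [e1] at h3
          rw [e2, neg_eq_zero.1 h3, zero_mul, neg_zero] at h4
          exact zero_ne_one h4
      · refine ⟨(0, (0, Pi.single 0 1)), card_eq_p g (K + 1)
          ⟨(Pi.single (Sum.inr 0) 1, 0), ?_⟩ ?_⟩
        · rw [pair_kron]
          intro h
          have h3 := congrArg Prod.fst h
          simp only [zero_dotProduct, zero_sub, single_dotProduct, one_mul, Prod.fst_zero] at h3
          have h4 : PP g (K + 1) (0, Pi.single 0 1) (Sum.inr 0) = 1 := by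
            show (Pi.single 0 1 : Fin (K + 2) → ZMod p) (Fin.castSucc 0) = 1
            rw [Fin.castSucc_zero, Pi.single_eq_same]
          rw [h4] at h3
          exact one_ne_zero (neg_eq_zero.1 h3)
        · intro v' h
          rw [pair_kron] at h
          have h4 := congrArg Prod.snd h
          have e2 : QQ g (K + 1) (0, Pi.single 0 1) = 0 := by
            ext (j | k)
            · exact mul_zero _
            · exact Pi.single_eq_of_ne (Fin.succ_ne_zero k) 1
          simp only [zero_dotProduct, zero_sub, e2, dotProduct_zero, neg_zero] at h4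
          exact zero_ne_one h4
    have hpsq : ∃ v : (JJ g K → ZMod p) × YY g K,
        Nat.card (pair (kron (PP g K) (QQ g K)) v).range = p ^ 2 := by
      rcases K with _ | K
      · obtain ⟨t, ht⟩ : ∃ t, g t ≠ 0 := by
          by_contra hcon
          push Not at hcon
          rw [Finset.sum_eq_zero (fun t _ => hcon t)] at hM
          omega
        obtain ⟨t', htt', ht'⟩ : ∃ t', t' ≠ t ∧ g t' ≠ 0 := by
          by_contra hcon
          push Not at hcon
          have h3 := hg t
          rw [Finset.sum_eq_single t (fun b _ hb => hcon b hb)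
            (fun h => absurd (Finset.mem_univ _) h)] at h3
          omega
        let i : Σ t : ZMod p, Fin (g t) := ⟨t, ⟨0, Nat.pos_of_ne_zero ht⟩⟩
        let i' : Σ t : ZMod p, Fin (g t) := ⟨t', ⟨0, Nat.pos_of_ne_zero ht'⟩⟩
        have hii' : i ≠ i' := fun h => htt' (congrArg Sigma.fst h).symm
        refine ⟨(Pi.single (Sum.inl i) 1 + Pi.single (Sum.inl i') 1, 0), card_eq_psq g 0 ?_⟩
        rintro ⟨w₁, w₂⟩
        have hd : t - t' ≠ 0 := sub_ne_zero.2 (fun h => htt' h.symm)
        -- solve `a + b = w₁`, `t a + t' b = w₂`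
        let a : ZMod p := (w₂ - t' * w₁) / (t - t')
        let b : ZMod p := w₁ - a
        refine ⟨(0, (Pi.single i a + Pi.single i' b, 0)), ?_⟩
        have hP : ∀ j, PP g 0 (Pi.single i a + Pi.single i' b, 0) (Sum.inl j) =
            (Pi.single i a + Pi.single i' b : (Σ t : ZMod p, Fin (g t)) → ZMod p) j := fun j => rfl
        have hQ : ∀ j, QQ g 0 (Pi.single i a + Pi.single i' b, 0) (Sum.inl j) =
            j.1 * (Pi.single i a + Pi.single i' b : (Σ t : ZMod p, Fin (g t)) → ZMod p) j :=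
          fun j => rfl
        have hvi : (Pi.single i a + Pi.single i' b : (Σ t : ZMod p, Fin (g t)) → ZMod p) i = a := by
          rw [Pi.add_apply, Pi.single_eq_same, Pi.single_eq_of_ne hii', add_zero]
        have hvi' : (Pi.single i a + Pi.single i' b : (Σ t : ZMod p, Fin (g t)) → ZMod p) i' =
            b := by
          rw [Pi.add_apply, Pi.single_eq_same, Pi.single_eq_of_ne hii'.symm, zero_add]
        rw [pair_kron]
        simp only [zero_dotProduct, sub_zero, add_dotProduct, single_dotProduct, one_mul]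
        rw [hP, hP, hQ, hQ, hvi, hvi']
        ext
        · show a + b = w₁
          simp only [b]; ring
        · show t * a + t' * b = w₂
          simp only [b]
          have : a * (t - t') = w₂ - t' * w₁ := div_mul_cancel₀ _ hd
          linear_combination this
      · refine ⟨(Pi.single (Sum.inr 0) 1, 0), card_eq_psq g (K + 1) ?_⟩
        rintro ⟨w₁, w₂⟩
        refine ⟨(0, (0, Pi.single 0 w₁ + Pi.single 1 w₂)), ?_⟩
        rw [pair_kron]
        simp only [zero_dotProduct, sub_zero, single_dotProduct, one_mul]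
        ext
        · show (Pi.single 0 w₁ + Pi.single 1 w₂ : Fin (K + 2) → ZMod p) 0 = w₁
          simp
        · show (Pi.single 0 w₁ + Pi.single 1 w₂ : Fin (K + 2) → ZMod p) 1 = w₂
          simp
    rintro c (rfl | rfl | rfl)
    · exact h1
    · exact hp'
    · exact hpsq

end constr

/-- The pairs with `B = {1, p, p ^ 2}`. -/
theorem realizable_three {p : ℕ} [hp : Fact p.Prime] {E : Finset ℕ} {M : ℕ} (hM : M ∈ E)
    (hE : ∀ e ∈ E, 1 ≤ e) (hEM : ∀ e ∈ E, e ≤ M) (hcard : E.card ≤ p + 1)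
    (hsum : ∑ e ∈ E, (M - e) ≤ M) :
    Realizable p (insert 1 ((fun e => p ^ e) '' (E : Set ℕ))) {1, p, p ^ 2} := by
  classical
  have hcard' : (E.erase M).card ≤ (Finset.univ : Finset (ZMod p)).card := by
    rw [Finset.card_erase_of_mem hM, Finset.card_univ, ZMod.card]
    omega
  obtain ⟨τ, hτ⟩ : ∃ τ : ℕ → ZMod p, Set.InjOn τ (E.erase M : Finset ℕ) := by
    obtain ⟨f⟩ := Function.Embedding.nonempty_of_card_le
      (α := (E.erase M : Finset ℕ)) (β := ZMod p)
      (by rw [Fintype.card_coe]; exact hcard')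
    refine ⟨fun e => if h : e ∈ E.erase M then f ⟨e, h⟩ else 0, ?_⟩
    intro a ha b hb hab
    have ha' : a ∈ E.erase M := ha
    have hb' : b ∈ E.erase M := hb
    simp only [ha', hb', dif_pos] at hab
    exact congrArg Subtype.val (f.injective hab)
  let g : ZMod p → ℕ := fun t => ∑ e ∈ (E.erase M).filter (fun e => τ e = t), (M - e)
  have hgτ : ∀ e ∈ E.erase M, g (τ e) = M - e := by
    intro e he
    show ∑ e' ∈ (E.erase M).filter (fun e' => τ e' = τ e), (M - e') = M - e
    have : (E.erase M).filter (fun e' => τ e' = τ e) = {e} := by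
      ext e'
      rw [Finset.mem_filter, Finset.mem_singleton]
      constructor
      · rintro ⟨h1, h2⟩
        exact hτ h1 he h2
      · rintro rfl
        exact ⟨he, rfl⟩
    rw [this, Finset.sum_singleton]
  have hg0 : ∀ t, (∀ e ∈ E.erase M, τ e ≠ t) → g t = 0 := by
    intro t ht
    show ∑ e ∈ (E.erase M).filter (fun e => τ e = t), (M - e) = 0
    rw [Finset.filter_eq_empty_iff.2 (fun e he => ht e he), Finset.sum_empty]
  have hsumg : ∑ t, g t = ∑ e ∈ E, (M - e) := by
    rw [← Finset.sum_erase_add _ _ hM, Nat.sub_self, add_zero]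
    exact Finset.sum_fiberwise _ _ _
  let K := M - ∑ t, g t
  have hMK : (∑ t, g t) + K = M := by
    have : ∑ t, g t ≤ M := by rw [hsumg]; exact hsum
    omega
  have hM1 := hE M hM
  refine ⟨GG g K, inferInstance, inferInstance, ?_, ?_, ?_⟩
  · have hV : ∃ m, Nat.card ((JJ g K → ZMod p) × YY g K) = p ^ m := by
      refine ⟨Fintype.card (JJ g K) + ((∑ t, g t) + (K + 1)), ?_⟩
      rw [Nat.card_prod, Nat.card_prod, Nat.card_fun, Nat.card_fun, Nat.card_fun, Nat.card_zmod,
        Nat.card_eq_fintype_card, Nat.card_eq_fintype_card, Nat.card_eq_fintype_card,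
        Fintype.card_sigma, Fintype.card_fin, ← pow_add, ← pow_add]
      congr 3
      simp
    obtain ⟨m, hm⟩ := hV
    exact isPGroup_tw _ hm (n := 2) (by rw [Nat.card_prod, Nat.card_zmod, ← sq])
  · rw [cdSet_GG, hMK]
    ext d
    constructor
    · rintro (rfl | rfl | ⟨t, rfl⟩)
      · left; rfl
      · right; exact ⟨M, hM, rfl⟩
      · right
        by_cases h : ∃ e ∈ E.erase M, τ e = t
        · obtain ⟨e, he, rfl⟩ := h
          have he' := Finset.mem_of_mem_erase he
          refine ⟨e, he', ?_⟩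
          rw [hgτ e he]
          have := hEM e he'
          show p ^ e = p ^ (M - (M - e))
          congr 1
          omega
        · push Not at h
          refine ⟨M, hM, ?_⟩
          rw [hg0 t h, Nat.sub_zero]
    · rintro (rfl | ⟨e, he, rfl⟩)
      · left; rfl
      · right
        by_cases heM : e = M
        · left; rw [heM]
        · right
          refine ⟨τ e, ?_⟩
          rw [hgτ e (Finset.mem_erase.2 ⟨heM, he⟩)]
          have := hEM e he
          show p ^ e = p ^ (M - (M - e))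
          congr 1
          omega
  · apply csSet_GG
    · rw [hMK]; exact hM1
    · intro t
      rw [hMK]
      by_cases h : ∃ e ∈ E.erase M, τ e = t
      · obtain ⟨e, he, rfl⟩ := h
        rw [hgτ e he]
        have := hE e (Finset.mem_of_mem_erase he)
        omega
      · push Not at h
        rw [hg0 t h]
        omega

end

end Pool.Agent.Lib.MP_e0d3d5_al
end

section

section

/-!
The degrees of the irreducible representations of a finite `p`-group are powers of `p`.
-/

set_option autoImplicit false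

namespace Pool.Agent.Lib.MP_e0d3d5_al

open Subgroup
open scoped commutatorElement

/-- The elements acting as scalars. -/
def scal {G : Type} [Group G] {U : Type} [AddCommGroup U] [Module ℂ U]
    (ρ : Representation ℂ G U) : Subgroup G where
  carrier := {g | ∃ c : ℂ, c ≠ 0 ∧ ρ g = c • LinearMap.id}
  one_mem' := ⟨1, one_ne_zero, by rw [map_one, one_smul]; rfl⟩
  mul_mem' := by
    rintro g h ⟨c, hc0, hc⟩ ⟨d, hd0, hd⟩
    refine ⟨c * d, mul_ne_zero hc0 hd0, ?_⟩
    rw [map_mul, hc, hd]
    ext u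
    simp [mul_smul, smul_comm d c u]
  inv_mem' := by
    rintro g ⟨c, hc0, hc⟩
    refine ⟨c⁻¹, inv_ne_zero hc0, ?_⟩
    have h2 : ρ g * ρ g⁻¹ = 1 := by rw [← map_mul, mul_inv_cancel, map_one]
    have h4 : (c⁻¹ • LinearMap.id : U →ₗ[ℂ] U) * ρ g = 1 := by
      rw [hc]
      ext u
      simp [hc0]
    calc ρ g⁻¹ = ((c⁻¹ • LinearMap.id : U →ₗ[ℂ] U) * ρ g) * ρ g⁻¹ := by rw [h4, one_mul]
      _ = c⁻¹ • LinearMap.id := by rw [mul_assoc, h2, mul_one]

lemma scal_normal {G : Type} [Group G] {U : Type} [AddCommGroup U] [Module ℂ U]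
    (ρ : Representation ℂ G U) : (scal ρ).Normal := by
  refine ⟨fun n hn g => ?_⟩
  obtain ⟨c, hc0, hc⟩ := hn
  refine ⟨c, hc0, ?_⟩
  have h2 : ρ g * ρ g⁻¹ = 1 := by rw [← map_mul, mul_inv_cancel, map_one]
  have h3 : ρ g * (c • LinearMap.id : U →ₗ[ℂ] U) = (c • LinearMap.id : U →ₗ[ℂ] U) * ρ g := by
    ext u
    simp
  rw [map_mul, map_mul, hc, h3, mul_assoc, h2, mul_one]

lemma mem_scal_of {G : Type} [Group G] {U : Type} [AddCommGroup U] [Module ℂ U] [Nontrivial U]
    (ρ : Representation ℂ G U) {g : G} {c : ℂ} (hc : ρ g = c • LinearMap.id) : g ∈ scal ρ := by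
  refine ⟨c, ?_, hc⟩
  rintro rfl
  have h2 : ρ g * ρ g⁻¹ = 1 := by rw [← map_mul, mul_inv_cancel, map_one]
  rw [hc, zero_smul, zero_mul] at h2
  exact zero_ne_one h2

/-- The degrees of the irreducible representations of a finite `p`-group are powers of `p`. -/
theorem degree_eq_pow {p : ℕ} [hp : Fact p.Prime] : ∀ (n : ℕ) (G : Type) [Group G] [Finite G],
    IsPGroup p G → Nat.card G = n → ∀ (U : Type) [AddCommGroup U] [Module ℂ U]
    [FiniteDimensional ℂ U] (ρ : Representation ℂ G U), ρ.IsIrreducible →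
    ∃ k, Module.finrank ℂ U = p ^ k := by
  intro n
  induction n using Nat.strong_induction_on with
  | _ n ih =>
  intro G _ _ hG hn U _ _ _ ρ hρ
  have hnt := nontrivial_of_irr ρ hρ
  have hnorm := scal_normal ρ
  by_cases htop : scal ρ = ⊤
  · refine ⟨0, ?_⟩
    have h1 := sq_finrank_eq_index ρ hρ (by
      intro x g
      have : ⁅x, g⁆ ∈ scal ρ := by rw [htop]; trivial
      obtain ⟨c, -, hc⟩ := this
      exact ⟨c, hc⟩)
    have h2 : Rad ρ = ⊤ := by
      rw [eq_top_iff]
      intro x _ g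
      have : x ∈ scal ρ := by rw [htop]; trivial
      obtain ⟨c, -, hc⟩ := this
      rw [hc]
      ext u
      simp
    rw [h2, index_top] at h1
    rw [pow_zero]
    exact Nat.pow_left_injective (n := 2) (by norm_num) (h1.trans (one_pow 2).symm)
  · have hntQ : Nontrivial (G ⧸ scal ρ) := by
      rw [← not_subsingleton_iff_nontrivial]
      intro h
      apply htop
      rw [eq_top_iff]
      intro g _
      rw [← QuotientGroup.eq_one_iff]
      exact Subsingleton.elim _ _
    have hQ : IsPGroup p (G ⧸ scal ρ) := hG.to_quotient _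
    have hcen := hQ.center_nontrivial
    obtain ⟨z, hz⟩ := exists_ne (1 : center (G ⧸ scal ρ))
    obtain ⟨c, hc⟩ := QuotientGroup.mk_surjective (z : G ⧸ scal ρ)
    have hcS : c ∉ scal ρ := by
      intro h
      apply hz
      apply Subtype.ext
      rw [← hc]
      exact (QuotientGroup.eq_one_iff c).2 h
    have hcomm : ∀ g : G, ⁅g, c⁆ ∈ scal ρ := by
      intro g
      rw [← QuotientGroup.eq_one_iff]
      have h1 : ⁅(g : G ⧸ scal ρ), (c : G ⧸ scal ρ)⁆ = 1 := by
        rw [hc]
        exact commutatorElement_eq_one_iff_mul_comm.2 (mem_center_iff.1 z.2 _)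
      exact h1
    choose s hs0 hs using hcomm
    obtain ⟨μ, hμ⟩ := Module.End.exists_eigenvalue (ρ c)
    have h1 := clif_finrank ρ hρ c s hs _ le_rfl (stab_stable ρ c μ) hμ
    have h2 := clif_irr ρ hρ c s hs hμ
    have hne : Stab ρ c ≠ ⊤ := by
      intro h
      apply hcS
      obtain ⟨d, hd⟩ := schur ρ hρ (ρ c) (by
        intro g
        have : g ∈ Stab ρ c := by rw [h]; trivial
        exact ((mem_Stab ρ).1 this).symm)
      exact mem_scal_of ρ hd
    have hlt : Nat.card (Stab ρ c) < n := by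
      rw [← hn]
      have h3 := Subgroup.card_le_card_group (Stab ρ c)
      refine lt_of_le_of_ne h3 (fun h4 => hne ?_)
      exact Subgroup.eq_top_of_card_eq _ h4
    obtain ⟨j, hj⟩ := ih _ hlt (Stab ρ c) (hG.to_subgroup _) rfl _ _ h2
    obtain ⟨i, hi⟩ := hG.index (Stab ρ c)
    exact ⟨i + j, by rw [h1, hj, hi, pow_add]⟩

end Pool.Agent.Lib.MP_e0d3d5_al
end

section

/-!
Finite `p`-groups of class three all of whose class sizes divide `p ^ 2`.
-/

set_option autoImplicit false

namespace Pool.Agent.Lib.MP_e0d3d5_al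

open Subgroup
open scoped commutatorElement

section

variable {G : Type} [Group G]

/-- The union of two proper subgroups is proper. -/
lemma exists_notMem_two {H K : Subgroup G} (hH : H ≠ ⊤) (hK : K ≠ ⊤) :
    ∃ y, y ∉ H ∧ y ∉ K := by
  by_contra hcon
  push Not at hcon
  have hK2 := eq_top_of_compl_subset hH hcon
  exact hK hK2

/-- The data in class three. -/
structure C3 (p : ℕ) (G : Type) [Group G] where
  /-- generator of the derived subgroup modulo the third term of the lower central series -/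
  c : G
  hB : ∀ x : G, (centralizer {x}).index ∣ p ^ 2
  hN : G3 G ≤ center G
  hne : ¬ commutator G ≤ center G
  hc : c ∈ commutator G
  hgen : ∀ u ∈ commutator G, ∃ i : ℤ, ∃ n ∈ G3 G, u = c ^ i * n
  hcp : c ^ p ∈ G3 G

variable {p : ℕ} [hp : Fact p.Prime]

lemma exists_C3 [Finite G] (hGp : IsPGroup p G) (hG : ∀ x : G, (centralizer {x}).index ∣ p ^ 2)
    (hne : ¬ commutator G ≤ center G) : Nonempty (C3 p G) := by
  have hN := G3_le_center hGp hG
  obtain ⟨x, y, h1, h2⟩ := class_three hG hN hne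
  exact ⟨⟨⁅x, y⁆, hG, hN, hne, comm_mem_comm x y, h1, h2⟩⟩

namespace C3

variable (S : C3 p G)
include S

omit hp in
lemma comm_central (g : G) {u : G} (hu : u ∈ commutator G) : ⁅g, u⁆ ∈ center G :=
  S.hN (comm_mem_G3' hu)

omit hp in
lemma hcc (g : G) : ⁅S.c, g⁆ ∈ center G := S.hN (comm_mem_G3 S.hc)

omit hp in
lemma comm_zpow (g : G) (i : ℤ) {n : G} (hn : n ∈ G3 G) : ⁅g, S.c ^ i * n⁆ = ⁅g, S.c⁆ ^ i := by
  have hD : ∀ u ∈ commutator G, ⁅g, u⁆ ∈ center G := fun u hu => S.comm_central g hu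
  have hn' : n ∈ commutator G := by
    have : G3 G ≤ commutator G := Subgroup.commutator_le_left _ _
    exact this hn
  rw [comm_mul_right' hD ((commutator G).zpow_mem S.hc i) hn', comm_zpow_right' hD S.hc,
    comm_eq_one_of_right (S.hN hn) g, mul_one]

omit hp in
lemma cent_c : centralizer {S.c} = centralizer (commutator G : Set G) := by
  ext g
  rw [mem_cent', mem_centralizer_iff]
  constructor
  · intro h u hu
    obtain ⟨i, n, hn, rfl⟩ := S.hgen u hu
    have h1 : ⁅g, S.c ^ i * n⁆ = 1 := by rw [S.comm_zpow g i hn, h, one_zpow]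
    exact (commutatorElement_eq_one_iff_mul_comm.1 h1).symm
  · intro h
    exact commutatorElement_eq_one_iff_mul_comm.2 (h S.c S.hc).symm

omit hp in
lemma exp (g : G) : ⁅g, S.c⁆ ^ p = 1 := by
  have h1 := S.comm_zpow g p (one_mem (G3 G))
  rw [mul_one, zpow_natCast, zpow_natCast] at h1
  rw [← h1]
  exact comm_eq_one_of_right (S.hN S.hcp) g

omit hp in
lemma exp' (g : G) : ⁅S.c, g⁆ ^ p = 1 := by
  rw [← inv_comm, inv_pow, S.exp, inv_one]

omit hp in
lemma G3_eq : G3 G = (cH S.c S.hcc).range.map (center G).subtype := by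
  apply le_antisymm
  · unfold G3
    rw [Subgroup.commutator_le]
    intro u hu g _
    obtain ⟨i, n, hn, rfl⟩ := S.hgen u hu
    rw [← inv_comm, S.comm_zpow g i hn, ← inv_comm S.c g, inv_zpow, inv_inv]
    exact ⟨(cH S.c S.hcc g) ^ i, (cH S.c S.hcc).range.zpow_mem ⟨g, rfl⟩ i, rfl⟩
  · rintro _ ⟨_, ⟨g, rfl⟩, rfl⟩
    exact comm_mem_G3 S.hc

omit hp in
lemma card_G3 : Nat.card (G3 G) = (centralizer {S.c}).index := by
  rw [← card_range_cH S.c S.hcc]
  conv_lhs => rw [S.G3_eq]
  exact Nat.card_congr (Subgroup.equivMapOfInjective _ _ (Subgroup.subtype_injective _)).symm.toEquiv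

omit hp in
lemma exists_of_mem_G3 {n : G} (hn : n ∈ G3 G) : ∃ g, ⁅S.c, g⁆ = n := by
  rw [S.G3_eq] at hn
  obtain ⟨_, ⟨g, rfl⟩, rfl⟩ := hn
  exact ⟨g, rfl⟩

omit hp in
lemma c_notMem : S.c ∉ G3 G := by
  intro h
  apply S.hne
  intro u hu
  obtain ⟨i, n, hn, rfl⟩ := S.hgen u hu
  exact S.hN ((G3 G).mul_mem ((G3 G).zpow_mem h i) hn)

omit hp in
lemma G3_ne_bot : G3 G ≠ ⊥ := by
  intro h
  apply S.hne
  intro u hu
  rw [mem_center_iff]
  intro g
  have h1 : ⁅g, u⁆ ∈ G3 G := comm_mem_G3' hu
  rw [h, mem_bot] at h1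
  exact commutatorElement_eq_one_iff_mul_comm.1 h1

lemma dvd_of_zpow_comm {g : G} (hg : g ∉ centralizer {S.c}) {i : ℤ} (h : ⁅g, S.c⁆ ^ i = 1) :
    (p : ℤ) ∣ i := by
  have h1 : ⁅g, S.c⁆ ≠ 1 := fun h => hg (mem_cent'.2 h)
  rw [← orderOf_eq_prime (S.exp g) h1]
  exact orderOf_dvd_iff_zpow_eq_one.2 h

omit hp in
lemma zpow_mem_G3 {i : ℤ} (h : (p : ℤ) ∣ i) : S.c ^ i ∈ G3 G := by
  obtain ⟨q, rfl⟩ := h
  rw [zpow_mul, zpow_natCast]
  exact (G3 G).zpow_mem S.hcp q

/-- The relative centraliser of an element outside of the centraliser of `c` is abelian modulo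
`G3 G`. -/
lemma relC_abelian {x g h : G} (hx : x ∉ centralizer {S.c}) (hg : g ∈ relC (G3 G) x)
    (hh : h ∈ relC (G3 G) x) : ⁅g, h⁆ ∈ G3 G := by
  have h1 : ⁅x, ⁅g, h⁆⁆ = 1 := comm_comm_eq_one x (relC (G3 G) x)
    (fun g hg => S.hN (mem_relC.1 hg)) hg hh
  obtain ⟨i, n, hn, hi⟩ := S.hgen _ (comm_mem_comm g h)
  rw [hi, S.comm_zpow x i hn] at h1
  rw [hi]
  exact (G3 G).mul_mem (S.zpow_mem_G3 (S.dvd_of_zpow_comm hx h1)) hn

lemma index_relC_eq {x : G} (hx : x ∉ centralizer {S.c}) : (relC (G3 G) x).index = p ∧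
    (centralizer {x}).relIndex (relC (G3 G) x) = p := by
  have h1 := index_of_notMem S.hB S.hN (by rw [← S.cent_c]; exact hx)
  exact ⟨h1.1, h1.2.1⟩

/-- If the centraliser of `c` has index `p ^ 2`, its elements are central modulo `G3 G`. -/
lemma comm_mem_of_cent [Finite G] (h2 : (centralizer {S.c}).index = p ^ 2) {m : G}
    (hm : m ∈ centralizer {S.c}) (g : G) : ⁅m, g⁆ ∈ G3 G := by
  have hp1 := hp.out.one_lt
  have hCtop : centralizer {S.c} ≠ ⊤ := by
    intro h
    rw [h, index_top] at h2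
    have := Nat.one_lt_pow (n := 2) (by norm_num) hp1
    omega
  obtain ⟨x, hx, -⟩ := exists_notMem_two hCtop hCtop
  have hx' := S.index_relC_eq hx
  have hDtop : relC (G3 G) x ≠ ⊤ := by
    intro h
    rw [h, index_top] at hx'
    omega
  obtain ⟨y, hy, hyx⟩ := exists_notMem_two hCtop hDtop
  have hy' := S.index_relC_eq hy
  -- the intersection is central modulo `G3 G`
  have hcen : ∀ h ∈ relC (G3 G) x ⊓ relC (G3 G) y, relC (G3 G) h = ⊤ := by
    intro h hh
    have hle : relC (G3 G) x ≤ relC (G3 G) h := by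
      intro g hg
      rw [mem_relC]
      exact S.relC_abelian hx hh.1 hg
    have hyh : y ∈ relC (G3 G) h := by
      rw [mem_relC, ← inv_comm]
      exact (G3 G).inv_mem (mem_relC.1 hh.2)
    have h3 := Subgroup.index_dvd_of_le hle
    rw [hx'.1] at h3
    rcases (Nat.dvd_prime hp.out).1 h3 with h4 | h4
    · exact index_eq_one.1 h4
    · exfalso
      apply hyx
      have h5 := Subgroup.relIndex_mul_index hle
      rw [h4, hx'.1] at h5
      have h6 : (relC (G3 G) x).relIndex (relC (G3 G) h) = 1 :=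
        Nat.eq_of_mul_eq_mul_right hp.out.pos (by rw [h5, one_mul])
      rw [Subgroup.relIndex_eq_one] at h6
      exact h6 hyh
  have hle : relC (G3 G) x ⊓ relC (G3 G) y ≤ centralizer {S.c} := by
    intro h hh
    rw [S.cent_c]
    apply mem_centralizer_commutator
    intro g
    apply S.hN
    rw [← mem_relC, hcen h hh]
    trivial
  have hidx : (relC (G3 G) x ⊓ relC (G3 G) y).index ≤ p ^ 2 := by
    refine (Subgroup.index_inf_le (H := relC (G3 G) x) (K := relC (G3 G) y)).trans ?_
    rw [hx'.1, hy'.1, sq]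
  have h3 := Subgroup.relIndex_mul_index hle
  rw [h2] at h3
  have h4 : (relC (G3 G) x ⊓ relC (G3 G) y).relIndex (centralizer {S.c}) = 1 := by
    have hpos : 0 < p ^ 2 := pow_pos hp.out.pos 2
    have h5 : (relC (G3 G) x ⊓ relC (G3 G) y).relIndex (centralizer {S.c}) * p ^ 2 ≤ 1 * p ^ 2 := by
      rw [h3, one_mul]; exact hidx
    have h6 := Nat.le_of_mul_le_mul_right h5 hpos
    have h7 : (relC (G3 G) x ⊓ relC (G3 G) y).relIndex (centralizer {S.c}) ≠ 0 := by
      intro h8
      rw [h8, zero_mul] at h3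
      exact (Subgroup.index_ne_zero_of_finite) h3.symm
    omega
  rw [Subgroup.relIndex_eq_one] at h4
  have h5 := hcen m (h4 hm)
  rw [← mem_relC, h5]
  trivial

/-- If the centraliser of `c` has index `p ^ 2` all degrees are at most `p`. -/
theorem finrank_le [Finite G] (h2 : (centralizer {S.c}).index = p ^ 2)
    {U : Type} [AddCommGroup U] [Module ℂ U] [FiniteDimensional ℂ U]
    (ρ : Representation ℂ G U) (hρ : ρ.IsIrreducible) : Module.finrank ℂ U ≤ p := by
  refine finrank_le_of_cent (p := p) S.c S.hcc S.exp' h2 ?_ ρ hρ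
  refine cent_eq (p := p) S.c ?_ ?_ S.exp' h2
  · intro m hm g
    rw [← inv_comm]
    exact (center G).inv_mem (S.hN (S.comm_mem_of_cent h2 hm g))
  · intro m hm y hy
    have h3 := S.index_relC_eq hy
    refine mem_zpowers_of_relIndex_dvd (p := p) y (relC (G3 G) y)
      (fun g hg => S.hN (mem_relC.1 hg)) ?_ ?_ ?_ ?_
    · rw [h3.2]
    · rw [mem_relC]
      exact comm_mem_G3' S.hc
    · rw [mem_relC, ← inv_comm]
      exact (G3 G).inv_mem (S.comm_mem_of_cent h2 hm y)
    · exact fun h => hy (mem_cent'.2 h)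

/-! ### The centraliser of `c` has index `p` -/

omit S in
lemma dvd_of_zpow_mem {K : Subgroup G} {c : G} (hcp : c ^ p ∈ K) (hc : c ∉ K) {i : ℤ}
    (hi : c ^ i ∈ K) : (p : ℤ) ∣ i := by
  by_contra hcon
  have hcop : IsCoprime (p : ℤ) i := (Nat.prime_iff_prime_int.1 hp.out).coprime_iff_not_dvd.2 hcon
  obtain ⟨a, b, hab⟩ := hcop
  apply hc
  have e : c = (c ^ p) ^ a * (c ^ i) ^ b := by
    rw [← zpow_natCast, ← zpow_mul, ← zpow_mul, ← zpow_add, mul_comm (p : ℤ) a, mul_comm i b, hab,
      zpow_one]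
  rw [e]
  exact K.mul_mem (K.zpow_mem hcp a) (K.zpow_mem hi b)

/-- The elements central modulo `G3 G`. -/
def H (_ : C3 p G) : Subgroup G := (center (G ⧸ G3 G)).comap (QuotientGroup.mk' (G3 G))

omit hp in
lemma mem_H {x : G} : x ∈ S.H ↔ ∀ g : G, ⁅x, g⁆ ∈ G3 G := by
  unfold H
  rw [mem_comap, mem_center_iff]
  constructor
  · intro h g
    have h1 := h (g : G ⧸ G3 G)
    rw [← QuotientGroup.eq_one_iff]
    exact commutatorElement_eq_one_iff_mul_comm.2 h1.symm
  · intro h g
    obtain ⟨g, rfl⟩ := QuotientGroup.mk_surjective g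
    have h1 := (QuotientGroup.eq_one_iff _).2 (h g)
    exact (commutatorElement_eq_one_iff_mul_comm.1 h1).symm

section reps

variable {U : Type} [AddCommGroup U] [Module ℂ U] [FiniteDimensional ℂ U]
  (ρ : Representation ℂ G U)

omit S hp [FiniteDimensional ℂ U] in
/-- The elements acting trivially on a subspace. -/
lemma exists_fix (W : Submodule ℂ U) : ∃ K : Subgroup G, ∀ g, g ∈ K ↔ ∀ w ∈ W, ρ g w = w := by
  refine ⟨{ carrier := {g | ∀ w ∈ W, ρ g w = w}
            one_mem' := by intro w _; simp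
            mul_mem' := ?_
            inv_mem' := ?_ }, fun g => Iff.rfl⟩
  · intro g h hg hh w hw
    rw [rho_mul_apply, hh w hw, hg w hw]
  · intro g hg w hw
    have h1 : ρ g⁻¹ (ρ g w) = w := by
      rw [← rho_mul_apply, inv_mul_cancel, map_one]; rfl
    rwa [hg w hw] at h1

omit S hp in
lemma exists_scalar_center (hρ : ρ.IsIrreducible) {z : G} (hz : z ∈ center G) :
    ∃ c : ℂ, ρ z = c • LinearMap.id := by
  apply schur ρ hρ
  intro g
  rw [← Module.End.mul_eq_comp, ← Module.End.mul_eq_comp, ← map_mul, ← map_mul,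
    mem_center_iff.1 hz g]

/-- The representations trivial on `G3 G`. -/
lemma sq_of_trivial [Finite G] (hρ : ρ.IsIrreducible) (ht : ∀ n ∈ G3 G, ρ n = 1) :
    (Module.finrank ℂ U) ^ 2 = 1 ∨ (Module.finrank ℂ U) ^ 2 = S.H.index := by
  obtain ⟨K, hK⟩ := exists_fix ρ ⊤
  have hK' : ∀ g, g ∈ K ↔ ρ g = 1 := by
    intro g
    rw [hK]
    constructor
    · intro h
      ext u
      exact h u trivial
    · intro h u _
      rw [h]; rfl
  have hNK : G3 G ≤ K := fun n hn => (hK' n).2 (ht n hn)
  have hcs : ∃ a : ℂ, ρ S.c = a • LinearMap.id := by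
    apply schur ρ hρ
    intro g
    have h1 : ρ ⁅g, S.c⁆ = 1 := ht _ (comm_mem_G3' S.hc)
    have e : g * S.c = ⁅g, S.c⁆ * (S.c * g) := by rw [commutatorElement_def]; group
    rw [← Module.End.mul_eq_comp, ← Module.End.mul_eq_comp, ← map_mul, ← map_mul, e, map_mul _ _
      (S.c * g), h1, one_mul]
  have hcscal : S.c ∈ scal ρ := by
    have := nontrivial_of_irr ρ hρ
    obtain ⟨a, ha⟩ := hcs
    exact mem_scal_of ρ ha
  have hsc : ∀ x g : G, ∃ a : ℂ, ρ ⁅x, g⁆ = a • LinearMap.id := by
    intro x g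
    obtain ⟨i, n, hn, hi⟩ := S.hgen _ (comm_mem_comm x g)
    obtain ⟨a, -, ha⟩ := (scal ρ).zpow_mem hcscal i
    refine ⟨a, ?_⟩
    rw [hi, map_mul, ht n hn, mul_one, ha]
  have hsq := sq_finrank_eq_index ρ hρ hsc
  rw [hsq]
  by_cases hcK : S.c ∈ K
  · left
    rw [index_eq_one, eq_top_iff]
    intro x _
    rw [mem_Rad]
    intro g
    obtain ⟨i, n, hn, hi⟩ := S.hgen _ (comm_mem_comm x g)
    rw [← hK', hi]
    exact K.mul_mem (K.zpow_mem hcK i) (hNK hn)
  · right
    congr 1
    ext x
    rw [mem_Rad, S.mem_H]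
    constructor
    · intro h g
      obtain ⟨i, n, hn, hi⟩ := S.hgen _ (comm_mem_comm x g)
      have h1 := (hK' _).2 (h g)
      rw [hi] at h1 ⊢
      have h2 : S.c ^ i ∈ K := (K.mul_mem_cancel_right (hNK hn)).1 h1
      exact (G3 G).mul_mem (S.zpow_mem_G3 (dvd_of_zpow_mem (hNK S.hcp) hcK h2)) hn
    · intro h g
      exact ht _ (h g)

open Classical in
/-- The elements of the derived subgroup acting trivially on a suitable eigenspace. -/
noncomputable def Q (S : C3 p G) : Subgroup G := if S.c ^ p = 1 then zpowers S.c else ⊥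

lemma exists_eigenspace [Finite G] (h1 : (centralizer {S.c}).index = p) (hρ : ρ.IsIrreducible)
    {n₀ : G} (hn₀ : n₀ ∈ G3 G) (hn₀' : ρ n₀ ≠ 1) :
    (∀ n ∈ G3 G, ρ n = 1 → n = 1) ∧ ∃ μ : ℂ, Module.End.eigenspace (ρ S.c) μ ≠ ⊥ ∧
      ∀ u ∈ commutator G,
        (∀ w ∈ Module.End.eigenspace (ρ S.c) μ, ρ u w = w) ↔ u ∈ S.Q := by
  have hnt := nontrivial_of_irr ρ hρ
  have hcard : Nat.card (G3 G) = p := by rw [S.card_G3, h1]
  have hexpN : ∀ n ∈ G3 G, n ^ p = 1 := by
    intro n hn
    have h2 : (⟨n, hn⟩ : G3 G) ^ p = 1 := by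
      rw [← hcard]; exact pow_card_eq_one'
    exact congrArg Subtype.val h2
  have hgenN : ∀ n ∈ G3 G, n ≠ 1 → ∀ m ∈ G3 G, m ∈ zpowers n := by
    intro n hn hn1 m hm
    have h2 := mem_zpowers_of_prime_card (h := hcard) (g := (⟨n, hn⟩ : G3 G))
      (g' := (⟨m, hm⟩ : G3 G)) (fun h => hn1 (congrArg Subtype.val h))
    obtain ⟨k, hk⟩ := mem_zpowers_iff.1 h2
    rw [mem_zpowers_iff]
    exact ⟨k, by simpa using congrArg Subtype.val hk⟩
  have hfaith : ∀ n ∈ G3 G, ρ n = 1 → n = 1 := by
    intro n hn h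
    by_contra hn1
    apply hn₀'
    obtain ⟨K, hK⟩ := exists_fix ρ ⊤
    have h3 : n ∈ K := (hK n).2 (fun w _ => by rw [h]; rfl)
    obtain ⟨k, rfl⟩ := mem_zpowers_iff.1 (hgenN n hn hn1 n₀ hn₀)
    have h4 := (hK _).1 (K.zpow_mem h3 k)
    ext u
    exact h4 u trivial
  refine ⟨hfaith, ?_⟩
  have hscN : ∀ n ∈ G3 G, ∃ a : ℂ, ρ n = a • LinearMap.id := fun n hn =>
    exists_scalar_center ρ hρ (S.hN hn)
  -- a scalar acting trivially on a nonzero subspace
  have htriv : ∀ (W : Submodule ℂ U), W ≠ ⊥ → ∀ n ∈ G3 G, (∀ w ∈ W, ρ n w = w) → n = 1 := by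
    intro W hW n hn h
    apply hfaith n hn
    obtain ⟨a, ha⟩ := hscN n hn
    obtain ⟨w, hw, hw0⟩ := Submodule.exists_mem_ne_zero_of_ne_bot hW
    have h3 := h w hw
    rw [ha] at h3
    have h4 : a • w = (1 : ℂ) • w := by rw [one_smul]; exact h3
    have h5 : a = 1 := smul_left_injective ℂ hw0 h4
    rw [ha, h5, one_smul]; rfl
  by_cases hcp : S.c ^ p = 1
  · have hQ : S.Q = zpowers S.c := if_pos hcp
    have hW : Module.End.eigenspace (ρ S.c) 1 ≠ ⊥ := by
      -- `1` is an eigenvalue
      obtain ⟨μ, hμ⟩ := Module.End.exists_eigenvalue (ρ S.c)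
      obtain ⟨v, hv⟩ := hμ.exists_hasEigenvector
      have hμp : μ ^ p = 1 := by
        have h3 := hv.pow_apply p
        rw [← map_pow, hcp, map_one] at h3
        have h4 : (μ ^ p) • v = (1 : ℂ) • v := by rw [one_smul]; exact h3.symm
        exact smul_left_injective ℂ hv.2 h4
      have hμ0 : μ ≠ 0 := by
        rintro rfl
        rw [zero_pow hp.out.ne_zero] at hμp
        exact zero_ne_one hμp
      obtain ⟨g₁, hg₁⟩ : ∃ g₁ : G, ⁅S.c, g₁⁆ ≠ 1 := by
        by_contra hcon
        push Not at hcon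
        apply S.G3_ne_bot
        rw [eq_bot_iff]
        intro n hn
        obtain ⟨g, rfl⟩ := S.exists_of_mem_G3 hn
        exact hcon g
      obtain ⟨ζ, hζ⟩ := hscN _ (comm_mem_G3 (g := g₁) S.hc)
      have hζ1 : ζ ≠ 1 := by
        rintro rfl
        apply hg₁
        apply hfaith _ (comm_mem_G3 S.hc)
        rw [hζ, one_smul]; rfl
      have hζpow : ∀ i : ℕ, ρ (⁅S.c, g₁⁆ ^ i) = (ζ ^ i) • LinearMap.id := by
        intro i
        rw [map_pow, hζ, smul_pow]
        congr 1
        exact one_pow i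
      have hζp : ζ ^ p = 1 := by
        apply scalar_inj (U := U)
        rw [← hζpow, S.exp', map_one, one_smul]; rfl
      have hprim : IsPrimitiveRoot ζ p := by
        have h6 : orderOf ζ = p := orderOf_eq_prime hζp hζ1
        rw [← h6]
        exact IsPrimitiveRoot.orderOf ζ
      have : NeZero p := ⟨hp.out.ne_zero⟩
      obtain ⟨i, -, hi⟩ := hprim.eq_pow_of_pow_eq_one (ξ := μ⁻¹) (by rw [inv_pow, hμp, inv_one])
      have hcm : ⁅S.c, g₁ ^ i⁆ = ⁅S.c, g₁⁆ ^ i := by
        have := congrArg Subtype.val (map_pow (cH S.c S.hcc) g₁ i)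
        exact this
      have hne : ρ (g₁ ^ i) v ≠ 0 := by
        intro h0
        apply hv.2
        have h3 : ρ (g₁ ^ i)⁻¹ (ρ (g₁ ^ i) v) = v := by
          rw [← rho_mul_apply, inv_mul_cancel, map_one]; rfl
        rw [← h3, h0, map_zero]
      intro hbot
      apply hne
      have hmem : ρ (g₁ ^ i) v ∈ Module.End.eigenspace (ρ S.c) 1 := by
        rw [Module.End.mem_eigenspace_iff, one_smul]
        have e : S.c * g₁ ^ i = ⁅S.c, g₁ ^ i⁆ * (g₁ ^ i * S.c) := by
          rw [commutatorElement_def]; group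
        rw [← rho_mul_apply, e, rho_mul_apply, hcm, hζpow, rho_mul_apply,
          hv.apply_eq_smul, map_smul, hi, LinearMap.smul_apply, LinearMap.id_apply, smul_smul,
          inv_mul_cancel₀ hμ0, one_smul]
      rw [hbot] at hmem
      exact hmem
    refine ⟨1, hW, ?_⟩
    obtain ⟨K, hK⟩ := exists_fix ρ (Module.End.eigenspace (ρ S.c) 1)
    have hcK : S.c ∈ K := by
      rw [hK]
      intro w hw
      rw [Module.End.mem_eigenspace_iff.1 hw, one_smul]
    intro u hu
    rw [← hK, hQ]
    obtain ⟨i, n, hn, rfl⟩ := S.hgen u hu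
    constructor
    · intro h
      have h3 : n ∈ K := (K.mul_mem_cancel_left (K.zpow_mem hcK i)).1 h
      rw [htriv _ hW n hn ((hK n).1 h3), mul_one]
      exact (zpowers S.c).zpow_mem (mem_zpowers _) i
    · intro h
      have h3 : n ∈ zpowers S.c :=
        ((zpowers S.c).mul_mem_cancel_left ((zpowers S.c).zpow_mem (mem_zpowers _) i)).1 h
      obtain ⟨j, rfl⟩ := mem_zpowers_iff.1 h3
      obtain ⟨q, rfl⟩ := dvd_of_zpow_mem S.hcp S.c_notMem hn
      rw [zpow_mul, zpow_natCast, hcp, one_zpow, mul_one]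
      exact K.zpow_mem hcK i
  · have hQ : S.Q = ⊥ := if_neg hcp
    obtain ⟨μ, hμ⟩ := Module.End.exists_eigenvalue (ρ S.c)
    refine ⟨μ, hμ, ?_⟩
    obtain ⟨K, hK⟩ := exists_fix ρ (Module.End.eigenspace (ρ S.c) μ)
    intro u hu
    rw [← hK, hQ, mem_bot]
    constructor
    · intro h
      obtain ⟨i, n, hn, rfl⟩ := S.hgen u hu
      obtain ⟨k, rfl⟩ := mem_zpowers_iff.1 (hgenN _ S.hcp hcp n hn)
      have hbK : S.c ^ p ∉ K := fun h3 => hcp (htriv _ hμ _ S.hcp ((hK _).1 h3))
      have hbp : (S.c ^ p) ^ p ∈ K := by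
        rw [hexpN _ S.hcp]
        exact one_mem _
      have e : S.c ^ i * (S.c ^ p) ^ k = S.c ^ (i + p * k) := by
        rw [zpow_add, zpow_mul, zpow_natCast]
      rw [e] at h ⊢
      have h4 : (S.c ^ p) ^ (i + p * k) ∈ K := by
        rw [← zpow_natCast, ← zpow_mul, mul_comm, zpow_mul]
        exact K.zpow_mem h p
      obtain ⟨q, hq⟩ := dvd_of_zpow_mem hbp hbK h4
      rw [hq, zpow_mul, zpow_natCast] at h ⊢
      obtain ⟨r, rfl⟩ := dvd_of_zpow_mem hbp hbK h
      rw [zpow_mul, zpow_natCast, hexpN _ S.hcp, one_zpow]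
    · rintro rfl
      exact one_mem _

/-- The representations nontrivial on `G3 G` all have the same degree. -/
lemma sq_of_nontrivial [Finite G] (h1 : (centralizer {S.c}).index = p) (hρ : ρ.IsIrreducible)
    {n₀ : G} (hn₀ : n₀ ∈ G3 G) (hn₀' : ρ n₀ ≠ 1) :
    ∃ R : Subgroup G, (∀ x, x ∈ R ↔ x ∈ centralizer {S.c} ∧
      ∀ g ∈ centralizer {S.c}, ⁅x, g⁆ ∈ S.Q) ∧
    (Module.finrank ℂ U) ^ 2 = p ^ 2 * R.relIndex (centralizer {S.c}) := by
  have hnt := nontrivial_of_irr ρ hρ
  obtain ⟨hfaith, μ, hμ, hQ⟩ := S.exists_eigenspace ρ h1 hρ hn₀ hn₀'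
  have hStab : Stab ρ S.c = centralizer {S.c} := by
    ext g
    rw [mem_Stab', mem_cent']
    constructor
    · exact fun h => hfaith _ (comm_mem_G3' S.hc) h
    · intro h
      rw [h, map_one]
  have hscN : ∀ n ∈ G3 G, ∃ a : ℂ, ρ n = a • LinearMap.id := fun n hn =>
    exists_scalar_center ρ hρ (S.hN hn)
  have hsc : ∀ g : G, ∃ a : ℂ, ρ ⁅g, S.c⁆ = a • LinearMap.id := fun g =>
    hscN _ (comm_mem_G3' S.hc)
  choose s hs using hsc
  have hfin := clif_finrank ρ hρ S.c s hs _ le_rfl (stab_stable ρ S.c μ) hμ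
  have hirr := clif_irr ρ hρ S.c s hs hμ
  set W := Module.End.eigenspace (ρ S.c) μ with hWdef
  set σ := restr ρ (Stab ρ S.c) W (stab_stable ρ S.c μ) with hσdef
  have hcstab : S.c ∈ Stab ρ S.c := rfl
  have hNstab : ∀ n ∈ G3 G, n ∈ Stab ρ S.c := by
    intro n hn
    rw [hStab, mem_cent]
    exact comm_eq_one_of_right (S.hN hn) _
  have hcscal : (⟨S.c, hcstab⟩ : Stab ρ S.c) ∈ scal σ := by
    have := nontrivial_of_irr σ hirr
    apply mem_scal_of σ (c := μ)
    ext w
    exact Module.End.mem_eigenspace_iff.1 w.2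
  have hsc2 : ∀ x g : Stab ρ S.c, ∃ a : ℂ, σ ⁅x, g⁆ = a • LinearMap.id := by
    intro x g
    obtain ⟨i, n, hn, hi⟩ := S.hgen _ (comm_mem_comm (x : G) g)
    have e : ⁅x, g⁆ = (⟨S.c, hcstab⟩ : Stab ρ S.c) ^ i * ⟨n, hNstab n hn⟩ := by
      apply Subtype.ext
      have e1 : ((⁅x, g⁆ : Stab ρ S.c) : G) = ⁅(x : G), (g : G)⁆ := rfl
      rw [e1, hi]
      rfl
    have hnscal : (⟨n, hNstab n hn⟩ : Stab ρ S.c) ∈ scal σ := by
      have := nontrivial_of_irr σ hirr
      obtain ⟨a, ha⟩ := hscN n hn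
      apply mem_scal_of σ (c := a)
      ext w
      show (ρ n w : U) = a • w
      rw [ha]; rfl
    obtain ⟨a, -, ha⟩ := (scal σ).mul_mem ((scal σ).zpow_mem hcscal i) hnscal
    exact ⟨a, by rw [e, ha]⟩
  have hsq := sq_finrank_eq_index σ hirr hsc2
  refine ⟨(Rad σ).map (Stab ρ S.c).subtype, ?_, ?_⟩
  · intro x
    rw [← hStab]
    constructor
    · rintro ⟨x, hx, rfl⟩
      refine ⟨x.2, fun g hg => ?_⟩
      have h2 : σ ⁅x, (⟨g, hg⟩ : Stab ρ S.c)⁆ = 1 := (mem_Rad σ).1 hx _
      rw [← hQ _ (comm_mem_comm _ _)]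
      intro w hw
      have h3 := congrArg Subtype.val (LinearMap.congr_fun h2 ⟨w, hw⟩)
      exact h3
    · rintro ⟨hx, h⟩
      refine ⟨⟨x, hx⟩, ?_, rfl⟩
      rw [SetLike.mem_coe, mem_Rad]
      intro g
      ext w
      have h3 := (hQ _ (comm_mem_comm x g)).2 (h g g.2) w w.2
      exact h3
  · rw [hfin, mul_pow, hsq, ← hStab]
    have hi : (Stab ρ S.c).index = p := by rw [hStab, h1]
    rw [hi]
    congr 1
    rw [Subgroup.relIndex, Subgroup.subgroupOf,
      Subgroup.comap_map_eq_self_of_injective (Subgroup.subtype_injective _)]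

end reps

/-- At most two squares of nonlinear degrees when the centraliser of `c` has index `p`. -/
theorem two_degrees [Finite G] (h1 : (centralizer {S.c}).index = p) :
    ∃ D₁ D₂ : ℕ, ∀ d ∈ cdSet G, d ^ 2 = 1 ∨ d ^ 2 = D₁ ∨ d ^ 2 = D₂ := by
  by_cases hex : ∃ (U : Type) (_ : AddCommGroup U) (_ : Module ℂ U) (_ : FiniteDimensional ℂ U)
    (ρ : Representation ℂ G U), ρ.IsIrreducible ∧ ∃ n₀ ∈ G3 G, ρ n₀ ≠ 1
  · obtain ⟨U₀, _, _, _, ρ₀, hρ₀, n₀, hn₀, hn₀'⟩ := hex
    obtain ⟨R₀, hR₀, hd₀⟩ := S.sq_of_nontrivial ρ₀ h1 hρ₀ hn₀ hn₀'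
    refine ⟨S.H.index, p ^ 2 * R₀.relIndex (centralizer {S.c}), ?_⟩
    rintro d ⟨U, _, _, _, ρ, hρ, rfl⟩
    by_cases h : ∃ n ∈ G3 G, ρ n ≠ 1
    · obtain ⟨n, hn, hn'⟩ := h
      obtain ⟨R, hR, hd⟩ := S.sq_of_nontrivial ρ h1 hρ hn hn'
      right; right
      rw [hd]
      have : R = R₀ := by
        ext x
        rw [hR, hR₀]
      rw [this]
    · push Not at h
      rcases S.sq_of_trivial ρ hρ h with h2 | h2
      · left; exact h2
      · right; left; exact h2
  · push Not at hex
    refine ⟨S.H.index, 1, ?_⟩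
    rintro d ⟨U, _, _, _, ρ, hρ, rfl⟩
    rcases S.sq_of_trivial ρ hρ (hex U _ _ inferInstance ρ hρ) with h2 | h2
    · left; exact h2
    · right; left; exact h2

end C3

end

end Pool.Agent.Lib.MP_e0d3d5_al
end

section

/-!
The ranks in a pencil of alternating forms.
-/

set_option autoImplicit false

namespace Pool.Agent.Lib.MP_e0d3d5_al

open Module

section

variable {K V : Type} [Field K] [AddCommGroup V] [Module K V] [FiniteDimensional K V]

/-- The ranks in a pencil of bilinear forms spanned by `A` and the alternating form `B`. -/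
theorem pencil (A B : V →ₗ[K] V →ₗ[K] K) (hB : ∀ v, B v v = 0) (T : Finset K) :
    ∑ t ∈ T, (finrank K (LinearMap.range B) - finrank K (LinearMap.range (A + t • B))) ≤
      finrank K (LinearMap.range B) := by
  classical
  have hanti : ∀ u v, B u v = - B v u := by
    intro u v
    have h1 := hB (u + v)
    simp only [map_add, LinearMap.add_apply, hB, zero_add, add_zero] at h1
    exact eq_neg_of_add_eq_zero_right h1
  obtain ⟨U, hU⟩ := Submodule.exists_isCompl (LinearMap.ker B)
  -- dimension of `U`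
  have hdimU : finrank K U = finrank K (LinearMap.range B) := by
    have h1 := Submodule.finrank_add_eq_of_isCompl hU
    have h2 := LinearMap.finrank_range_add_finrank_ker B
    omega
  -- the restricted forms
  let res : (V →ₗ[K] V →ₗ[K] K) → (U →ₗ[K] Dual K U) := fun F =>
    (Dual.transpose (R := K) U.subtype) ∘ₗ F ∘ₗ U.subtype
  have hres : ∀ F (u v : U), res F u v = F u v := fun F u v => rfl
  have hinj : Function.Injective (res B) := by
    rw [← LinearMap.ker_eq_bot, LinearMap.ker_eq_bot']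
    intro u hu
    have h1 : (u : V) ∈ LinearMap.ker B := by
      rw [LinearMap.mem_ker]
      ext v
      obtain ⟨n, hn, w, hw, rfl⟩ := Submodule.mem_sup.1
        (show v ∈ LinearMap.ker B ⊔ U by rw [hU.sup_eq_top]; trivial)
      have h2 : B u n = 0 := by rw [hanti, LinearMap.mem_ker.1 hn]; simp
      have h3 : B u w = 0 := LinearMap.congr_fun hu ⟨w, hw⟩
      rw [map_add, h2, h3, add_zero]
      rfl
    have h4 : (u : V) ∈ LinearMap.ker B ⊓ U := ⟨h1, u.2⟩
    rw [hU.inf_eq_bot] at h4
    exact Subtype.ext h4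
  let e : U ≃ₗ[K] Dual K U := LinearEquiv.ofInjectiveOfFinrankEq (res B) hinj
    (by rw [Subspace.dual_finrank_eq])
  have he : ∀ u, e u = res B u := fun u => rfl
  let F : Module.End K U := e.symm.toLinearMap ∘ₗ res A
  -- the eigenspaces
  have hker : ∀ t : K, LinearMap.ker (res (A + t • B)) ≤ End.eigenspace F (-t) := by
    intro t u hu
    rw [End.mem_eigenspace_iff]
    show e.symm (res A u) = (-t) • u
    rw [LinearEquiv.symm_apply_eq, map_smul, he]
    have h1 : res (A + t • B) u = 0 := hu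
    have h2 : res (A + t • B) u = res A u + t • res B u := rfl
    rw [h2] at h1
    have h3 := eq_neg_of_add_eq_zero_left h1
    rw [h3]
    exact (neg_smul t (res B u)).symm
  have hdim : ∀ t : K, finrank K (LinearMap.range B) - finrank K (LinearMap.range (A + t • B)) ≤
      finrank K (End.eigenspace F (-t)) := by
    intro t
    have h1 := Submodule.finrank_mono (hker t)
    have h2 := LinearMap.finrank_range_add_finrank_ker (res (A + t • B))
    have h3 : finrank K (LinearMap.range (res (A + t • B))) ≤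
        finrank K (LinearMap.range (A + t • B)) := by
      have h4 : LinearMap.range (res (A + t • B)) ≤
          (LinearMap.range (A + t • B)).map (Dual.transpose (R := K) U.subtype) := by
        rintro _ ⟨u, rfl⟩
        exact ⟨(A + t • B) u, ⟨u, rfl⟩, rfl⟩
      exact (Submodule.finrank_mono h4).trans (Submodule.finrank_map_le _ _)
    omega
  refine (Finset.sum_le_sum (fun t _ => hdim t)).trans ?_
  rw [← hdimU]
  -- independence
  have hind : iSupIndep (fun t : K => End.eigenspace F (-t)) :=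
    (End.eigenspaces_iSupIndep F).comp neg_injective
  rw [iSupIndep_iff_finsetSum_eq_zero_imp_eq_zero] at hind
  let Φ : ((t : T) → End.eigenspace F (-(t : K))) →ₗ[K] U :=
    ∑ t : T, (End.eigenspace F (-(t : K))).subtype ∘ₗ LinearMap.proj t
  have hΦ : Function.Injective Φ := by
    rw [← LinearMap.ker_eq_bot, LinearMap.ker_eq_bot']
    intro w hw
    have h1 : ∑ t : T, ((w t : End.eigenspace F (-(t : K))) : U) = 0 := by
      have h2 : Φ w = ∑ t : T, ((w t : End.eigenspace F (-(t : K))) : U) := by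
        simp only [Φ, LinearMap.sum_apply]
        rfl
      rw [← h2, hw]
    let v : K → U := fun t => if h : t ∈ T then (w ⟨t, h⟩ : U) else 0
    have h3 : ∑ t ∈ T, v t = 0 := by
      rw [← h1, ← Finset.sum_coe_sort T]
      apply Finset.sum_congr rfl
      intro t _
      simp only [v, t.2, dif_pos]
    have h4 := hind T v (by
      intro t ht
      simp only [v, ht, dif_pos]
      exact (w ⟨t, ht⟩).2) h3
    funext t
    have h5 := h4 t t.2
    simp only [v, t.2, dif_pos] at h5
    exact Subtype.ext h5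
  have h1 := LinearMap.finrank_le_finrank_of_injective hΦ
  rw [Module.finrank_pi_fintype] at h1
  rw [← Finset.sum_coe_sort T]
  exact h1

lemma range_smul_eq {X Y : Type} [AddCommGroup X] [Module K X] [AddCommGroup Y] [Module K Y]
    (f : X →ₗ[K] Y) {c : K} (hc : c ≠ 0) : LinearMap.range (c • f) = LinearMap.range f := by
  apply le_antisymm
  · rintro _ ⟨x, rfl⟩
    exact ⟨c • x, by simp⟩
  · rintro _ ⟨x, rfl⟩
    exact ⟨c⁻¹ • x, by simp [hc]⟩

/-- A functional on a plane which vanishes where another one does is a multiple of it. -/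
lemma exists_smul_of_plane {W : Type} [AddCommGroup W] [Module K W] [FiniteDimensional K W]
    (hW : finrank K W = 2) {φ : W →ₗ[K] K} (hφ : φ ≠ 0) {w : W} (hw : w ≠ 0) (hw0 : φ w = 0)
    (f : W →ₗ[K] K) (hf : f w = 0) : ∃ c : K, f = c • φ := by
  obtain ⟨u, hu⟩ : ∃ u, φ u ≠ 0 := by
    by_contra hcon
    push Not at hcon
    exact hφ (LinearMap.ext hcon)
  have hker : LinearMap.ker φ = Submodule.span K {w} := by
    symm
    apply Submodule.eq_of_le_of_finrank_le
    · rw [Submodule.span_singleton_le_iff_mem]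
      exact hw0
    · rw [finrank_span_singleton hw]
      have h1 := LinearMap.finrank_range_add_finrank_ker φ
      have h2 : 0 < finrank K (LinearMap.range φ) := by
        rw [Module.finrank_pos_iff]
        exact ⟨⟨⟨φ u, u, rfl⟩, 0, fun h => hu (congrArg Subtype.val h)⟩⟩
      omega
  refine ⟨f u / φ u, ?_⟩
  ext v
  have h1 : v - (φ v / φ u) • u ∈ LinearMap.ker φ := by
    rw [LinearMap.mem_ker, map_sub, map_smul, smul_eq_mul, div_mul_cancel₀ _ hu, sub_self]
  rw [hker, Submodule.mem_span_singleton] at h1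
  obtain ⟨a, ha⟩ := h1
  have h2 : v = a • w + (φ v / φ u) • u := by rw [ha]; abel
  have h3 : f v = (φ v / φ u) * f u := by
    conv_lhs => rw [h2]
    rw [map_add, map_smul, hf, smul_zero, zero_add, map_smul, smul_eq_mul]
  rw [h3, LinearMap.smul_apply, smul_eq_mul]
  field_simp

/-- The possible ranks of the forms `φ ∘ β` where `β` has values in a plane. -/
theorem pencil_family [Fintype K] {W : Type} [AddCommGroup W] [Module K W]
    [FiniteDimensional K W] (β : V →ₗ[K] V →ₗ[K] W) (halt : ∀ v, β v v = 0)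
    (hW : finrank K W = 2) (E : Finset ℕ) (φ : ℕ → (W →ₗ[K] K)) (hφ : ∀ e ∈ E, φ e ≠ 0)
    (hr : ∀ e ∈ E, finrank K (LinearMap.range (β.compr₂ (φ e))) = 2 * e) {M : ℕ} (hM : M ∈ E) :
    E.card ≤ Fintype.card K + 1 ∧ ∑ e ∈ E, (M - e) ≤ M := by
  classical
  obtain ⟨w, hw, hw0⟩ : ∃ w, w ≠ 0 ∧ φ M w = 0 := by
    have h1 := LinearMap.finrank_range_add_finrank_ker (φ M)
    have h2 : finrank K (LinearMap.range (φ M)) ≤ 1 := by
      have := Submodule.finrank_le (LinearMap.range (φ M))
      rwa [finrank_self] at this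
    have h3 : 0 < finrank K (LinearMap.ker (φ M)) := by omega
    have h4 : Nontrivial (LinearMap.ker (φ M)) := Module.finrank_pos_iff.1 h3
    obtain ⟨x, hx⟩ := exists_ne (0 : LinearMap.ker (φ M))
    exact ⟨x, fun h => hx (Subtype.ext h), x.2⟩
  have hcompr : ∀ (c : K) (f : W →ₗ[K] K), β.compr₂ (c • f) = c • β.compr₂ f := by
    intro c f
    ext u v
    simp
  have hne : ∀ e ∈ E, e ≠ M → φ e w ≠ 0 := by
    intro e he heM h0
    obtain ⟨c, hc⟩ := exists_smul_of_plane hW (hφ M hM) hw hw0 (φ e) h0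
    have hc0 : c ≠ 0 := by
      rintro rfl
      rw [zero_smul] at hc
      exact hφ e he hc
    have h1 := hr e he
    rw [hc, hcompr, range_smul_eq _ hc0, hr M hM] at h1
    omega
  by_cases hE : ∃ e₀ ∈ E, e₀ ≠ M
  · obtain ⟨e₀, he₀, he₀M⟩ := hE
    let ψ : ℕ → (W →ₗ[K] K) := fun e => (φ e w)⁻¹ • φ e
    have hψw : ∀ e ∈ E, e ≠ M → ψ e w = 1 := by
      intro e he heM
      show (φ e w)⁻¹ * φ e w = 1
      exact inv_mul_cancel₀ (hne e he heM)
    have hψr : ∀ e ∈ E, e ≠ M → finrank K (LinearMap.range (β.compr₂ (ψ e))) = 2 * e := by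
      intro e he heM
      rw [← hr e he, hcompr, range_smul_eq _ (inv_ne_zero (hne e he heM))]
    have hτ : ∀ e, ∃ c : K, e ∈ E → e ≠ M → ψ e - ψ e₀ = c • φ M := by
      intro e
      by_cases h : e ∈ E ∧ e ≠ M
      · obtain ⟨c, hc⟩ := exists_smul_of_plane hW (hφ M hM) hw hw0 (ψ e - ψ e₀) (by
          rw [LinearMap.sub_apply, hψw e h.1 h.2, hψw e₀ he₀ he₀M, sub_self])
        exact ⟨c, fun _ _ => hc⟩
      · exact ⟨0, fun h1 h2 => absurd ⟨h1, h2⟩ h⟩
    choose τ hτ using hτ
    have hrank : ∀ e ∈ E.erase M, finrank K (LinearMap.range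
        (β.compr₂ (ψ e₀) + τ e • β.compr₂ (φ M))) = 2 * e := by
      intro e he
      rw [Finset.mem_erase] at he
      have h1 : ψ e = ψ e₀ + τ e • φ M := by rw [← hτ e he.2 he.1]; abel
      rw [← hψr e he.2 he.1, h1]
      congr 2
    have hinj : Set.InjOn τ (E.erase M : Finset ℕ) := by
      intro e he e' he' h
      have h1 := hrank e he
      have h2 := hrank e' he'
      rw [h, h2] at h1
      omega
    have hmain := pencil (β.compr₂ (ψ e₀)) (β.compr₂ (φ M)) (by
      intro v
      simp [halt]) ((E.erase M).image τ)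
    rw [Finset.sum_image hinj, hr M hM] at hmain
    have hsum : ∑ e ∈ E.erase M, (2 * M - finrank K (LinearMap.range
        (β.compr₂ (ψ e₀) + τ e • β.compr₂ (φ M)))) = 2 * ∑ e ∈ E.erase M, (M - e) := by
      rw [Finset.mul_sum]
      apply Finset.sum_congr rfl
      intro e he
      rw [hrank e he]
      omega
    rw [hsum] at hmain
    constructor
    · have h1 : ((E.erase M).image τ).card ≤ Fintype.card K := Finset.card_le_univ _
      rw [Finset.card_image_of_injOn hinj, Finset.card_erase_of_mem hM] at h1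
      omega
    · rw [← Finset.sum_erase_add _ _ hM]
      omega
  · push Not at hE
    have hEM : E = {M} := by
      ext e
      rw [Finset.mem_singleton]
      constructor
      · exact hE e
      · rintro rfl
        exact hM
    rw [hEM]
    simp

end

end Pool.Agent.Lib.MP_e0d3d5_al
end
end
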