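import Mathlib
import Pool.Agent.Lib.MP_e0d3d5_al.Pcube
import Pool.Agent.Lib.MP_e0d3d5_al.Pencil
import Pool.Agent.Lib.MP_e0d3d5_al.Camina

section

/-!
Finite `p`-groups of class two all of whose class sizes divide `p ^ 2` and whose derived subgroup
has more than `p ^ 2` elements.
-/

set_option autoImplicit false

namespace Pool.Agent.Lib.MP_e0d3d5_al

open Subgroup
open scoped commutatorElement

section

variable {G : Type} [Group G]

/-- The commutator map in class two. -/
def kap (h2 : commutator G ≤ center G) (x : G) : G →* center G :=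
  cH x (fun g => h2 (comm_mem_comm x g))

lemma kap_apply (h2 : commutator G ≤ center G) (x g : G) : (kap h2 x g : G) = ⁅x, g⁆ := rfl

lemma card_kap (h2 : commutator G ≤ center G) (x : G) :
    Nat.card (kap h2 x).range = (centralizer {x}).index := card_range_cH x _

lemma kap_mul_left (h2 : commutator G ≤ center G) (x y g : G) :
    kap h2 (x * y) g = kap h2 x g * kap h2 y g := by
  apply Subtype.ext
  exact comm_mul_left h2 x y g

lemma kap_symm (h2 : commutator G ≤ center G) (x y : G) : kap h2 y x = (kap h2 x y)⁻¹ := by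
  apply Subtype.ext
  exact (inv_comm x y).symm

lemma kap_self (h2 : commutator G ≤ center G) (x : G) : kap h2 x x = 1 := by
  apply Subtype.ext
  exact commutatorElement_self x

lemma mem_cent_kap (h2 : commutator G ≤ center G) {x g : G} :
    g ∈ centralizer {x} ↔ kap h2 x g = 1 := by
  rw [mem_cent, Subtype.ext_iff]
  rfl

lemma card_commutator_le (h2 : commutator G ≤ center G) [Finite G] (T : Subgroup (center G))
    (h : ∀ x g, kap h2 x g ∈ T) : Nat.card (commutator G) ≤ Nat.card T := by
  have h1 : commutator G ≤ T.map (center G).subtype := by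
    apply commutator_le_of
    intro a b
    exact ⟨kap h2 a b, h a b, rfl⟩
  refine (Subgroup.card_le_of_le h1).trans ?_
  exact le_of_eq (Nat.card_congr (Subgroup.equivMapOfInjective _ _
    (Subgroup.subtype_injective _)).symm.toEquiv)

variable {p : ℕ} [hp : Fact p.Prime]

/-- Intermediate orders in a group of order dividing `p ^ 2`. -/
lemma card_eq_of_between {C : Type} [Group C] [Finite C] {A B D : Subgroup C}
    (hD : Nat.card D ∣ p ^ 2) (hBD : B ≤ D) (hAB : A ≤ B) (hA : A ≠ ⊥) (hne : A ≠ B) :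
    Nat.card A = p ∧ Nat.card B = p ^ 2 ∧ B = D := by
  have h1 : Nat.card B ∣ p ^ 2 := (Subgroup.card_dvd_of_le hBD).trans hD
  have h2 : Nat.card A ∣ p ^ 2 := (Subgroup.card_dvd_of_le hAB).trans h1
  obtain ⟨b, hb, hb2⟩ := (Nat.dvd_prime_pow hp.out).1 h1
  obtain ⟨a, ha, ha2⟩ := (Nat.dvd_prime_pow hp.out).1 h2
  obtain ⟨d, hd, hd2⟩ := (Nat.dvd_prime_pow hp.out).1 hD
  have ha0 : a ≠ 0 := by
    rintro rfl
    exact hA (Subgroup.card_eq_one.1 (by rw [ha2, pow_zero]))
  have hab : a < b := by
    rcases Nat.lt_or_ge a b with h | h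
    · exact h
    · exfalso
      apply hne
      apply Subgroup.eq_of_le_of_card_ge hAB
      rw [ha2, hb2]
      exact Nat.pow_le_pow_right hp.out.pos h
  have hb' : b = 2 := by omega
  have ha' : a = 1 := by omega
  refine ⟨by rw [ha2, ha', pow_one], by rw [hb2, hb'], ?_⟩
  apply Subgroup.eq_of_le_of_card_ge hBD
  rw [hd2, hb2, hb']
  exact Nat.pow_le_pow_right hp.out.pos hd

theorem two_big [Finite G] (h2 : commutator G ≤ center G)
    (hB : ∀ x : G, (centralizer {x}).index ∣ p ^ 2) (hbig : p ^ 2 < Nat.card (commutator G)) :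
    ∃ x : G, (∀ m ∈ centralizer {x}, ∀ y : G, y ∉ centralizer {x} → ⁅y, m⁆ ∈ zpowers ⁅y, x⁆) ∧
      (∀ g : G, ⁅x, g⁆ ^ p = 1) ∧ (centralizer {x}).index = p ^ 2 := by
  have hp1 := hp.out.one_lt
  have hpsq : p < p ^ 2 := by
    rw [sq]
    exact lt_mul_self hp1
  have hdvd : ∀ x, Nat.card (kap h2 x).range ∣ p ^ 2 := fun x => by rw [card_kap]; exact hB x
  -- an element with a large class
  obtain ⟨x, hx⟩ : ∃ x : G, (centralizer {x}).index = p ^ 2 := by
    by_contra hcon
    push Not at hcon
    have h1 : ∀ x : G, (centralizer {x}).index ∣ p := by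
      intro x
      obtain ⟨k, hk, hk2⟩ := (Nat.dvd_prime_pow hp.out).1 (hB x)
      have h3 : k ≠ 2 := by
        rintro rfl
        exact hcon x hk2
      rw [hk2]
      calc p ^ k ∣ p ^ 1 := pow_dvd_pow _ (by omega)
        _ = p := pow_one p
    have hbt : (⊥ : Subgroup G) ≠ ⊤ := by
      intro h
      have h3 : Nat.card (commutator G) ≤ Nat.card (⊥ : Subgroup G) :=
        Subgroup.card_le_of_le (by rw [h]; exact le_top)
      rw [Subgroup.card_bot] at h3
      omega
    obtain ⟨u, v, h3, h4⟩ := lemma_AB (p := p) h2 hbt (fun x _ => h1 x)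
    have h5 : commutator G ≤ zpowers ⁅u, v⁆ := commutator_le_of h3
    have h6 := Subgroup.card_le_of_le h5
    rw [Nat.card_zpowers] at h6
    have h7 : orderOf ⁅u, v⁆ ≤ p := Nat.le_of_dvd hp.out.pos (orderOf_dvd_of_pow_eq_one h4)
    omega
  set T := (kap h2 x).range with hT
  have hTcard : Nat.card T = p ^ 2 := by rw [hT, card_kap, hx]
  have hCx : centralizer {x} ≠ ⊤ := by
    intro h
    rw [h, index_top] at hx
    omega
  -- step 1
  have step1 : ∀ y, (∃ g, kap h2 y g ∉ T) → (kap h2 y).range ⊓ T ≠ ⊥ := by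
    rintro y ⟨a, ha⟩ hbot
    have hy0 : ∀ g, kap h2 y g ∈ T → kap h2 y g = 1 := by
      intro g hg
      have : kap h2 y g ∈ (kap h2 y).range ⊓ T := ⟨⟨g, rfl⟩, hg⟩
      rw [hbot] at this
      exact this
    have hC1 : ∀ g ∈ centralizer {x * y}, kap h2 x g = 1 ∧ kap h2 y g = 1 := by
      intro g hg
      rw [mem_cent_kap h2, kap_mul_left] at hg
      have h3 : kap h2 y g = 1 := by
        apply hy0
        rw [eq_inv_of_mul_eq_one_right hg]
        exact T.inv_mem ⟨g, rfl⟩
      rw [h3, mul_one] at hg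
      exact ⟨hg, h3⟩
    have hle : centralizer {x * y} ≤ centralizer {x} := fun g hg =>
      (mem_cent_kap h2).2 (hC1 g hg).1
    have h3 := Subgroup.relIndex_mul_index hle
    rw [hx] at h3
    have h4 := hB (x * y)
    rw [← h3] at h4
    have h5 : (centralizer {x * y}).relIndex (centralizer {x}) ∣ 1 := by
      apply Nat.dvd_of_mul_dvd_mul_right (pow_pos hp.out.pos 2)
      rwa [one_mul]
    rw [Nat.dvd_one, Subgroup.relIndex_eq_one] at h5
    have hxy : ∀ g ∈ centralizer {x}, kap h2 y g = 1 := fun g hg => (hC1 g (h5 hg)).2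
    have hyx : kap h2 y x = 1 := hxy x ((mem_cent_kap h2).2 (kap_self h2 x))
    have hxa : kap h2 x a ≠ 1 := by
      intro h
      apply ha
      rw [hxy a ((mem_cent_kap h2).2 h)]
      exact one_mem _
    set A := zpowers (kap h2 a x) with hA
    set B := A ⊔ zpowers (kap h2 a y) with hB'
    have hxa' : kap h2 a x ≠ 1 := by
      rw [kap_symm]
      exact inv_ne_one.2 hxa
    have hAT : A ≤ T := by
      rw [hA, zpowers_le, kap_symm]
      exact T.inv_mem ⟨a, rfl⟩
    have hA0 : A ≠ ⊥ := by
      intro h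
      rw [hA, zpowers_eq_bot] at h
      exact hxa' h
    have hya : kap h2 a y ∉ T := by
      intro h
      apply ha
      rw [kap_symm]
      exact T.inv_mem h
    have hAB : A ≤ B := le_sup_left
    have hayB : kap h2 a y ∈ B := (le_sup_right : zpowers (kap h2 a y) ≤ B) (mem_zpowers _)
    have hneAB : A ≠ B := by
      intro h
      apply hya
      apply hAT
      rw [h]
      exact hayB
    have hB1 : B ≤ (kap h2 a).range := by
      apply sup_le
      · rw [hA, zpowers_le]; exact ⟨x, rfl⟩
      · rw [zpowers_le]; exact ⟨y, rfl⟩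
    have hB2 : B ≤ (kap h2 (a * x)).range := by
      apply sup_le
      · rw [hA, zpowers_le]
        exact ⟨x, by rw [kap_mul_left, kap_self, mul_one]⟩
      · rw [zpowers_le]
        refine ⟨y, ?_⟩
        rw [kap_mul_left, kap_symm h2 y x, hyx, inv_one, mul_one]
    obtain ⟨-, h6, h7⟩ := card_eq_of_between (hdvd a) hB1 hAB hA0 hneAB
    obtain ⟨-, -, h8⟩ := card_eq_of_between (hdvd (a * x)) hB2 hAB hA0 hneAB
    have hTB : T ≤ B := by
      rintro _ ⟨g, rfl⟩
      have h9 : kap h2 a g ∈ B := by rw [h7]; exact ⟨g, rfl⟩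
      have h10 : kap h2 (a * x) g ∈ B := by rw [h8]; exact ⟨g, rfl⟩
      rw [kap_mul_left] at h10
      exact (B.mul_mem_cancel_left h9).1 h10
    have hTB' : T = B := Subgroup.eq_of_le_of_card_ge hTB (by rw [h6, hTcard])
    apply hya
    rw [hTB']
    exact hayB
  have step1' : ∀ y, (∃ g, kap h2 y g ∉ T) →
      Nat.card ((kap h2 y).range ⊓ T : Subgroup (center G)) = p ∧
      Nat.card (kap h2 y).range = p ^ 2 := by
    intro y hy
    obtain ⟨h3, h4, -⟩ := card_eq_of_between (hdvd y) (le_refl (kap h2 y).range)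
      (inf_le_left : (kap h2 y).range ⊓ T ≤ _) (step1 y hy) (by
        intro h
        obtain ⟨g, hg⟩ := hy
        apply hg
        have h5 : kap h2 y g ∈ (kap h2 y).range ⊓ T := by rw [h]; exact ⟨g, rfl⟩
        exact h5.2)
    exact ⟨h3, h4⟩
  -- the intersection
  have hI : ∀ y, (∃ g, kap h2 y g ∉ T) → kap h2 x y ≠ 1 →
      ∀ u ∈ (kap h2 y).range ⊓ T, u ∈ zpowers (kap h2 x y) := by
    intro y hy hxy u hu
    have h3 : kap h2 x y ∈ (kap h2 y).range ⊓ T := by
      refine ⟨?_, ⟨y, rfl⟩⟩
      rw [kap_symm]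
      exact (kap h2 y).range.inv_mem ⟨x, rfl⟩
    have h4 := mem_zpowers_of_prime_card (h := (step1' y hy).1)
      (g := (⟨_, h3⟩ : ((kap h2 y).range ⊓ T : Subgroup (center G))))
      (g' := ⟨u, hu⟩) (fun h => hxy (congrArg Subtype.val h))
    obtain ⟨k, hk⟩ := mem_zpowers_iff.1 h4
    rw [mem_zpowers_iff]
    exact ⟨k, by simpa using congrArg Subtype.val hk⟩
  have hIp : ∀ y, (∃ g, kap h2 y g ∉ T) → ∀ u ∈ (kap h2 y).range ⊓ T, u ^ p = 1 := by
    intro y hy u hu
    have h3 : (⟨u, hu⟩ : ((kap h2 y).range ⊓ T : Subgroup (center G))) ^ p = 1 := by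
      rw [← (step1' y hy).1]
      exact pow_card_eq_one'
    exact congrArg Subtype.val h3
  have hxyp : ∀ y, (∃ g, kap h2 y g ∉ T) → (kap h2 x y) ^ p = 1 := by
    intro y hy
    apply hIp y hy
    refine ⟨?_, ⟨y, rfl⟩⟩
    rw [kap_symm]
    exact (kap h2 y).range.inv_mem ⟨x, rfl⟩
  have step3a : ∀ y, (∃ g, kap h2 y g ∉ T) → kap h2 x y ≠ 1 → ∀ g, kap h2 y g ∈ T →
      kap h2 x g ∈ zpowers (kap h2 x y) := by
    intro y hy hxy g hg
    have e : kap h2 x (x * y) = kap h2 x y := by rw [map_mul, kap_self, one_mul]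
    have h3 := hI (x * y) (by
      obtain ⟨g, hg⟩ := hy
      refine ⟨g, fun h => hg ?_⟩
      rw [kap_mul_left] at h
      exact (T.mul_mem_cancel_left ⟨g, rfl⟩).1 h) (by rw [e]; exact hxy) (kap h2 (x * y) g)
      ⟨⟨g, rfl⟩, by
        rw [kap_mul_left]
        exact T.mul_mem ⟨g, rfl⟩ hg⟩
    rw [e, kap_mul_left] at h3
    have h4 := hI y hy hxy (kap h2 y g) ⟨⟨g, rfl⟩, hg⟩
    exact ((zpowers (kap h2 x y)).mul_mem_cancel_right h4).1 h3
  have step3b : ∀ y, (∃ g, kap h2 y g ∉ T) → kap h2 x y ≠ 1 → ∀ h ∈ centralizer {x},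
      kap h2 y h ∈ T := by
    intro y hy hxy
    set D := T.comap (kap h2 y) with hD
    have hDi : D.index = p := by
      rw [hD, Subgroup.index_comap]
      have h3 := (T.subgroupOf (kap h2 y).range).card_mul_index
      have h4 : Nat.card (T.subgroupOf (kap h2 y).range) = p := by
        rw [← (step1' y hy).1, inf_comm, ← Subgroup.subgroupOf_map_subtype]
        exact Nat.card_congr (Subgroup.equivMapOfInjective _ _
          (Subgroup.subtype_injective _)).toEquiv
      rw [h4, (step1' y hy).2, sq] at h3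
      exact Nat.eq_of_mul_eq_mul_left hp.out.pos h3
    have hDr : (centralizer {x}).relIndex D ≤ p := by
      have e : centralizer {x} = (kap h2 x).ker := (ker_cH x _).symm
      rw [e, Subgroup.relIndex_ker]
      have h3 : D.map (kap h2 x) ≤ zpowers (kap h2 x y) := by
        rintro _ ⟨g, hg, rfl⟩
        exact step3a y hy hxy g hg
      refine (Subgroup.card_le_of_le h3).trans ?_
      rw [Nat.card_zpowers]
      exact Nat.le_of_dvd hp.out.pos (orderOf_dvd_of_pow_eq_one (hxyp y hy))
    have h3 : (centralizer {x} ⊓ D).index ≤ p ^ 2 := by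
      have h4 := Subgroup.relIndex_mul_index (inf_le_right : centralizer {x} ⊓ D ≤ D)
      rw [Subgroup.inf_relIndex_right, hDi] at h4
      rw [← h4, sq]
      exact Nat.mul_le_mul_right _ hDr
    have h4 := Subgroup.relIndex_mul_index (inf_le_left : centralizer {x} ⊓ D ≤ centralizer {x})
    rw [hx] at h4
    have h5 : (centralizer {x} ⊓ D).relIndex (centralizer {x}) = 1 := by
      have h6 : (centralizer {x} ⊓ D).relIndex (centralizer {x}) * p ^ 2 ≤ 1 * p ^ 2 := by
        rw [h4, one_mul]; exact h3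
      have h7 := Nat.le_of_mul_le_mul_right h6 (pow_pos hp.out.pos 2)
      have h8 : (centralizer {x} ⊓ D).relIndex (centralizer {x}) ≠ 0 := by
        intro h9
        rw [h9, zero_mul] at h4
        exact Subgroup.index_ne_zero_of_finite h4.symm
      omega
    rw [Subgroup.relIndex_eq_one] at h5
    intro h hh
    exact (h5 hh).2
  have hM1 : ∀ h ∈ centralizer {x}, ∀ g, kap h2 h g ∈ T := by
    intro h hh g
    have h3 : T.comap (kap h2 h) = ⊤ := by
      apply eq_top_of_compl_subset hCx
      intro y hy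
      rw [mem_comap, kap_symm]
      apply T.inv_mem
      by_cases hyM : ∃ g, kap h2 y g ∉ T
      · exact step3b y hyM (fun h5 => hy ((mem_cent_kap h2).2 h5)) h hh
      · push Not at hyM
        exact hyM h
    have h4 : g ∈ T.comap (kap h2 h) := by rw [h3]; trivial
    exact h4
  have hM2 : ∀ m, (∀ g, kap h2 m g ∈ T) → m ∈ centralizer {x} := by
    intro m hm
    rw [mem_cent_kap h2]
    by_contra hxm
    let M : Subgroup G :=
      { carrier := {y | ∀ g, kap h2 y g ∈ T}
        one_mem' := by
          intro g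
          rw [kap_symm, map_one, inv_one]
          exact one_mem _
        mul_mem' := by
          intro a b ha hb g
          rw [kap_mul_left]
          exact T.mul_mem (ha g) (hb g)
        inv_mem' := by
          intro a ha g
          rw [kap_symm, map_inv, inv_inv, kap_symm]
          exact T.inv_mem (ha g) }
    have hMtop : M ≠ ⊤ := by
      intro h
      have h3 := card_commutator_le h2 T (by
        intro y g
        have : y ∈ M := by rw [h]; trivial
        exact this g)
      omega
    have h3 : (zpowers (kap h2 x m)).comap (kap h2 x) = ⊤ := by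
      apply eq_top_of_compl_subset hMtop
      intro y hy
      have hy' : ∃ g, kap h2 y g ∉ T := by
        by_contra hcon
        push Not at hcon
        exact hy hcon
      have hxy : kap h2 x y ≠ 1 := by
        intro h
        obtain ⟨g, hg⟩ := hy'
        exact hg (hM1 y ((mem_cent_kap h2).2 h) g)
      have h4 := step3a y hy' hxy m (by
        rw [kap_symm]
        exact T.inv_mem (hm y))
      exact zpowers_le_of_mem (hxyp y hy') h4 hxm (mem_zpowers _)
    have h4 : T ≤ zpowers (kap h2 x m) := by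
      rintro _ ⟨g, rfl⟩
      have : g ∈ (zpowers (kap h2 x m)).comap (kap h2 x) := by rw [h3]; trivial
      exact this
    have h5 := Subgroup.card_le_of_le h4
    rw [hTcard, Nat.card_zpowers] at h5
    -- `kap x m` has order dividing `p`
    obtain ⟨y, hy, -⟩ : ∃ y, y ∉ M ∧ y ∉ M := by
      by_contra hcon
      push Not at hcon
      apply hMtop
      rw [eq_top_iff]
      intro y _
      by_contra hy
      exact hy (hcon y hy)
    have hy' : ∃ g, kap h2 y g ∉ T := by
      by_contra hcon
      push Not at hcon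
      exact hy hcon
    have hxy : kap h2 x y ≠ 1 := by
      intro h
      obtain ⟨g, hg⟩ := hy'
      exact hg (hM1 y ((mem_cent_kap h2).2 h) g)
    have h6 := step3a y hy' hxy m (by
      rw [kap_symm]
      exact T.inv_mem (hm y))
    obtain ⟨k, hk⟩ := mem_zpowers_iff.1 h6
    have h7 : (kap h2 x m) ^ p = 1 := by
      rw [← hk, ← zpow_natCast, ← zpow_mul, mul_comm, zpow_mul, zpow_natCast, hxyp y hy', one_zpow]
    have h8 := Nat.le_of_dvd hp.out.pos (orderOf_dvd_of_pow_eq_one h7)
    omega
  have hM3 : ∀ y, y ∉ centralizer {x} → ∃ g, kap h2 y g ∉ T := by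
    intro y hy
    by_contra hcon
    push Not at hcon
    exact hy (hM2 y hcon)
  refine ⟨x, ?_, ?_, hx⟩
  · intro m hm y hy
    have h3 := hI y (hM3 y hy) (fun h => hy ((mem_cent_kap h2).2 h)) (kap h2 y m)
      ⟨⟨m, rfl⟩, by
        rw [kap_symm]
        exact T.inv_mem (hM1 m hm y)⟩
    obtain ⟨k, hk⟩ := mem_zpowers_iff.1 h3
    rw [zpowers_comm_symm, mem_zpowers_iff]
    refine ⟨k, ?_⟩
    have h4 := congrArg Subtype.val hk
    rw [Subgroup.coe_zpow] at h4
    exact h4
  · intro g
    by_cases hg : g ∈ centralizer {x}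
    · rw [mem_cent.1 hg, one_pow]
    · exact congrArg Subtype.val (hxyp g (hM3 g hg))

end

end Pool.Agent.Lib.MP_e0d3d5_al
end

section

/-!
Finite `p`-groups of class two with elementary abelian derived subgroup: the commutator map as an
alternating bilinear map, and the character degrees as ranks.
-/

set_option autoImplicit false

namespace Pool.Agent.Lib.MP_e0d3d5_al

open Subgroup
open scoped commutatorElement

section

variable {G : Type} [Group G]

/-- A commutator as an element of the derived subgroup. -/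
def cm (x y : G) : commutator G := ⟨⁅x, y⁆, comm_mem_comm x y⟩

/-- A biadditive map of `ZMod p`-modules as a bilinear map. -/
def mkBilin {p : ℕ} {V W : Type} [AddCommGroup V] [AddCommGroup W]
    [Module (ZMod p) V] [Module (ZMod p) W] (f : V → V → W)
    (hfl : ∀ u u' v, f (u + u') v = f u v + f u' v)
    (hfr : ∀ u v v', f u (v + v') = f u v + f u v') : V →ₗ[ZMod p] V →ₗ[ZMod p] W :=
  LinearMap.mk₂ (ZMod p) f hfl
    (fun r u v => ZMod.map_smul (AddMonoidHom.mk' (fun u => f u v) (fun u u' => hfl u u' v)) r u)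
    hfr
    (fun r u v => ZMod.map_smul (AddMonoidHom.mk' (fun v => f u v) (fun v v' => hfr u v v')) r v)

/-- The commutator map as a bilinear map. -/
structure BilinData (p : ℕ) [Fact p.Prime] (G : Type) [Group G] where
  /-- the space `G / Z(G)` -/
  V : Type
  /-- the derived subgroup -/
  W : Type
  [acV : AddCommGroup V]
  [mV : Module (ZMod p) V]
  [fV : Finite V]
  [acW : AddCommGroup W]
  [mW : Module (ZMod p) W]
  [fW : Finite W]
  /-- the commutator map -/
  β : V →ₗ[ZMod p] V →ₗ[ZMod p] W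
  /-- the quotient map -/
  π : G → V
  /-- the identification -/
  ι : commutator G → W
  alt : ∀ v, β v v = 0
  πsurj : Function.Surjective π
  πmul : ∀ x y, π (x * y) = π x + π y
  ιbij : Function.Bijective ι
  ιmul : ∀ u v, ι (u * v) = ι u + ι v
  comm : ∀ x y, β (π x) (π y) = ι (cm x y)

attribute [instance] BilinData.acV BilinData.mV BilinData.fV BilinData.acW BilinData.mW
  BilinData.fW

theorem exists_bilinData {p : ℕ} [hp : Fact p.Prime] [Finite G] (h2 : commutator G ≤ center G)
    (hexp : ∀ c ∈ commutator G, c ^ p = 1) : Nonempty (BilinData p G) := by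
  classical
  have hexpV : ∀ x : G, x ^ p ∈ center G := by
    intro x
    rw [mem_center_iff]
    intro y
    have : ⁅x ^ p, y⁆ = 1 := by
      rw [comm_pow_left h2]
      exact hexp _ (comm_mem_comm x y)
    exact ((commutatorElement_eq_one_iff_mul_comm).1 this).symm
  let cgV : CommGroup (G ⧸ center G) :=
    { (inferInstance : Group (G ⧸ center G)) with
      mul_comm := by
        intro u v
        obtain ⟨x, rfl⟩ := QuotientGroup.mk_surjective u
        obtain ⟨y, rfl⟩ := QuotientGroup.mk_surjective v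
        rw [← QuotientGroup.mk_mul, ← QuotientGroup.mk_mul, QuotientGroup.eq]
        have : (x * y)⁻¹ * (y * x) = ⁅y⁻¹, x⁻¹⁆ := by
          simp only [commutatorElement_def]; group
        rw [this]
        exact h2 (comm_mem_comm _ _) }
  let cgW : CommGroup (commutator G) :=
    { (inferInstance : Group (commutator G)) with
      mul_comm := by
        intro u v
        apply Subtype.ext
        exact (mem_center_iff.1 (h2 u.2) v).symm }
  let mV : Module (ZMod p) (Additive (G ⧸ center G)) := AddCommGroup.zmodModule (n := p) (by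
    intro v
    obtain ⟨x, hx⟩ := QuotientGroup.mk_surjective (Additive.toMul v)
    show Additive.ofMul ((Additive.toMul v) ^ p) = Additive.ofMul 1
    rw [← hx, ← QuotientGroup.mk_pow, (QuotientGroup.eq_one_iff _).2 (hexpV x)])
  let mW : Module (ZMod p) (Additive (commutator G)) := AddCommGroup.zmodModule (n := p) (by
    intro w
    show Additive.ofMul ((Additive.toMul w) ^ p) = Additive.ofMul 1
    congr 1
    apply Subtype.ext
    exact hexp _ (Additive.toMul w).2)
  let c : G → G → Additive (commutator G) := fun x y => Additive.ofMul (cm x y)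
  have hc : ∀ x y x' y' : G, (x : G ⧸ center G) = x' → (y : G ⧸ center G) = y' → c x y = c x' y' := by
    intro x y x' y' hx hy
    rw [QuotientGroup.eq] at hx hy
    have e1 : x' = x * (x⁻¹ * x') := by group
    have e2 : y' = y * (y⁻¹ * y') := by group
    have : ⁅x', y'⁆ = ⁅x, y⁆ := by
      rw [e1, comm_mul_left h2, comm_eq_one_of_left hx, mul_one, e2, comm_mul_right h2,
        comm_eq_one_of_right hy, mul_one]
    exact congrArg Additive.ofMul (Subtype.ext this.symm)
  let f : Additive (G ⧸ center G) → Additive (G ⧸ center G) → Additive (commutator G) :=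
    fun u v => c (Quotient.out (Additive.toMul u)) (Quotient.out (Additive.toMul v))
  let π : G → Additive (G ⧸ center G) := fun x => Additive.ofMul (x : G ⧸ center G)
  have hf : ∀ x y : G, f (π x) (π y) = c x y := by
    intro x y
    exact hc _ _ _ _ (QuotientGroup.out_eq' _) (QuotientGroup.out_eq' _)
  have hsurV : Function.Surjective π := by
    intro v
    obtain ⟨x, hx⟩ := QuotientGroup.mk_surjective (Additive.toMul v)
    refine ⟨x, ?_⟩
    show Additive.ofMul (x : G ⧸ center G) = v
    rw [hx]; rfl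
  have hπ : ∀ x y, π (x * y) = π x + π y := fun x y => rfl
  have hfl : ∀ u u' v, f (u + u') v = f u v + f u' v := by
    intro u u' v
    obtain ⟨x, rfl⟩ := hsurV u
    obtain ⟨x', rfl⟩ := hsurV u'
    obtain ⟨y, rfl⟩ := hsurV v
    rw [← hπ, hf, hf, hf]
    exact congrArg Additive.ofMul (Subtype.ext (comm_mul_left h2 x x' y))
  have hfr : ∀ u v v', f u (v + v') = f u v + f u v' := by
    intro u v v'
    obtain ⟨x, rfl⟩ := hsurV u
    obtain ⟨y, rfl⟩ := hsurV v
    obtain ⟨y', rfl⟩ := hsurV v'
    rw [← hπ, hf, hf, hf]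
    exact congrArg Additive.ofMul (Subtype.ext (comm_mul_right h2 x y y'))
  exact ⟨{ V := Additive (G ⧸ center G)
           W := Additive (commutator G)
           acV := inferInstance
           mV := mV
           acW := inferInstance
           mW := mW
           fV := inferInstanceAs (Finite (G ⧸ center G))
           fW := inferInstanceAs (Finite (commutator G))
           β := mkBilin f hfl hfr
           π := π
           ι := Additive.ofMul
           alt := by
             intro v
             obtain ⟨x, rfl⟩ := hsurV v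
             show f (π x) (π x) = 0
             rw [hf]
             exact congrArg Additive.ofMul (Subtype.ext (commutatorElement_self x))
           πsurj := hsurV
           πmul := hπ
           ιbij := Additive.ofMul.bijective
           ιmul := fun _ _ => rfl
           comm := hf }⟩

namespace BilinData

variable {p : ℕ} [hp : Fact p.Prime] (D : BilinData p G)

lemma πone : D.π 1 = 0 := by
  have h := D.πmul 1 1
  rw [mul_one] at h
  exact left_eq_add.1 h

lemma ιone : D.ι 1 = 0 := by
  have h := D.ιmul 1 1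
  rw [mul_one] at h
  exact left_eq_add.1 h

lemma ι_pow (u : commutator G) (k : ℕ) : D.ι (u ^ k) = k • D.ι u := by
  induction k with
  | zero => rw [pow_zero, zero_smul, ιone]
  | succ k ih => rw [pow_succ, D.ιmul, ih, succ_nsmul]

lemma ι_inv (u : commutator G) : D.ι u⁻¹ = - D.ι u := by
  rw [eq_neg_iff_add_eq_zero, ← D.ιmul, inv_mul_cancel, ιone]

lemma card_W : Nat.card D.W = Nat.card (commutator G) :=
  (Nat.card_congr (Equiv.ofBijective D.ι D.ιbij)).symm

/-- The index of a radical as a power of the rank. -/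
lemma index_eq (φ : D.W →ₗ[ZMod p] ZMod p) (R : Subgroup G)
    (hR : ∀ x, x ∈ R ↔ ∀ g, φ (D.ι (cm x g)) = 0) :
    R.index = p ^ Module.finrank (ZMod p) (LinearMap.range (D.β.compr₂ φ)) := by
  let Φ : G →* Multiplicative (D.V →ₗ[ZMod p] ZMod p) :=
    { toFun := fun x => Multiplicative.ofAdd (D.β.compr₂ φ (D.π x))
      map_one' := by rw [πone, map_zero]; rfl
      map_mul' := by intro x y; rw [D.πmul, map_add]; rfl }
  have hker : Φ.ker = R := by
    ext x
    rw [MonoidHom.mem_ker, hR]
    constructor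
    · intro h g
      have h1 : D.β.compr₂ φ (D.π x) = 0 := h
      have h2 := LinearMap.congr_fun h1 (D.π g)
      rw [LinearMap.compr₂_apply, D.comm] at h2
      exact h2
    · intro h
      show Multiplicative.ofAdd (D.β.compr₂ φ (D.π x)) = Multiplicative.ofAdd 0
      congr 1
      ext v
      obtain ⟨g, rfl⟩ := D.πsurj v
      rw [LinearMap.compr₂_apply, D.comm, h]
      rfl
  rw [← hker, Subgroup.index_ker]
  have h1 : Nat.card Φ.range = Nat.card (LinearMap.range (D.β.compr₂ φ)) := by
    apply Nat.card_congr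
    refine Equiv.subtypeEquiv (Multiplicative.toAdd) (fun w => ?_)
    constructor
    · rintro ⟨x, rfl⟩
      exact ⟨D.π x, rfl⟩
    · rintro ⟨v, hv⟩
      obtain ⟨x, rfl⟩ := D.πsurj v
      exact ⟨x, by
        show Multiplicative.ofAdd (D.β.compr₂ φ (D.π x)) = w
        rw [hv]; rfl⟩
  have hfin : Finite (D.V →ₗ[ZMod p] ZMod p) := Module.finite_of_finite (ZMod p)
  rw [h1, Module.natCard_eq_pow_finrank (K := ZMod p), Nat.card_zmod]

/-- The functional attached to an irreducible representation not trivial on the derived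
subgroup. -/
lemma exists_functional (h2 : commutator G ≤ center G) {U : Type} [AddCommGroup U] [Module ℂ U]
    [FiniteDimensional ℂ U] (ρ : Representation ℂ G U) (hρ : ρ.IsIrreducible)
    (hnl : ∃ u ∈ commutator G, ρ u ≠ 1) :
    ∃ φ : D.W →ₗ[ZMod p] ZMod p, φ ≠ 0 ∧ ∀ u : commutator G, φ (D.ι u) = 0 ↔ ρ u = 1 := by
  have hnt := nontrivial_of_irr ρ hρ
  have hexp : ∀ u : commutator G, u ^ p = 1 := by
    intro u
    apply D.ιbij.1
    rw [ι_pow, ιone, ← Nat.cast_smul_eq_nsmul (ZMod p), CharP.cast_eq_zero, zero_smul]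
  let K : AddSubgroup D.W :=
    { carrier := {w | ∃ u : commutator G, ρ u = 1 ∧ D.ι u = w}
      zero_mem' := ⟨1, by simp, D.ιone⟩
      add_mem' := by
        rintro _ _ ⟨u, hu, rfl⟩ ⟨v, hv, rfl⟩
        refine ⟨u * v, ?_, D.ιmul u v⟩
        rw [Subgroup.coe_mul, map_mul, hu, hv, one_mul]
      neg_mem' := by
        rintro _ ⟨u, hu, rfl⟩
        refine ⟨u⁻¹, ?_, D.ι_inv u⟩
        have h1 : ρ (u⁻¹ : commutator G) * ρ u = 1 := by
          rw [← map_mul, ← Subgroup.coe_mul, inv_mul_cancel, Subgroup.coe_one, map_one]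
        rwa [hu, mul_one] at h1 }
  let K' : Submodule (ZMod p) D.W := AddSubgroup.toZModSubmodule p K
  have hmem : ∀ u : commutator G, D.ι u ∈ K' ↔ ρ u = 1 := by
    intro u
    constructor
    · rintro ⟨v, hv, hvu⟩
      rw [← D.ιbij.1 hvu]
      exact hv
    · intro h
      exact ⟨u, h, rfl⟩
  have hlt : K' < ⊤ := by
    rw [lt_top_iff_ne_top]
    intro h
    obtain ⟨u, hu, hu1⟩ := hnl
    apply hu1
    have h1 : D.ι ⟨u, hu⟩ ∈ K' := by rw [h]; trivial
    exact (hmem _).1 h1
  obtain ⟨φ, hφ0, hφ⟩ := Submodule.exists_le_ker_of_lt_top K' hlt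
  refine ⟨φ, hφ0, fun u => ⟨?_, fun h => hφ ((hmem u).2 h)⟩⟩
  intro hu0
  by_contra hu
  apply hφ0
  have hsc : ∀ v : commutator G, ∃ a : ℂ, ρ v = a • LinearMap.id := fun v =>
    C3.exists_scalar_center ρ hρ (h2 v.2)
  have hpow : ∀ (v : commutator G) (a : ℂ), ρ v = a • LinearMap.id → a ^ p = 1 := by
    intro v a ha
    apply scalar_inj (U := U)
    have h6 : ρ ((v : G) ^ p) = (a ^ p) • LinearMap.id := by
      rw [map_pow, ha, smul_pow]
      congr 1
      exact one_pow p
    have h7 : (v : G) ^ p = 1 := congrArg Subtype.val (hexp v)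
    rw [← h6, h7, map_one, one_smul]
    rfl
  obtain ⟨s, hs⟩ := hsc u
  have hs1 : s ≠ 1 := by
    rintro rfl
    apply hu
    rw [hs, one_smul]; rfl
  have hprim : IsPrimitiveRoot s p := by
    have h6 : orderOf s = p := orderOf_eq_prime (hpow u s hs) hs1
    rw [← h6]
    exact IsPrimitiveRoot.orderOf s
  have : NeZero p := ⟨hp.out.ne_zero⟩
  ext w
  obtain ⟨v, rfl⟩ := D.ιbij.2 w
  obtain ⟨t, ht⟩ := hsc v
  obtain ⟨i, -, hi⟩ := hprim.eq_pow_of_pow_eq_one (hpow v t ht)
  have h3 : D.ι (v * (u ^ i)⁻¹) ∈ K' := by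
    rw [hmem, Subgroup.coe_mul, map_mul]
    have h6 : ρ v = ρ ((u ^ i : commutator G) : G) := by
      rw [Subgroup.coe_pow, map_pow, hs, ht, ← hi, smul_pow]
      congr 1
      exact (one_pow i).symm
    rw [h6, ← map_mul, ← Subgroup.coe_mul, mul_inv_cancel, Subgroup.coe_one, map_one]
  have h4 := hφ h3
  rw [LinearMap.mem_ker, D.ιmul, D.ι_inv, D.ι_pow, map_add, map_neg, map_nsmul, hu0, smul_zero,
    neg_zero, add_zero] at h4
  rw [h4]
  rfl

end BilinData

end

end Pool.Agent.Lib.MP_e0d3d5_al
end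

section

/-!
The character degree sets of the finite `p`-groups all of whose class sizes divide `p ^ 2`.
-/

set_option autoImplicit false

namespace Pool.Agent.Lib.MP_e0d3d5_al

open Subgroup
open scoped commutatorElement

section

variable {G : Type} [Group G]

/-- The trivial character. -/
lemma one_mem_cdSet : 1 ∈ cdSet G := by
  refine ⟨ℂ, inferInstance, inferInstance, inferInstance, (1 : G →* (ℂ →ₗ[ℂ] ℂ)), ?_,
    Module.finrank_self ℂ⟩
  have hnt : Nontrivial (Subrepresentation (1 : G →* (ℂ →ₗ[ℂ] ℂ))) := by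
    refine ⟨⊥, ⊤, fun h => ?_⟩
    have h1 : (1 : ℂ) ∈ (⊤ : Subrepresentation (1 : G →* (ℂ →ₗ[ℂ] ℂ))).toSubmodule := trivial
    rw [← h] at h1
    exact one_ne_zero (show (1 : ℂ) = 0 from h1)
  refine { toNontrivial := hnt, eq_bot_or_eq_top := fun σ => ?_ }
  rcases eq_bot_or_eq_top σ.toSubmodule with h | h
  · left
    exact Subrepresentation.toSubmodule_injective h
  · right
    exact Subrepresentation.toSubmodule_injective h

/-- A group all of whose degrees are one is abelian. -/
lemma abelian_of_cdSet [Finite G] (h : ∀ d ∈ cdSet G, d = 1) (x y : G) : ⁅x, y⁆ = 1 := by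
  have h1 : cdSet G = {1, 1} := by
    ext d
    constructor
    · intro hd
      rw [h d hd]
      simp
    · rintro (rfl | rfl) <;> exact one_mem_cdSet
  obtain ⟨h2, h3⟩ := card_of_cd h1
  have h4 : Nat.card G = Nat.card (ConjClasses G) := by omega
  have h5 : Function.Bijective (ConjClasses.mk : G → ConjClasses G) := by
    rw [Nat.bijective_iff_surjective_and_card]
    exact ⟨ConjClasses.mk_surjective, h4⟩
  have h6 : ConjClasses.mk y = ConjClasses.mk (x * y * x⁻¹) := by
    rw [ConjClasses.mk_eq_mk_iff_isConj, isConj_iff]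
    exact ⟨x, rfl⟩
  have h7 := h5.1 h6
  rw [commutatorElement_def, ← h7, mul_inv_cancel]

lemma exists_nonlinear [Finite G] (h : ∃ x y : G, ⁅x, y⁆ ≠ 1) : ∃ d ∈ cdSet G, d ≠ 1 := by
  by_contra hcon
  push Not at hcon
  obtain ⟨x, y, hxy⟩ := h
  exact hxy (abelian_of_cdSet hcon x y)

lemma le_card_of_mem_cdSet [Finite G] {d : ℕ} (hd : d ∈ cdSet G) : d ≤ Nat.card G := by
  obtain ⟨U, _, _, _, ρ, hρ, rfl⟩ := hd
  have hnt := nontrivial_of_irr ρ hρ
  obtain ⟨v, hv⟩ := exists_ne (0 : U)
  have hfin : Finite (G ⧸ lineStab ρ v hv) := inferInstance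
  refine (finrank_le_index_lineStab ρ hρ v hv).trans ?_
  exact Nat.le_of_dvd Nat.card_pos (Subgroup.index_dvd_card _)

variable {p : ℕ} [hp : Fact p.Prime]

lemma pow_of_mem_cdSet [Finite G] (hG : IsPGroup p G) {d : ℕ} (hd : d ∈ cdSet G) :
    ∃ k, d = p ^ k := by
  obtain ⟨U, _, _, _, ρ, hρ, rfl⟩ := hd
  exact degree_eq_pow _ G hG rfl U ρ hρ

open Classical in
/-- The exponents of the nonlinear degrees. -/
noncomputable def expSet (p : ℕ) (G : Type) [Group G] : Finset ℕ :=
  (Finset.range (Nat.card G + 1)).filter (fun e => 1 ≤ e ∧ p ^ e ∈ cdSet G)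

lemma mem_expSet [Finite G] {e : ℕ} : e ∈ expSet p G ↔ 1 ≤ e ∧ p ^ e ∈ cdSet G := by
  classical
  unfold expSet
  rw [Finset.mem_filter, Finset.mem_range]
  constructor
  · exact fun h => h.2
  · intro h
    refine ⟨?_, h⟩
    have h1 := le_card_of_mem_cdSet h.2
    have h2 := Nat.lt_pow_self (n := e) hp.out.one_lt
    omega

lemma cdSet_eq_of [Finite G] (hG : IsPGroup p G) :
    cdSet G = insert 1 ((fun e => p ^ e) '' (expSet p G : Set ℕ)) := by
  ext d
  constructor
  · intro hd
    obtain ⟨k, rfl⟩ := pow_of_mem_cdSet hG hd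
    rcases Nat.eq_zero_or_pos k with rfl | hk
    · left; rw [pow_zero]
    · right
      exact ⟨k, mem_expSet.2 ⟨hk, hd⟩, rfl⟩
  · rintro (rfl | ⟨e, he, rfl⟩)
    · exact one_mem_cdSet
    · exact (mem_expSet.1 he).2

lemma expSet_nonempty [Finite G] (hG : IsPGroup p G) (h : ∃ x y : G, ⁅x, y⁆ ≠ 1) :
    (expSet p G).Nonempty := by
  obtain ⟨d, hd, hd1⟩ := exists_nonlinear h
  obtain ⟨k, rfl⟩ := pow_of_mem_cdSet hG hd
  refine ⟨k, mem_expSet.2 ⟨?_, hd⟩⟩
  rcases Nat.eq_zero_or_pos k with rfl | hk
  · rw [pow_zero] at hd1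
    exact absurd rfl hd1
  · exact hk

/-- Two squares of degrees. -/
lemma bounds_of_two [Finite G] {D₁ D₂ : ℕ}
    (h : ∀ d ∈ cdSet G, d ^ 2 = 1 ∨ d ^ 2 = D₁ ∨ d ^ 2 = D₂) {M : ℕ} (hM : M ∈ expSet p G) :
    (expSet p G).card ≤ p + 1 ∧ ∑ e ∈ expSet p G, (M - e) ≤ M := by
  classical
  have hp2 := hp.out.two_le
  have hpow : ∀ e ∈ expSet p G, (p ^ e) ^ 2 = D₁ ∨ (p ^ e) ^ 2 = D₂ := by
    intro e he
    rw [mem_expSet] at he
    rcases h _ he.2 with h1 | h1
    · exfalso
      rw [← pow_mul] at h1
      have := Nat.one_lt_pow (n := e * 2) (by omega) hp.out.one_lt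
      omega
    · exact h1
  have hinj : ∀ e e' : ℕ, (p ^ e) ^ 2 = (p ^ e') ^ 2 → e = e' := by
    intro e e' h1
    rw [← pow_mul, ← pow_mul] at h1
    have := Nat.pow_right_injective hp2 h1
    omega
  by_cases hex : ∃ e₀ ∈ expSet p G, e₀ ≠ M
  · obtain ⟨e₀, he₀, hne⟩ := hex
    have hE : expSet p G = {M, e₀} := by
      ext e
      rw [Finset.mem_insert, Finset.mem_singleton]
      constructor
      · intro he
        by_contra hcon
        push Not at hcon
        have h1 := hpow e he
        have h2 := hpow M hM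
        have h3 := hpow e₀ he₀
        have n1 : (p ^ e) ^ 2 ≠ (p ^ M) ^ 2 := fun h => hcon.1 (hinj _ _ h)
        have n2 : (p ^ e) ^ 2 ≠ (p ^ e₀) ^ 2 := fun h => hcon.2 (hinj _ _ h)
        have n3 : (p ^ e₀) ^ 2 ≠ (p ^ M) ^ 2 := fun h => hne (hinj _ _ h)
        rcases h1 with h1 | h1 <;> rcases h2 with h2 | h2 <;> rcases h3 with h3 | h3 <;> omega
      · rintro (rfl | rfl)
        · exact hM
        · exact he₀
    rw [hE]
    constructor
    · refine Finset.card_le_two.trans ?_
      omega
    · rw [Finset.sum_pair (fun h => hne h.symm)]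
      omega
  · push Not at hex
    have hE : expSet p G = {M} := by
      ext e
      rw [Finset.mem_singleton]
      constructor
      · exact hex e
      · rintro rfl
        exact hM
    rw [hE]
    simp

/-- The elements central modulo `N`. -/
def RR (N : Subgroup G) [N.Normal] : Subgroup G := (center (G ⧸ N)).comap (QuotientGroup.mk' N)

omit hp in
lemma mem_RR {N : Subgroup G} [N.Normal] {x : G} : x ∈ RR N ↔ ∀ g : G, ⁅x, g⁆ ∈ N := by
  unfold RR
  rw [mem_comap, mem_center_iff]
  constructor
  · intro h g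
    have h1 := h (g : G ⧸ N)
    rw [← QuotientGroup.eq_one_iff]
    exact commutatorElement_eq_one_iff_mul_comm.2 h1.symm
  · intro h g
    obtain ⟨g, rfl⟩ := QuotientGroup.mk_surjective g
    have h1 := (QuotientGroup.eq_one_iff _).2 (h g)
    exact (commutatorElement_eq_one_iff_mul_comm.1 h1).symm

omit hp in
lemma sq_eq_of_class_two [Finite G] (h2 : commutator G ≤ center G) {U : Type} [AddCommGroup U]
    [Module ℂ U] [FiniteDimensional ℂ U] (ρ : Representation ℂ G U) (hρ : ρ.IsIrreducible) :
    (Module.finrank ℂ U) ^ 2 = (Rad ρ).index :=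
  sq_finrank_eq_index ρ hρ (fun x g =>
    C3.exists_scalar_center ρ hρ (h2 (comm_mem_comm x g)))

omit hp in
lemma rad_eq_top {U : Type} [AddCommGroup U] [Module ℂ U] [FiniteDimensional ℂ U]
    (ρ : Representation ℂ G U) (h : ∀ u ∈ commutator G, ρ u = 1) : Rad ρ = ⊤ := by
  rw [eq_top_iff]
  intro x _
  rw [mem_Rad]
  exact fun g => h _ (comm_mem_comm x g)

omit hp in
/-- Cyclic derived subgroup of order dividing `p ^ 2`. -/
lemma two_of_cyclic [hp : Fact p.Prime] [Finite G] (h2 : commutator G ≤ center G) {c : G}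
    (hc : commutator G ≤ zpowers c) (hcc : c ∈ commutator G) (hcp : (c ^ p) ^ p = 1) :
    ∃ D₁ D₂ : ℕ, ∀ d ∈ cdSet G, d ^ 2 = 1 ∨ d ^ 2 = D₁ ∨ d ^ 2 = D₂ := by
  have hcz : c ^ p ∈ center G := (center G).pow_mem (h2 hcc) p
  have hN : (zpowers (c ^ p)).Normal := by
    refine ⟨fun n hn g => ?_⟩
    have h3 : zpowers (c ^ p) ≤ center G := by rwa [zpowers_le]
    have e : g * n * g⁻¹ = n := by rw [mem_center_iff.1 (h3 hn) g, mul_inv_cancel_right]
    rwa [e]
  refine ⟨(RR (zpowers (c ^ p))).index, (center G).index, ?_⟩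
  rintro d ⟨U, _, _, _, ρ, hρ, rfl⟩
  rw [sq_eq_of_class_two h2 ρ hρ]
  obtain ⟨K, hK⟩ := C3.exists_fix ρ ⊤
  have hK' : ∀ g, g ∈ K ↔ ρ g = 1 := by
    intro g
    rw [hK]
    constructor
    · intro h
      ext u
      exact h u trivial
    · intro h u _
      rw [h]; rfl
  by_cases h3 : c ∈ K
  · left
    rw [rad_eq_top ρ, index_top]
    intro u hu
    obtain ⟨i, rfl⟩ := mem_zpowers_iff.1 (hc hu)
    exact (hK' _).1 (K.zpow_mem h3 i)
  · right
    by_cases h4 : c ^ p ∈ K
    · left
      congr 1
      ext x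
      rw [mem_Rad, mem_RR]
      refine forall_congr' (fun g => ?_)
      rw [← hK']
      obtain ⟨i, hi⟩ := mem_zpowers_iff.1 (hc (comm_mem_comm x g))
      rw [← hi]
      constructor
      · intro h
        obtain ⟨q, rfl⟩ := C3.dvd_of_zpow_mem h4 h3 h
        rw [zpow_mul, zpow_natCast]
        exact (zpowers (c ^ p)).zpow_mem (mem_zpowers _) q
      · intro h
        obtain ⟨q, hq⟩ := mem_zpowers_iff.1 h
        rw [← hq]
        exact K.zpow_mem h4 q
    · right
      congr 1
      ext x
      rw [mem_Rad, mem_center_iff]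
      have hbp : (c ^ p) ^ p ∈ K := by rw [hcp]; exact one_mem _
      constructor
      · intro h g
        have h5 := h g
        rw [← hK'] at h5
        obtain ⟨i, hi⟩ := mem_zpowers_iff.1 (hc (comm_mem_comm x g))
        rw [← hi] at h5
        have h6 : (c ^ p) ^ i ∈ K := by
          rw [← zpow_natCast, ← zpow_mul, mul_comm, zpow_mul]
          exact K.zpow_mem h5 p
        obtain ⟨q, rfl⟩ := C3.dvd_of_zpow_mem hbp h4 h6
        rw [zpow_mul, zpow_natCast] at h5
        obtain ⟨r, rfl⟩ := C3.dvd_of_zpow_mem hbp h4 h5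
        rw [zpow_mul, zpow_natCast, zpow_mul, zpow_natCast, hcp, one_zpow] at hi
        exact (commutatorElement_eq_one_iff_mul_comm.1 hi.symm).symm
      · intro h g
        rw [commutatorElement_eq_one_iff_mul_comm.2 (h g).symm, map_one]

/-- The elementary abelian case. -/
lemma bounds_of_elementary [Finite G] (h2 : commutator G ≤ center G)
    (hexp : ∀ c ∈ commutator G, c ^ p = 1) (hcard : Nat.card (commutator G) = p ^ 2)
    {M : ℕ} (hM : M ∈ expSet p G) :
    (expSet p G).card ≤ p + 1 ∧ ∑ e ∈ expSet p G, (M - e) ≤ M := by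
  classical
  obtain ⟨D⟩ := exists_bilinData (p := p) h2 hexp
  have hW : Module.finrank (ZMod p) D.W = 2 := by
    have h1 := Module.natCard_eq_pow_finrank (K := ZMod p) (V := D.W)
    rw [Nat.card_zmod, D.card_W, hcard] at h1
    exact (Nat.pow_right_injective hp.out.two_le h1).symm
  have hφ : ∀ e, ∃ φ : D.W →ₗ[ZMod p] ZMod p, e ∈ expSet p G → φ ≠ 0 ∧
      Module.finrank (ZMod p) (LinearMap.range (D.β.compr₂ φ)) = 2 * e := by
    intro e
    by_cases he : e ∈ expSet p G
    · obtain ⟨he1, U, _, _, _, ρ, hρ, hd⟩ := mem_expSet.1 he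
      have hsq := sq_eq_of_class_two h2 ρ hρ
      have hnl : ∃ u ∈ commutator G, ρ u ≠ 1 := by
        by_contra hcon
        push Not at hcon
        rw [rad_eq_top ρ hcon, index_top, hd, ← pow_mul] at hsq
        have := Nat.one_lt_pow (n := e * 2) (by omega) hp.out.one_lt
        omega
      obtain ⟨φ, hφ0, hφ⟩ := D.exists_functional h2 ρ hρ hnl
      refine ⟨φ, fun _ => ⟨hφ0, ?_⟩⟩
      have h3 := D.index_eq φ (Rad ρ) (by
        intro x
        rw [mem_Rad]
        exact forall_congr' (fun g => (hφ (cm x g)).symm))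
      rw [← hsq, hd, ← pow_mul] at h3
      have := Nat.pow_right_injective hp.out.two_le h3
      omega
    · exact ⟨0, fun h => absurd h he⟩
  choose φ hφ using hφ
  have h := pencil_family D.β D.alt hW (expSet p G) φ (fun e he => (hφ e he).1)
    (fun e he => (hφ e he).2) hM
  rwa [ZMod.card] at h

/-- The degrees are at most `p`. -/
lemma eq_of_le [Finite G] (hGp : IsPGroup p G)
    (h : ∀ d ∈ cdSet G, d ≤ p) : ∀ d ∈ cdSet G, d = 1 ∨ d = p := by
  intro d hd
  obtain ⟨k, rfl⟩ := pow_of_mem_cdSet hGp hd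
  have h1 := h _ hd
  have h2 : k ≤ 1 := by
    by_contra hcon
    have h3 : p ^ 1 < p ^ k := Nat.pow_lt_pow_right hp.out.one_lt (by omega)
    rw [pow_one] at h3
    omega
  interval_cases k
  · left; exact pow_zero p
  · right; exact pow_one p

lemma two_big_le [Finite G] (h2 : commutator G ≤ center G)
    (hB : ∀ x : G, (centralizer {x}).index ∣ p ^ 2) (hbig : p ^ 2 < Nat.card (commutator G)) :
    ∀ d ∈ cdSet G, d ≤ p := by
  obtain ⟨x, h3, h4, h5⟩ := two_big h2 hB hbig
  rintro d ⟨U, _, _, _, ρ, hρ, rfl⟩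
  have hc : ∀ a b : G, ⁅a, b⁆ ∈ center G := fun a b => h2 (comm_mem_comm a b)
  exact finrank_le_of_cent (p := p) x (hc x) h4 h5
    (cent_eq (p := p) x (fun m _ g => hc g m) h3 h4 h5) ρ hρ

lemma bounds_of_le [Finite G] (hGp : IsPGroup p G) (h : ∀ d ∈ cdSet G, d ≤ p) {M : ℕ}
    (hM : M ∈ expSet p G) :
    (expSet p G).card ≤ p + 1 ∧ ∑ e ∈ expSet p G, (M - e) ≤ M := by
  refine bounds_of_two (D₁ := p ^ 2) (D₂ := p ^ 2) ?_ hM
  intro d hd
  rcases eq_of_le hGp h d hd with rfl | rfl
  · left; exact one_pow 2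
  · right; left; rfl

/-- The forward direction of the classification. -/
theorem bounds [Finite G] (hGp : IsPGroup p G) (hB : ∀ x : G, (centralizer {x}).index ∣ p ^ 2)
    {M : ℕ} (hM : M ∈ expSet p G) :
    (expSet p G).card ≤ p + 1 ∧ ∑ e ∈ expSet p G, (M - e) ≤ M := by
  by_cases h2 : commutator G ≤ center G
  · by_cases hbig : p ^ 2 < Nat.card (commutator G)
    · exact bounds_of_le hGp (two_big_le h2 hB hbig) hM
    · push Not at hbig
      obtain ⟨k, hk⟩ := IsPGroup.iff_card.1 (hGp.to_subgroup (commutator G))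
      have hk2 : k ≤ 2 := by
        rw [hk] at hbig
        exact (Nat.pow_le_pow_iff_right hp.out.one_lt).1 hbig
      have hexp2 : ∀ c ∈ commutator G, (c ^ p) ^ p = 1 := by
        intro c hc
        have h3 : (⟨c, hc⟩ : commutator G) ^ (p ^ 2) = 1 := by
          have h4 : p ^ 2 = Nat.card (commutator G) * p ^ (2 - k) := by
            rw [hk, ← pow_add]; congr 1; omega
          rw [h4, pow_mul, pow_card_eq_one', one_pow]
        have h5 := congrArg Subtype.val h3
        rw [Subgroup.coe_pow, sq, pow_mul] at h5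
        exact h5
      by_cases hexp : ∀ c ∈ commutator G, c ^ p = 1
      · by_cases hk' : k = 2
        · rw [hk'] at hk
          exact bounds_of_elementary h2 hexp hk hM
        · -- order dividing `p`
          have hcyc : ∃ c ∈ commutator G, commutator G ≤ zpowers c := by
            by_cases hk0 : k = 0
            · rw [hk0, pow_zero] at hk
              refine ⟨1, one_mem _, ?_⟩
              rw [Subgroup.card_eq_one.1 hk]
              exact bot_le
            · have hk1 : k = 1 := by omega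
              rw [hk1, pow_one] at hk
              have : Nontrivial (commutator G) := by
                rw [← Finite.one_lt_card_iff_nontrivial, hk]
                exact hp.out.one_lt
              obtain ⟨c, hc⟩ := exists_ne (1 : commutator G)
              refine ⟨c, c.2, ?_⟩
              intro u hu
              have h3 := mem_zpowers_of_prime_card (h := hk) (g := c) (g' := ⟨u, hu⟩) hc
              obtain ⟨j, hj⟩ := mem_zpowers_iff.1 h3
              rw [mem_zpowers_iff]
              exact ⟨j, by simpa using congrArg Subtype.val hj⟩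
          obtain ⟨c, hc, hc2⟩ := hcyc
          obtain ⟨D₁, D₂, h3⟩ := two_of_cyclic h2 hc2 hc (hexp2 c hc)
          exact bounds_of_two h3 hM
      · push Not at hexp
        obtain ⟨c, hc, hcp⟩ := hexp
        have hord : orderOf c = p ^ 2 := by
          have h3 : orderOf c = p ^ (1 + 1) := orderOf_eq_prime_pow (by rw [pow_one]; exact hcp)
            (by rw [show 1 + 1 = 2 from rfl, sq, pow_mul]; exact hexp2 c hc)
          exact h3
        have hc2 : commutator G ≤ zpowers c := by
          have h3 : zpowers c ≤ commutator G := by rwa [zpowers_le]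
          have h4 : zpowers c = commutator G := by
            apply Subgroup.eq_of_le_of_card_ge h3
            rw [Nat.card_zpowers, hord]
            exact hbig
          rw [h4]
        obtain ⟨D₁, D₂, h3⟩ := two_of_cyclic h2 hc2 hc (hexp2 c hc)
        exact bounds_of_two h3 hM
  · obtain ⟨S⟩ := exists_C3 hGp hB h2
    obtain ⟨k, hk, hk2⟩ := (Nat.dvd_prime_pow hp.out).1 (hB S.c)
    have hk0 : k ≠ 0 := by
      rintro rfl
      rw [pow_zero] at hk2
      apply S.G3_ne_bot
      rw [← Subgroup.card_eq_one, S.card_G3, hk2]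
    have hk' : k = 1 ∨ k = 2 := by omega
    rcases hk' with rfl | rfl
    · rw [pow_one] at hk2
      obtain ⟨D₁, D₂, h3⟩ := S.two_degrees hk2
      exact bounds_of_two h3 hM
    · refine bounds_of_le hGp ?_ hM
      rintro d ⟨U, _, _, _, ρ, hρ, rfl⟩
      exact S.finrank_le hk2 ρ hρ

/-- One nonlinear degree. -/
lemma cdSet_eq_of_sq [Finite G] (hGp : IsPGroup p G) (hnab : ∃ x y : G, ⁅x, y⁆ ≠ 1) {D : ℕ}
    (h : ∀ d ∈ cdSet G, d ^ 2 = 1 ∨ d ^ 2 = D) : ∃ e, 1 ≤ e ∧ cdSet G = {1, p ^ e} := by
  obtain ⟨e, he⟩ := expSet_nonempty hGp hnab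
  rw [mem_expSet] at he
  refine ⟨e, he.1, ?_⟩
  have h1 : (p ^ e) ^ 2 = D := by
    rcases h _ he.2 with h1 | h1
    · exfalso
      rw [← pow_mul] at h1
      have := Nat.one_lt_pow (n := e * 2) (by omega) hp.out.one_lt
      omega
    · exact h1
  ext d
  constructor
  · intro hd
    rcases h d hd with h3 | h3
    · left
      exact Nat.pow_left_injective (n := 2) (by norm_num) (h3.trans (one_pow 2).symm)
    · right
      exact Nat.pow_left_injective (n := 2) (by norm_num) (h3.trans h1.symm)
  · rintro (rfl | rfl)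
    · exact one_mem_cdSet
    · exact he.2

/-- All noncentral classes have the size of the derived subgroup. -/
lemma camina_degrees [Finite G] (h : ∀ x ∉ center G, (centralizer {x}).index =
    Nat.card (commutator G)) : ∀ d ∈ cdSet G, d ^ 2 = 1 ∨ d ^ 2 = (center G).index := by
  have h2 := commutator_le_center_of h
  rintro d ⟨U, _, _, _, ρ, hρ, rfl⟩
  rw [sq_eq_of_class_two h2 ρ hρ]
  by_cases h3 : ∀ u ∈ commutator G, ρ u = 1
  · left
    rw [rad_eq_top ρ h3, index_top]
  · right
    push Not at h3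
    obtain ⟨u, hu, hu1⟩ := h3
    congr 1
    ext x
    rw [mem_Rad]
    constructor
    · intro h4
      by_contra hx
      obtain ⟨y, hy⟩ := exists_commutator_eq (h x hx) hu
      apply hu1
      rw [← hy]
      exact h4 y
    · intro hx g
      rw [comm_eq_one_of_left hx, map_one]

omit hp in
lemma index_of_center {x : G} (hx : x ∈ center G) : (centralizer {x}).index = 1 := by
  rw [index_eq_one, eq_top_iff]
  intro y _
  rw [mem_centralizer_singleton_iff]
  exact mem_center_iff.1 hx y

omit hp in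
lemma mem_center_of_index {x : G} (hx : (centralizer {x}).index = 1) : x ∈ center G := by
  rw [index_eq_one] at hx
  rw [mem_center_iff]
  intro y
  have : y ∈ centralizer {x} := by rw [hx]; trivial
  rw [mem_centralizer_singleton_iff] at this
  exact this

omit hp in
lemma nonabelian_of_csSet {c : ℕ} (hc : c ∈ csSet G) (hc1 : c ≠ 1) : ∃ x y : G, ⁅x, y⁆ ≠ 1 := by
  obtain ⟨x, hx⟩ := hc
  by_contra hcon
  push Not at hcon
  apply hc1
  rw [← hx]
  apply index_of_center
  rw [mem_center_iff]
  intro y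
  exact (commutatorElement_eq_one_iff_mul_comm.1 (hcon x y)).symm

/-- Class sizes `{1}`. -/
theorem fwd_one [Finite G] (hcs : csSet G = {1}) : cdSet G = {1} := by
  have hab : ∀ x y : G, ⁅x, y⁆ = 1 := by
    intro x y
    have h1 : (centralizer {x}).index ∈ csSet G := ⟨x, rfl⟩
    rw [hcs] at h1
    have h2 := mem_center_of_index h1
    exact comm_eq_one_of_left h2 y
  ext d
  constructor
  · rintro ⟨U, _, _, _, ρ, hρ, rfl⟩
    have h2 : commutator G ≤ center G := by
      apply commutator_le_of
      intro a b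
      rw [hab]
      exact one_mem _
    have h3 := sq_eq_of_class_two h2 ρ hρ
    have h4 : Rad ρ = ⊤ := by
      rw [eq_top_iff]
      intro x _
      rw [mem_Rad]
      intro g
      rw [hab, map_one]
    rw [h4, index_top] at h3
    exact Nat.pow_left_injective (n := 2) (by norm_num) (h3.trans (one_pow 2).symm)
  · rintro rfl
    exact one_mem_cdSet

/-- In class three there are classes of size `p ^ 2`. -/
lemma exists_sq_of_not_two [Finite G] (hGp : IsPGroup p G)
    (hB : ∀ x : G, (centralizer {x}).index ∣ p ^ 2) (h2 : ¬ commutator G ≤ center G) :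
    p ^ 2 ∈ csSet G := by
  obtain ⟨S⟩ := exists_C3 hGp hB h2
  have h3 : centralizer (commutator G : Set G) ≠ ⊤ := by
    intro h
    apply S.hne
    intro u hu
    rw [mem_center_iff]
    intro g
    have : g ∈ centralizer (commutator G : Set G) := by rw [h]; trivial
    rw [mem_centralizer_iff] at this
    exact (this u hu).symm
  obtain ⟨x, hx, -⟩ := exists_notMem_two h3 h3
  exact ⟨x, (index_of_notMem hB S.hN hx).2.2⟩

/-- Class sizes `{1, p}`. -/
theorem fwd_p [Finite G] (hGp : IsPGroup p G) (hcs : csSet G = {1, p}) :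
    ∃ e, 1 ≤ e ∧ cdSet G = {1, p ^ e} := by
  have hp1 := hp.out.one_lt
  have hpsq : p < p ^ 2 := by rw [sq]; exact lt_mul_self hp1
  have hB1 : ∀ x : G, (centralizer {x}).index ∣ p := by
    intro x
    have h1 : (centralizer {x}).index ∈ csSet G := ⟨x, rfl⟩
    rw [hcs] at h1
    rcases h1 with h1 | h1
    · rw [h1]; exact one_dvd _
    · rw [h1]
  have hB : ∀ x : G, (centralizer {x}).index ∣ p ^ 2 := fun x =>
    (hB1 x).trans (dvd_pow_self p (by norm_num))
  have hpcs : p ∈ csSet G := by rw [hcs]; simp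
  have hnab := nonabelian_of_csSet hpcs hp1.ne'
  have h2 : commutator G ≤ center G := by
    by_contra h
    have h3 := exists_sq_of_not_two hGp hB h
    rw [hcs] at h3
    rcases h3 with h3 | h3
    · omega
    · have h4 : p ^ 2 = p := h3
      omega
  have hbt : (⊥ : Subgroup G) ≠ ⊤ := by
    intro h
    obtain ⟨x, y, hxy⟩ := hnab
    apply hxy
    have : ⁅x, y⁆ ∈ (⊥ : Subgroup G) := by rw [h]; trivial
    exact this
  obtain ⟨u, v, h3, h4⟩ := lemma_AB (p := p) h2 hbt (fun x _ => hB1 x)
  have h5 : commutator G ≤ zpowers ⁅u, v⁆ := commutator_le_of h3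
  have h6 : Nat.card (commutator G) ≤ p := by
    refine (Subgroup.card_le_of_le h5).trans ?_
    rw [Nat.card_zpowers]
    exact Nat.le_of_dvd hp.out.pos (orderOf_dvd_of_pow_eq_one h4)
  refine cdSet_eq_of_sq hGp hnab (camina_degrees (fun x hx => ?_))
  have h7 : (centralizer {x}).index = p :=
    ((Nat.dvd_prime hp.out).1 (hB1 x)).resolve_left (fun h => hx (mem_center_of_index h))
  have h8 : (centralizer {x}).index ≤ Nat.card (commutator G) := by
    rw [← card_kap h2 x]
    have h9 : (kap h2 x).range.map (center G).subtype ≤ commutator G := by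
      rintro _ ⟨_, ⟨g, rfl⟩, rfl⟩
      exact comm_mem_comm x g
    refine le_trans (le_of_eq ?_) (Subgroup.card_le_of_le h9)
    exact Nat.card_congr (Subgroup.equivMapOfInjective _ _
      (Subgroup.subtype_injective _)).toEquiv
  omega

/-- Class sizes `{1, p ^ 2}`. -/
theorem fwd_psq [Finite G] (hGp : IsPGroup p G) (hcs : csSet G = {1, p ^ 2}) :
    ∃ e, 1 ≤ e ∧ cdSet G = {1, p ^ e} := by
  have hp1 := hp.out.one_lt
  have hpsq : p < p ^ 2 := by rw [sq]; exact lt_mul_self hp1
  have hB1 : ∀ x : G, (centralizer {x}).index = 1 ∨ (centralizer {x}).index = p ^ 2 := by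
    intro x
    have h1 : (centralizer {x}).index ∈ csSet G := ⟨x, rfl⟩
    rw [hcs] at h1
    exact h1
  have hB : ∀ x : G, (centralizer {x}).index ∣ p ^ 2 := by
    intro x
    rcases hB1 x with h | h
    · rw [h]; exact one_dvd _
    · rw [h]
  have hpcs : p ^ 2 ∈ csSet G := by rw [hcs]; simp
  have hnab := nonabelian_of_csSet hpcs (by omega)
  have hsmall : (∀ d ∈ cdSet G, d ≤ p) → ∃ e, 1 ≤ e ∧ cdSet G = {1, p ^ e} := by
    intro h
    apply cdSet_eq_of_sq hGp hnab (D := p ^ 2)
    intro d hd
    rcases eq_of_le hGp h d hd with rfl | rfl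
    · left; exact one_pow 2
    · right; rfl
  by_cases h2 : commutator G ≤ center G
  · by_cases hbig : p ^ 2 < Nat.card (commutator G)
    · exact hsmall (two_big_le h2 hB hbig)
    · push Not at hbig
      refine cdSet_eq_of_sq hGp hnab (camina_degrees (fun x hx => ?_))
      have h7 : (centralizer {x}).index = p ^ 2 :=
        (hB1 x).resolve_left (fun h => hx (mem_center_of_index h))
      have h8 : (centralizer {x}).index ≤ Nat.card (commutator G) := by
        rw [← card_kap h2 x]
        have h9 : (kap h2 x).range.map (center G).subtype ≤ commutator G := by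
          rintro _ ⟨_, ⟨g, rfl⟩, rfl⟩
          exact comm_mem_comm x g
        refine le_trans (le_of_eq ?_) (Subgroup.card_le_of_le h9)
        exact Nat.card_congr (Subgroup.equivMapOfInjective _ _
          (Subgroup.subtype_injective _)).toEquiv
      omega
  · obtain ⟨S⟩ := exists_C3 hGp hB h2
    rcases hB1 S.c with h3 | h3
    · exfalso
      apply S.G3_ne_bot
      rw [← Subgroup.card_eq_one, S.card_G3, h3]
    · apply hsmall
      rintro d ⟨U, _, _, _, ρ, hρ, rfl⟩
      exact S.finrank_le h3 ρ hρ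

/-- Class sizes `{1, p, p ^ 2}`. -/
theorem fwd_three [Finite G] (hGp : IsPGroup p G) (hcs : csSet G = {1, p, p ^ 2}) :
    ∃ E : Finset ℕ, E.Nonempty ∧ (∀ e ∈ E, 1 ≤ e) ∧
      cdSet G = insert 1 ((fun e => p ^ e) '' (E : Set ℕ)) ∧ E.card ≤ p + 1 ∧
      ∀ M ∈ E, ∑ e ∈ E, (M - e) ≤ M := by
  have hp1 := hp.out.one_lt
  have hB : ∀ x : G, (centralizer {x}).index ∣ p ^ 2 := by
    intro x
    have h1 : (centralizer {x}).index ∈ csSet G := ⟨x, rfl⟩
    rw [hcs] at h1
    rcases h1 with h | h | h
    · rw [h]; exact one_dvd _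
    · rw [h]; exact dvd_pow_self p (by norm_num)
    · rw [h]
  have hpcs : p ∈ csSet G := by rw [hcs]; simp
  have hnab := nonabelian_of_csSet hpcs hp1.ne'
  have hne := expSet_nonempty hGp hnab
  obtain ⟨M, hM⟩ := hne
  exact ⟨expSet p G, ⟨M, hM⟩, fun e he => (mem_expSet.1 he).1, cdSet_eq_of hGp,
    (bounds hGp hB hM).1, fun M hM => (bounds hGp hB hM).2⟩

end

end Pool.Agent.Lib.MP_e0d3d5_al
end
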